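import Pool.Agent.Y113.G.Lin

/-!
# The determinant inequality with a nonzero linear form
-/

set_option autoImplicit false

namespace Pool.Agent.N743.SS

open Pool.Agent.Y113

lemma det_ineq' {N : ℕ} (M : Matrix (Fin N) (Fin N) ℤ) (hM : M.det ≠ 0) (r₀ i₀ : Fin N)
    (Y : Fin N → ℝ) (hY : Y i₀ = 1) (A X L : ℝ) (hA : 0 ≤ A) (hX : 1 ≤ X) (hL : 0 ≤ L)
    (hMA : ∀ j, |(M r₀ j : ℝ)| ≤ A) (hMX : ∀ r, r ≠ r₀ → ∀ j, |(M r j : ℝ)| ≤ X)
    (hML : ∀ r, r ≠ r₀ → |∑ j, (M r j : ℝ) * Y j| ≤ L) :
    1 ≤ N * (N.factorial * (A * X ^ (N - 2)) * L) +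
      N.factorial * X ^ (N - 1) * |∑ j, (M r₀ j : ℝ) * Y j| := by
  classical
  set R : Matrix (Fin N) (Fin N) ℝ := M.map (Int.cast : ℤ → ℝ) with hR
  have hdet : R.det = ((M.det : ℤ) : ℝ) := (Int.cast_det (R := ℝ) M).symm
  have h1 : (1 : ℝ) ≤ |R.det| := by
    rw [hdet]
    exact_mod_cast Int.one_le_abs hM
  have h2 : R.det * Y i₀ = ∑ r, R.adjugate i₀ r * (R.mulVec Y) r := by
    have h3 : R.adjugate.mulVec (R.mulVec Y) = R.det • Y := by
      rw [Matrix.mulVec_mulVec, Matrix.adjugate_mul, Matrix.smul_mulVec, Matrix.one_mulVec]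
    have := congrFun h3 i₀
    rw [Pi.smul_apply, smul_eq_mul] at this
    rw [← this]
    rfl
  rw [hY, mul_one] at h2
  rw [h2] at h1
  refine h1.trans ((Finset.abs_sum_le_sum_abs _ _).trans ?_)
  have hmv : ∀ r, (R.mulVec Y) r = ∑ j, (M r j : ℝ) * Y j := fun _ => rfl
  have hW : 0 ≤ N.factorial * X ^ (N - 1) * |∑ j, (M r₀ j : ℝ) * Y j| := by positivity
  have h3 : ∀ r : Fin N, r ≠ r₀ → |R.adjugate i₀ r * (R.mulVec Y) r| ≤
      N.factorial * (A * X ^ (N - 2)) * L := by
    intro r hr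
    rw [abs_mul, hmv]
    refine mul_le_mul ?_ (hML r hr) (abs_nonneg _) (by positivity)
    rw [Matrix.adjugate_apply]
    refine (det_bound _ (fun s => if s = r then 1 else if s = r₀ then A else X) ?_).trans
      (le_of_eq ?_)
    · intro s j
      by_cases hs : s = r
      · rw [if_pos hs, hs, Matrix.updateRow_self]
        by_cases hj : j = i₀
        · rw [hj, Pi.single_eq_same, abs_one]
        · rw [Pi.single_eq_of_ne hj, abs_zero]; exact zero_le_one
      · rw [if_neg hs, Matrix.updateRow_ne hs]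
        by_cases hs2 : s = r₀
        · rw [if_pos hs2, hs2]; exact hMA j
        · rw [if_neg hs2]; exact hMX s hs2 j
    · congr 1
      rw [← Finset.mul_prod_erase Finset.univ _ (Finset.mem_univ r), if_pos rfl, one_mul]
      rw [← Finset.mul_prod_erase (Finset.univ.erase r) _
        (Finset.mem_erase.2 ⟨Ne.symm hr, Finset.mem_univ r₀⟩), if_neg (Ne.symm hr), if_pos rfl]
      congr 1
      rw [Finset.prod_congr rfl (g := fun _ => X) (fun s hs => by
        rw [Finset.mem_erase, Finset.mem_erase] at hs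
        rw [if_neg hs.2.1, if_neg hs.1])]
      rw [Finset.prod_const, Finset.card_erase_of_mem
        (Finset.mem_erase.2 ⟨Ne.symm hr, Finset.mem_univ r₀⟩),
        Finset.card_erase_of_mem (Finset.mem_univ r), Finset.card_univ, Fintype.card_fin]
      congr 1
  have h4 : |R.adjugate i₀ r₀ * (R.mulVec Y) r₀| ≤
      N.factorial * X ^ (N - 1) * |∑ j, (M r₀ j : ℝ) * Y j| := by
    rw [abs_mul, hmv]
    refine mul_le_mul_of_nonneg_right ?_ (abs_nonneg _)
    rw [Matrix.adjugate_apply]
    refine (det_bound _ (fun s => if s = r₀ then 1 else X) ?_).trans (le_of_eq ?_)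
    · intro s j
      by_cases hs : s = r₀
      · rw [if_pos hs, hs, Matrix.updateRow_self]
        by_cases hj : j = i₀
        · rw [hj, Pi.single_eq_same, abs_one]
        · rw [Pi.single_eq_of_ne hj, abs_zero]; exact zero_le_one
      · rw [if_neg hs, Matrix.updateRow_ne hs]
        exact hMX s hs j
    · congr 1
      rw [← Finset.mul_prod_erase Finset.univ _ (Finset.mem_univ r₀), if_pos rfl, one_mul]
      rw [Finset.prod_congr rfl (g := fun _ => X) (fun s hs => by
        rw [Finset.mem_erase] at hs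
        rw [if_neg hs.1])]
      rw [Finset.prod_const, Finset.card_erase_of_mem (Finset.mem_univ r₀), Finset.card_univ,
        Fintype.card_fin]
  have h5 : ∀ r : Fin N, |R.adjugate i₀ r * (R.mulVec Y) r| ≤
      N.factorial * (A * X ^ (N - 2)) * L +
        if r = r₀ then N.factorial * X ^ (N - 1) * |∑ j, (M r₀ j : ℝ) * Y j| else 0 := by
    intro r
    by_cases hr : r = r₀
    · rw [if_pos hr, hr]
      have : 0 ≤ N.factorial * (A * X ^ (N - 2)) * L := by positivity
      linarith
    · rw [if_neg hr, add_zero]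
      exact h3 r hr
  calc ∑ r, |R.adjugate i₀ r * (R.mulVec Y) r|
      ≤ ∑ r : Fin N, (N.factorial * (A * X ^ (N - 2)) * L +
        if r = r₀ then N.factorial * X ^ (N - 1) * |∑ j, (M r₀ j : ℝ) * Y j| else 0) :=
        Finset.sum_le_sum fun r _ => h5 r
    _ = _ := by rw [Finset.sum_add_distrib, Finset.sum_ite_eq']; simp

end Pool.Agent.N743.SS
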