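import Pool.Agent.N743.SS.Pair
import Pool.Agent.N743.Alg
import Pool.Agent.R352.E.Rel2
import Pool.Agent.R352.E.Gen

/-!
# Moments of the logarithm and generalized Gompertz numbers: joint measures
-/

set_option autoImplicit false

open Filter Topology Set MeasureTheory

namespace Pool.Agent.N743.SS

open Pool.Agent.R352.E Pool.Agent.TH456.TM
open Pool.Agent.R356 (JointR)

/-- the moments `∫ log (x / t)^l e^(-t) dt` -/
noncomputable def mom (l : ℕ) (x : ℝ) : ℝ :=
  ∫ t in Ioi (0 : ℝ), (Real.log x - Real.log t) ^ l * Real.exp (-t)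

/-- the integrals `∫ log (1 + s / x)^l e^(-s) ds` -/
noncomputable def gom (l : ℕ) (x : ℝ) : ℝ :=
  ∫ s in Ioi (0 : ℝ), Real.log (1 + s / x) ^ l * Real.exp (-s)

lemma gom_eq (l : ℕ) (x : ℝ) : gom l x = dl l x := rfl

lemma mom_eq (l : ℕ) (x : ℝ) : mom l x = (-1) ^ l * NN l x := by
  have h1 : ∀ t : ℝ, (Real.log x - Real.log t) ^ l * Real.exp (-t) =
      ∑ i ∈ Finset.range (l + 1), ((-1) ^ l * ((l.choose i : ℝ) * (-1) ^ (l - i) * Real.log x ^ (l - i))) * fr i t := by
    intro t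
    have h2 : Real.log x - Real.log t = (-1) * (Real.log t + -Real.log x) := by ring
    rw [h2, mul_pow, add_pow, Finset.mul_sum, Finset.sum_mul]
    refine Finset.sum_congr rfl fun i _ => ?_
    rw [fr, neg_pow]
    ring
  rw [mom]
  simp only [h1]
  rw [integral_finsetSum]
  · rw [NN, Finset.mul_sum]
    refine Finset.sum_congr rfl fun i _ => ?_
    rw [integral_const_mul, mo]
    ring
  · intro i _
    exact (fr_integrable i).const_mul _

lemma mom_one (x : ℝ) : mom 1 x = Real.eulerMascheroniConstant + Real.log x := by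
  rw [mom_eq, NN_one]; ring

lemma mom_three : mom 3 1 = Real.eulerMascheroniConstant ^ 3 + Real.eulerMascheroniConstant * Real.pi ^ 2 / 2 +
    2 * zeta3 := by
  rw [mom_eq, NN_three]
  simp only [Real.log_one, add_zero]
  ring

/-- the basic relation -/
lemma rel (l : ℕ) {x : ℝ} (hx : 0 < x) :
    mom l x = l.factorial * EE l x + (-1) ^ l * (Real.exp (-x) * gom l x) := by
  have h1 := EE_rel l hx
  have h2 : (l.factorial : ℝ) ≠ 0 := by exact_mod_cast l.factorial_ne_zero
  rw [mom_eq, h1, gom_eq]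
  have h3 : (-1 : ℝ) ^ l * (-1) ^ l = 1 := by rw [← mul_pow]; simp
  field_simp
  ring

lemma gom_pos (l : ℕ) {x : ℝ} (hx : 0 < x) : 0 < gom l x := by
  rw [gom_eq]
  have hint : IntegrableOn (fun s : ℝ => Real.log (1 + s / x) ^ l * Real.exp (-s)) (Ioi 0) := by
    by_contra hcon
    -- the relation shows that the integral is finite
    have h1 : ∀ s ∈ Ioi (0 : ℝ), Real.log (1 + s / x) ^ l * Real.exp (-s) ≤ (s / x) ^ l * Real.exp (-s) := by
      intro s hs
      have hs' : (0 : ℝ) < s := hs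
      obtain ⟨h2, h3⟩ := log_bound hx hs'.le
      exact mul_le_mul_of_nonneg_right (pow_le_pow_left₀ h2 h3 l) (Real.exp_pos _).le
    have h4 : IntegrableOn (fun s : ℝ => (s / x) ^ l * Real.exp (-s)) (Ioi 0) := by
      have h := Real.GammaIntegral_convergent (s := (l : ℝ) + 1) (by positivity)
      have h5 := h.mul_const ((x ^ l)⁻¹)
      refine IntegrableOn.congr_fun h5 (fun s hs => ?_) measurableSet_Ioi
      have hs' : (0 : ℝ) < s := hs
      simp only [add_sub_cancel_right, Real.rpow_natCast]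
      rw [div_pow]
      ring
    apply hcon
    refine Integrable.mono' h4 ?_ ?_
    · refine ContinuousOn.aestronglyMeasurable ?_ measurableSet_Ioi
      refine ContinuousOn.mul (ContinuousOn.pow (ContinuousOn.log (by fun_prop) ?_) l) (by fun_prop)
      intro s hs
      have hs' : (0 : ℝ) < s := hs
      positivity
    · filter_upwards [ae_restrict_mem measurableSet_Ioi] with s hs
      have hs' : (0 : ℝ) < s := hs
      obtain ⟨h2, h3⟩ := log_bound hx hs'.le
      rw [Real.norm_eq_abs, abs_of_nonneg (by positivity)]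
      exact h1 s hs
  rw [dl]
  rw [setIntegral_pos_iff_support_of_nonneg_ae ?_ hint]
  · have h1 : Ioi (0 : ℝ) ⊆ Function.support (fun s : ℝ => Real.log (1 + s / x) ^ l * Real.exp (-s)) ∩ Ioi 0 := by
      intro s hs
      have hs' : (0 : ℝ) < s := hs
      refine ⟨?_, hs⟩
      rw [Function.mem_support]
      have h2 : 0 < Real.log (1 + s / x) := Real.log_pos (by
        have : 0 < s / x := by positivity
        linarith)
      positivity
    refine lt_of_lt_of_le ?_ (measure_mono h1)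
    simp
  · filter_upwards [ae_restrict_mem measurableSet_Ioi] with s hs
    have hs' : (0 : ℝ) < s := hs
    obtain ⟨h2, h3⟩ := log_bound hx hs'.le
    show (0 : ℝ) ≤ _
    positivity

/-- the numbers `e^(j x) M_l(x)` and `e^(j x) δ_l(x)` -/
noncomputable def fam (l : ℕ) (x : ℝ) (p : Bool × ℤ) : ℝ :=
  Real.exp (p.2 * x) * (if p.1 then mom l x else gom l x)

/-- numerator and denominator -/
lemma rat_eq (x : ℚ) (hx : 0 < x) : ((x.num.toNat : ℕ) : ℝ) / x.den = x ∧ 1 ≤ x.num.toNat ∧ 1 ≤ x.den := by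
  have hnum : 0 < x.num := Rat.num_pos.2 hx
  refine ⟨?_, by omega, x.den_pos⟩
  have h2 : ((x.num.toNat : ℕ) : ℝ) = ((x.num : ℤ) : ℝ) := by
    have : ((x.num.toNat : ℕ) : ℤ) = x.num := Int.toNat_of_nonneg hnum.le
    exact_mod_cast this
  rw [h2]
  exact_mod_cast Rat.num_div_den x

/-- one number of each kind -/
theorem joint_cross (l : ℕ) (hl : 1 ≤ l) (x : ℚ) (hx : 0 < x) (j k : ℤ) :
    JointR (fam l x (true, j)) (fam l x (false, k)) := by
  obtain ⟨m, hm⟩ : ∃ m, m = x.num.toNat := ⟨_, rfl⟩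
  obtain ⟨q, hq⟩ : ∃ q, q = x.den := ⟨_, rfl⟩
  obtain ⟨hxe, hm1, hq1⟩ := rat_eq x hx
  rw [← hm, ← hq] at hxe
  rw [← hm] at hm1
  rw [← hq] at hq1
  have hx' : (0 : ℝ) < x := by exact_mod_cast hx
  have hq0 : (q : ℝ) ≠ 0 := by positivity
  obtain ⟨J, hJ⟩ : ∃ J, l = J + 1 := ⟨l - 1, by omega⟩
  have hmeas := measM_EE (J + 1) 1 (fun _ => m) (fun _ _ _ => Subsingleton.elim _ _) (fun _ => hm1) hq1
  obtain ⟨y, hy⟩ : ∃ y : Option (Fin (J + 1) × Fin 1) → ℝ, y = (fun o : Option (Fin (J + 1) × Fin 1) =>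
      o.elim (Real.exp (-1 / q)) (fun p => EE (p.1 + 1) ((m : ℝ) / q))) := ⟨_, rfl⟩
  rw [← hy] at hmeas
  obtain ⟨o, ho⟩ : ∃ o : Option (Fin (J + 1) × Fin 1), o = some (Fin.last J, 0) := ⟨_, rfl⟩
  have hone : none ≠ o := by rw [ho]; exact (Option.some_ne_none _).symm
  have hyo : y o = EE l x := by
    rw [hy, ho, ← hxe, hJ]
    simp [Fin.val_last]
  have hyn : y none = Real.exp (-1 / q) := by rw [hy]; rfl
  -- exponents
  obtain ⟨N, hN⟩ : ∃ N : ℕ, N = j.natAbs + k.natAbs + 1 := ⟨_, rfl⟩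
  obtain ⟨A, hA⟩ : ∃ A : ℕ, (A : ℤ) = N + j := ⟨(N + j).toNat, by omega⟩
  obtain ⟨B, hB⟩ : ∃ B : ℕ, (B : ℤ) = N + k + 1 := ⟨(N + k + 1).toNat, by omega⟩
  have hw : ∀ i : ℕ, Real.exp (-1 / q) ^ (m * i) = Real.exp (-(i * x)) := by
    intro i
    rw [← Real.exp_nat_mul, ← hxe]
    congr 1
    push_cast
    field_simp
  obtain ⟨w, hwd⟩ : ∃ w : ℝ, w = Real.exp (-1 / q) := ⟨_, rfl⟩
  rw [← hwd] at hyn hw
  refine jointR_lin y hmeas _ _
    (MvPolynomial.C (l.factorial : ℤ) * MvPolynomial.X none ^ (m * N) * MvPolynomial.X o)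
    (MvPolynomial.C ((-1) ^ l) * MvPolynomial.X none ^ (m * B))
    (MvPolynomial.X none ^ (m * A)) ?_ ?_ ?_
  · simp only [map_mul, map_pow, MvPolynomial.aeval_X, MvPolynomial.aeval_C, hyn, hyo, hw]
    have h1 := rel l hx'
    have e1 : Real.exp (-(A * x)) * Real.exp (j * x) = Real.exp (-(N * x)) := by
      rw [← Real.exp_add]
      congr 1
      have : (A : ℝ) = N + j := by exact_mod_cast hA
      rw [this]; ring
    have e2 : Real.exp (-(B * x)) * Real.exp (k * x) = Real.exp (-(N * x)) * Real.exp (-x) := by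
      rw [← Real.exp_add, ← Real.exp_add]
      congr 1
      have : (B : ℝ) = N + k + 1 := by exact_mod_cast hB
      rw [this]; ring
    simp only [fam, if_true, Bool.false_eq_true, if_false]
    have e3 : ((algebraMap ℤ ℝ) (l.factorial : ℤ)) = l.factorial := by simp
    have e4 : ((algebraMap ℤ ℝ) ((-1 : ℤ))) = -1 := by simp
    rw [e3, e4]
    calc Real.exp (-(A * x)) * (Real.exp (j * x) * mom l x)
        = (Real.exp (-(A * x)) * Real.exp (j * x)) * mom l x := by ring
      _ = Real.exp (-(N * x)) * (l.factorial * EE l x + (-1) ^ l * (Real.exp (-x) * gom l x)) := by rw [e1, h1]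
      _ = l.factorial * Real.exp (-(N * x)) * EE l x +
          (-1) ^ l * ((Real.exp (-(N * x)) * Real.exp (-x)) * gom l x) := by ring
      _ = _ := by rw [← e2]; ring
  · exact pow_ne_zero _ (MvPolynomial.X_ne_zero _)
  · intro α β _ _
    have hl0 : ((l.factorial : ℕ) : ℂ) ≠ 0 := by exact_mod_cast l.factorial_ne_zero
    refine ⟨fun o' => if o' = none then 1 else (α - (-1) ^ l * β + 1) / l.factorial, ?_⟩
    simp only [map_mul, map_pow, MvPolynomial.aeval_X, MvPolynomial.aeval_C, if_true, one_pow, mul_one,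
      if_neg (Ne.symm hone)]
    have e3 : ((algebraMap ℤ ℂ) (l.factorial : ℤ)) = l.factorial := by simp
    have e4 : ((algebraMap ℤ ℂ) ((-1 : ℤ))) = -1 := by simp
    rw [e3, e4, mul_div_cancel₀ _ hl0]
    have : α - (-1) ^ l * β + 1 + (-1) ^ l * β - 1 * α = 1 := by ring
    rw [this]
    exact one_ne_zero

/-- two numbers of the same kind -/
theorem joint_same (z : ℝ) (hz : z ≠ 0) (x : ℚ) (hx : 0 < x) (j k : ℤ) (hjk : j ≠ k) :
    JointR (Real.exp (j * x) * z) (Real.exp (k * x) * z) := by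
  have h1 : MeasT ((Real.exp x : ℝ) : ℂ) := by
    have h2 := measT_rpow (Real.exp 1) (Real.exp_pos 1) measT_e x hx.ne'
    rwa [← Real.exp_one_rpow]
  have h3 := Pool.Agent.R473.JC.joint_powers (Real.exp x) h1 z hz j k hjk
  have e : ∀ i : ℤ, z * Real.exp x ^ i = Real.exp (i * x) * z := by
    intro i
    rw [← Real.rpow_intCast, ← Real.exp_mul, mul_comm (x : ℝ) (i : ℝ), mul_comm]
  rwa [e, e] at h3

/-- all pairs -/
theorem joint_fam (l : ℕ) (hl : 1 ≤ l) (x : ℚ) (hx : 0 < x) {ι : Type} (b : ι → Bool × ℤ)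
    (hb : Function.Injective b)
    (h0 : mom l x ≠ 0 ∨ ∀ i i', (b i).1 = true → (b i').1 = true → i = i') (i j : ι) (hij : i ≠ j) :
    JointR (fam l x (b i)) (fam l x (b j)) := by
  have hx' : (0 : ℝ) < x := by exact_mod_cast hx
  obtain ⟨si, ki, hi⟩ : ∃ s k, b i = (s, k) := ⟨_, _, rfl⟩
  obtain ⟨sj, kj, hj⟩ : ∃ s k, b j = (s, k) := ⟨_, _, rfl⟩
  rw [hi, hj]
  cases si <;> cases sj
  · have hk : ki ≠ kj := by
      rintro rfl
      exact hij (hb (hi.trans hj.symm))
    exact joint_same (gom l x) (gom_pos l hx').ne' x hx ki kj hk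
  · exact (joint_cross l hl x hx kj ki).symm
  · exact joint_cross l hl x hx ki kj
  · have hk : ki ≠ kj := by
      rintro rfl
      exact hij (hb (hi.trans hj.symm))
    rcases h0 with h0 | h0
    · exact joint_same (mom l x) h0 x hx ki kj hk
    · exact absurd (h0 i j (by rw [hi]) (by rw [hj])) hij

end Pool.Agent.N743.SS
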