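import Pool.Agent.N743.SS.PiE

/-!
# The function `∑ 2 (2 x)^k / (2 k + 1)!!` and its square: a sharp measure
-/

set_option autoImplicit false

open PowerSeries

namespace Pool.Agent.N743.SS

open Pool.Agent.R352.T Pool.Agent.Y113
open Pool.Agent.R352.E (EF EF.common wS EF_wS mon mon_eq mon_add mon_single ESys TQ ev_wS Sg prT mT lt_w_iff
  deriv_wS ps_zero ps_mul ps_X TQ_eq cf)

/-- the exponential series `exp (X / q)` -/
noncomputable def wI (q : ℕ) : ℚ⟦X⟧ := PowerSeries.mk fun n => (1 / (q : ℚ)) ^ n / n.factorial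

lemma wS_wI (q : ℕ) : wS q * wI q = 1 := by
  have h := PowerSeries.exp_mul_exp_neg_eq_one (A := ℚ)
  have h2 := congrArg (PowerSeries.rescale (1 / (q : ℚ))) h
  rw [map_mul, map_one] at h2
  have e1 : PowerSeries.rescale (1 / (q : ℚ)) (PowerSeries.exp ℚ) = wI q := by
    ext n
    rw [PowerSeries.coeff_rescale, PowerSeries.coeff_exp, wI, coeff_mk]
    simp
    ring
  have e2 : PowerSeries.rescale (1 / (q : ℚ)) (PowerSeries.evalNegHom (PowerSeries.exp ℚ)) = wS q := by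
    ext n
    rw [PowerSeries.coeff_rescale, PowerSeries.evalNegHom, PowerSeries.coeff_rescale, PowerSeries.coeff_exp, wS, coeff_mk]
    have e3 : (-1 / (q : ℚ)) = (-1) * (1 / q) := by ring
    rw [e3, mul_pow]
    simp
    ring
  rw [e1, e2] at h2
  rw [mul_comm]
  exact h2

lemma EF_wI (q : ℕ) (hq : 1 ≤ q) : EF (wI q) := by
  have hq1 : (1 : ℝ) ≤ q := by exact_mod_cast hq
  have hq0 : (q : ℚ) ≠ 0 := by exact_mod_cast (by omega : q ≠ 0)
  have hcf : ∀ m, cf m (wI q) = (1 / (q : ℚ)) ^ m := by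
    intro m
    rw [cf, wI, coeff_mk]
    have : (m.factorial : ℚ) ≠ 0 := by exact_mod_cast m.factorial_ne_zero
    field_simp
  refine ⟨q, hq1, fun m => ?_, fun m => ⟨q ^ m, by positivity, ?_, fun j hj => ?_⟩⟩
  · rw [hcf]
    push_cast
    rw [abs_of_nonneg (by positivity), div_pow, one_pow]
    refine (div_le_one_of_le₀ (one_le_pow₀ hq1) (by positivity)).trans (one_le_pow₀ hq1)
  · push_cast
    exact pow_le_pow_right₀ hq1 (by omega)
  · refine ⟨q ^ (m - j), ?_⟩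
    rw [hcf]
    obtain ⟨d, rfl⟩ : ∃ d, m = j + d := ⟨m - j, by omega⟩
    rw [Nat.add_sub_cancel_left, pow_add]
    push_cast
    field_simp
    rw [one_div, inv_pow, mul_inv_cancel₀ (pow_ne_zero _ hq0)]

lemma deriv_wI {q : ℕ} (hq : 1 ≤ q) : (q : ℚ⟦X⟧) * d⁄dX ℚ (wI q) = wI q := by
  have hq0 : (q : ℚ) ≠ 0 := by exact_mod_cast (by omega : q ≠ 0)
  ext m
  have h2 : ((q : ℚ⟦X⟧)) = C (q : ℚ) := by simp
  rw [h2, coeff_C_mul, coeff_derivative, wI, coeff_mk, coeff_mk, Nat.factorial_succ, pow_succ]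
  have : (m.factorial : ℚ) ≠ 0 := by exact_mod_cast m.factorial_ne_zero
  push_cast
  have h3 : ((m : ℚ) + 1) ≠ 0 := by positivity
  field_simp

lemma ev_wI {q : ℕ} (hq : 1 ≤ q) : ev 1 (wI q) = Real.exp (1 / q) := by
  have h := congrArg (ev 1) (wS_wI q)
  rw [Cv.ev_mul one_pos (EF_wS q hq).cv (EF_wI q hq).cv, ev_one, ev_wS] at h
  have h2 : Real.exp (-1 / q) * Real.exp (1 / q) = 1 := by
    rw [← Real.exp_add, neg_div, neg_add_cancel, Real.exp_zero]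
  have h3 := Real.exp_pos (-1 / (q : ℝ))
  have h4 : Real.exp (-1 / q) * ev 1 (wI q) = Real.exp (-1 / q) * Real.exp (1 / q) := by rw [h, h2]
  exact mul_left_cancel₀ h3.ne' h4

/-- the series `G` -/
noncomputable def GS (c m q : ℕ) : ℚ⟦X⟧ := wI q ^ m * (2 - ESa ((c : ℚ) / q) 1 ((m : ℚ) / q))

lemma deriv_GS {c m q : ℕ} (hq : 1 ≤ q) (hc : q = 2 * c) :
    (TQ q : ℚ⟦X⟧) * d⁄dX ℚ (GS c m q) = (q : ℚ⟦X⟧) + ((m : ℚ⟦X⟧) * X - (c : ℚ⟦X⟧)) * GS c m q := by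
  have hq0 : (q : ℚ) ≠ 0 := by exact_mod_cast (by omega : q ≠ 0)
  obtain ⟨A, hA⟩ : ∃ A, A = ESa ((c : ℚ) / q) 1 ((m : ℚ) / q) := ⟨_, rfl⟩
  have h1 := deriv_ESa (a := (c : ℚ) / q) (by positivity) 0 ((m : ℚ) / q) q
  rw [ESa_zero, zero_add, ← hA] at h1
  have e4 : (C ((q : ℚ) * ((c : ℚ) / q)) : ℚ⟦X⟧) = (c : ℚ⟦X⟧) := by
    rw [mul_div_cancel₀ _ hq0]; simp
  rw [e4] at h1
  have h2 : (TQ q : ℚ⟦X⟧) * d⁄dX ℚ (wI q ^ m) = (m : ℚ⟦X⟧) * X * wI q ^ m := by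
    rw [TQ_eq, Derivation.leibniz_pow]
    rcases m with _ | m'
    · simp
    · have h3 := deriv_wI hq
      simp only [Nat.add_sub_cancel, smul_eq_mul, nsmul_eq_mul]
      calc (q : ℚ⟦X⟧) * X * (((m' + 1 : ℕ) : ℚ⟦X⟧) * (wI q ^ m' * d⁄dX ℚ (wI q)))
          = ((m' + 1 : ℕ) : ℚ⟦X⟧) * X * wI q ^ m' * ((q : ℚ⟦X⟧) * d⁄dX ℚ (wI q)) := by ring
        _ = _ := by rw [h3, pow_succ]; ring
  have h3 : wS q ^ m * wI q ^ m = 1 := by rw [← mul_pow, wS_wI, one_pow]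
  have h5 : (q : ℚ⟦X⟧) = 2 * (c : ℚ⟦X⟧) := by rw [hc]; push_cast; ring
  have h6 : d⁄dX ℚ (2 - A) = - d⁄dX ℚ A := by
    rw [map_sub]
    have : d⁄dX ℚ (2 : ℚ⟦X⟧) = 0 := by
      have h7 : (2 : ℚ⟦X⟧) = C (2 : ℚ) := (map_ofNat C 2).symm
      rw [h7, PowerSeries.derivative_C]
    rw [this, zero_sub]
  rw [GS, ← hA, Derivation.leibniz, h6, smul_eq_mul, smul_eq_mul]
  linear_combination (2 - A) * h2 - wI q ^ m * h1 + (q : ℚ⟦X⟧) * h3 - wI q ^ m * h5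

lemma EF_two_sub {c m q : ℕ} (hq : 1 ≤ q) : EF ((2 : ℚ⟦X⟧) - ESa ((c : ℚ) / q) 1 ((m : ℚ) / q)) := by
  obtain ⟨C, hC, h1, h2⟩ := EF_ESa c 1 m q hq
  have h3 : EF ((2 : ℚ⟦X⟧) - ESa ((c : ℚ) / q) 1 ((m : ℚ) / q)) := by
    refine ⟨C + 2, by linarith, fun n => ?_, fun n => ?_⟩
    · have e : cf n ((2 : ℚ⟦X⟧) - ESa ((c : ℚ) / q) 1 ((m : ℚ) / q)) =
          cf n (2 : ℚ⟦X⟧) - cf n (ESa ((c : ℚ) / q) 1 ((m : ℚ) / q)) := by
        rw [cf, cf, cf, map_sub, mul_sub]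
      have e2 : |((cf n (2 : ℚ⟦X⟧) : ℚ) : ℝ)| ≤ 2 := by
        have h7 : (2 : ℚ⟦X⟧) = PowerSeries.C (2 : ℚ) := (map_ofNat PowerSeries.C 2).symm
        rw [cf, h7, coeff_C]
        split_ifs with h
        · rw [h]; norm_num
        · norm_num
      rw [e]
      push_cast
      refine (abs_sub _ _).trans ?_
      have h3 := h1 n
      have h4 : C ^ (n + 1) + 2 ≤ (C + 2) ^ (n + 1) := by
        have h5 : C ^ n ≤ (C + 2) ^ n := pow_le_pow_left₀ (by linarith) (by linarith) _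
        have h6 : 1 ≤ C ^ n := one_le_pow₀ hC
        rw [pow_succ, pow_succ]
        nlinarith
      linarith
    · obtain ⟨d, hd, hdC, hdi⟩ := h2 n
      refine ⟨d, hd, hdC.trans (pow_le_pow_left₀ (by linarith) (by linarith) _), fun j hj => ?_⟩
      obtain ⟨a, ha⟩ := hdi j hj
      have e : cf j ((2 : ℚ⟦X⟧) - ESa ((c : ℚ) / q) 1 ((m : ℚ) / q)) =
          cf j (2 : ℚ⟦X⟧) - cf j (ESa ((c : ℚ) / q) 1 ((m : ℚ) / q)) := by
        rw [cf, cf, cf, map_sub, mul_sub]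
      have h7 : (2 : ℚ⟦X⟧) = PowerSeries.C (2 : ℚ) := (map_ofNat PowerSeries.C 2).symm
      rw [e, mul_sub, ha, cf, h7, coeff_C]
      split_ifs with h
      · refine ⟨d * 2 - a, ?_⟩
        rw [h]; push_cast; simp
      · refine ⟨- a, ?_⟩
        push_cast; ring
  exact h3

lemma EF_GS {c m q : ℕ} (hq : 1 ≤ q) : EF (GS c m q) := ((EF_wI q hq).pow m).mul (EF_two_sub hq)

/-- `1`, `G`, `G ^ 2` are linearly independent over the polynomials -/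
lemma LI_GS {c m q : ℕ} (hq : 1 ≤ q) (hc : q = 2 * c) (hm : 1 ≤ m) :
    LinearIndependent (Polynomial ℚ) (![1, GS c m q, GS c m q ^ 2] : Fin 3 → ℚ⟦X⟧) := by
  have R := real_tw 1 1 (fun _ => m) (fun _ => c) (fun _ _ _ _ => Subsingleton.elim _ _) (fun _ => hm) hq
    (fun _ => by omega)
  obtain ⟨t, ht⟩ : ∃ t, t = tw 1 1 (fun _ => m) (fun _ => c) (fun _ _ _ _ => Subsingleton.elim _ _) (fun _ => hm) :=
    ⟨_, rfl⟩
  obtain ⟨f, hf⟩ : ∃ f, f = fT 1 1 (fun _ => m) (fun _ => c) q := ⟨_, rfl⟩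
  obtain ⟨A, hA⟩ : ∃ A, A = ESa ((c : ℚ) / q) 1 ((m : ℚ) / q) := ⟨_, rfl⟩
  have hfw : f t.w = wS q := by rw [ht, hf]; rfl
  obtain ⟨v, hv⟩ : ∃ v : Sg 1 1, v = toLex (Sum.inl (toLex (0, 0))) := ⟨_, rfl⟩
  have hfv : f v = A := by rw [hf, hv, hA]; rfl
  have hvw : v ≠ t.w := by
    rw [hv, ht]
    intro h
    exact Sum.inl_ne_inr (toLex.injective h)
  have hvz : v ≠ t.z := by
    rw [hv, ht]
    intro h
    exact Sum.inl_ne_inr (toLex.injective h)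
  rw [← ht, ← hf] at R
  have hwz : t.w ≠ t.z := ne_of_lt t.hwz
  have hvlt : v < t.w := lt_of_le_of_ne (t.htop v hvz) hvw
  have hVsum : ∀ s : Sg 1 1 →₀ ℕ, ∑ v' ∈ t.V, s v' = s v := by
    intro s
    refine Finset.sum_eq_single_of_mem v (t.mem_V.2 hvlt) fun b hb hbv => ?_
    exfalso
    apply hbv
    have hb' := t.mem_V.1 hb
    rw [ht] at hb'
    obtain ⟨c', hc'⟩ := (lt_w_iff 1 1 b).1 hb'
    rw [hc', hv]
    congr 2
    exact ofLex.injective (Subsingleton.elim _ _)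
  haveI : Finite (Idx t m (2 * m)) := Idx_finite t hm
  letI : Fintype (Idx t m (2 * m)) := Fintype.ofFinite _
  have hid : ∀ i j : ℕ, i + m * j ≤ 2 * m →
      (Finsupp.single t.w i + Finsupp.single v j : Sg 1 1 →₀ ℕ) t.z = 0 ∧
      (Finsupp.single t.w i + Finsupp.single v j : Sg 1 1 →₀ ℕ) t.w + m * ∑ v' ∈ t.V,
        (Finsupp.single t.w i + Finsupp.single v j : Sg 1 1 →₀ ℕ) v' ≤ 2 * m := by
    intro i j hij
    rw [hVsum]
    simp only [Finsupp.add_apply]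
    rw [Finsupp.single_eq_same, Finsupp.single_eq_same, Finsupp.single_eq_of_ne hwz.symm,
      Finsupp.single_eq_of_ne hvz.symm, Finsupp.single_eq_of_ne hvw, Finsupp.single_eq_of_ne hvw.symm]
    refine ⟨by omega, ?_⟩
    rw [zero_add, add_zero]
    exact hij
  let g : Fin 6 → Idx t m (2 * m) := ![⟨_, hid 0 0 (by omega)⟩, ⟨_, hid 0 1 (by omega)⟩, ⟨_, hid 0 2 (by omega)⟩,
    ⟨_, hid m 0 (by omega)⟩, ⟨_, hid m 1 (by omega)⟩, ⟨_, hid (2 * m) 0 (by omega)⟩]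
  have hval : ∀ i j i' j' : ℕ, (Finsupp.single t.w i + Finsupp.single v j : Sg 1 1 →₀ ℕ) =
      Finsupp.single t.w i' + Finsupp.single v j' → i = i' ∧ j = j' := by
    intro i j i' j' h
    have h1 := DFunLike.congr_fun h t.w
    have h2 := DFunLike.congr_fun h v
    simp only [Finsupp.add_apply] at h1 h2
    rw [Finsupp.single_eq_same, Finsupp.single_eq_same, Finsupp.single_eq_of_ne hvw.symm,
      Finsupp.single_eq_of_ne hvw.symm] at h1
    rw [Finsupp.single_eq_same, Finsupp.single_eq_same, Finsupp.single_eq_of_ne hvw,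
      Finsupp.single_eq_of_ne hvw] at h2
    omega
  have hg : Function.Injective g := by
    intro a b hab
    have hab' := congrArg Subtype.val hab
    fin_cases a <;> fin_cases b <;> first | rfl | (have := hval _ _ _ _ hab'; omega)
  have hLI := (mon_LI R (M := m) (J₀ := 2 * m)).comp g hg
  have hmon : ∀ i j : ℕ, mon f (Finsupp.single t.w i + Finsupp.single v j) = wS q ^ i * A ^ j := by
    intro i j
    rw [mon_add, mon_single, mon_single, hfw, hfv]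
  obtain ⟨y, hy⟩ : ∃ y : Fin 6 → ℚ⟦X⟧, y = ![wS q ^ 0 * A ^ 0, wS q ^ 0 * A ^ 1, wS q ^ 0 * A ^ 2,
    wS q ^ m * A ^ 0, wS q ^ m * A ^ 1, wS q ^ (2 * m) * A ^ 0] := ⟨_, rfl⟩
  have hyg : ((fun s : Idx t m (2 * m) => mon f s.1) ∘ g) = y := by
    funext i
    rw [hy]
    fin_cases i <;> exact hmon _ _
  rw [hyg, Fintype.linearIndependent_iff] at hLI
  rw [Fintype.linearIndependent_iff]
  intro P hP
  rw [Fin.sum_univ_three] at hP
  simp only [Matrix.cons_val_zero, Matrix.cons_val_one, Matrix.cons_val, Algebra.smul_def] at hP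
  have hw : wS q ^ m * wI q ^ m = 1 := by rw [← mul_pow, wS_wI, one_pow]
  have h6 := hLI ![4 * P 2, -4 * P 2, P 2, 2 * P 1, - P 1, P 0] (by
    rw [Fin.sum_univ_six, hy]
    simp only [Matrix.cons_val_zero, Matrix.cons_val_one, Matrix.cons_val, Algebra.smul_def, map_mul, map_neg,
      map_ofNat]
    rw [GS, ← hA] at hP
    obtain ⟨p0, hp0⟩ : ∃ p0, p0 = algebraMap (Polynomial ℚ) ℚ⟦X⟧ (P 0) := ⟨_, rfl⟩
    obtain ⟨p1, hp1⟩ : ∃ p1, p1 = algebraMap (Polynomial ℚ) ℚ⟦X⟧ (P 1) := ⟨_, rfl⟩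
    obtain ⟨p2, hp2⟩ : ∃ p2, p2 = algebraMap (Polynomial ℚ) ℚ⟦X⟧ (P 2) := ⟨_, rfl⟩
    rw [← hp0, ← hp1, ← hp2] at hP ⊢
    obtain ⟨w, hw'⟩ : ∃ w, w = wS q ^ m := ⟨_, rfl⟩
    obtain ⟨u, hu⟩ : ∃ u, u = wI q ^ m := ⟨_, rfl⟩
    have hww : wS q ^ (2 * m) = w ^ 2 := by rw [hw', ← pow_mul, mul_comm]
    rw [← hw', ← hu] at hw
    rw [← hu] at hP
    rw [hww, ← hw']
    linear_combination w ^ 2 * hP - (p1 * w * (2 - A) + p2 * (2 - A) ^ 2 * (w * u + 1)) * hw)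
  intro i
  have f0 := h6 5
  have f1 := h6 4
  have f2 := h6 2
  simp only [Matrix.cons_val] at f0 f1 f2
  fin_cases i
  · exact f0
  · exact neg_eq_zero.1 f1
  · exact f2

/-- the number `G (x) = e^x (2 - E_{1/2} (x)) = ∑ 2 (2 x)^k / (2 k + 1)!!` -/
noncomputable def Gx (x : ℝ) : ℝ := Real.exp x * (2 - EA (1 / 2) 1 x)

lemma ev_GS {c m q : ℕ} (hq : 1 ≤ q) (hc : q = 2 * c) : ev 1 (GS c m q) = Gx ((m : ℝ) / q) := by
  have hE := (EF_ESa c 1 m q hq).cv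
  have hW := (EF_wI q hq)
  have hF := (EF_two_sub (c := c) (m := m) hq).cv
  have h3 : ev 1 (2 : ℚ⟦X⟧) = 2 := by
    have h7 : (2 : ℚ⟦X⟧) = PowerSeries.C (2 : ℚ) := (map_ofNat PowerSeries.C 2).symm
    rw [h7, ev_C]; norm_num
  have h4 := Cv.ev_add one_pos hF hE
  rw [sub_add_cancel, h3, ev_ESa c 1 m q hq] at h4
  have hcq : (c : ℝ) / q = 1 / 2 := by
    have hc0 : (c : ℝ) ≠ 0 := by
      have : c ≠ 0 := by omega
      exact_mod_cast this
    rw [hc]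
    push_cast
    field_simp
  rw [hcq] at h4
  rw [GS, Cv.ev_mul one_pos (hW.cv.pow one_pos m) hF, hW.cv.ev_pow one_pos, ev_wI hq, Gx, ← Real.exp_nat_mul]
  have h5 : (m : ℝ) * (1 / q) = m / q := by ring
  rw [h5, ← eq_sub_of_add_eq h4.symm]

lemma rat_eq2 (x : ℚ) (hx : 0 < x) : ∃ c m q : ℕ, 1 ≤ q ∧ q = 2 * c ∧ 1 ≤ m ∧ (m : ℝ) / q = x := by
  refine ⟨x.den, 2 * x.num.toNat, 2 * x.den, ?_, rfl, ?_, ?_⟩
  · have := x.den_pos; omega
  · have : 0 < x.num := Rat.num_pos.2 hx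
    omega
  · have h2 : ((x.num.toNat : ℕ) : ℝ) = (x.num : ℝ) := by
      have : ((x.num.toNat : ℕ) : ℤ) = x.num := Int.toNat_of_nonneg (Rat.num_pos.2 hx).le
      exact_mod_cast this
    have h3 : ((x : ℚ) : ℝ) = (x.num : ℝ) / (x.den : ℝ) := by exact_mod_cast (Rat.num_div_den x).symm
    push_cast
    rw [h2, h3, mul_div_mul_left _ _ (two_ne_zero)]

/-- the three functions -/
theorem measG2 (x : ℚ) (hx : 0 < x) (ε : ℝ) (hε : 0 < ε) : ∃ c : ℝ, 0 < c ∧ ∀ a : Fin 3 → ℤ, a ≠ 0 → ∀ A : ℝ,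
    (∀ i, |(a i : ℝ)| ≤ A) → c * A ^ (-(2 + ε)) ≤ |a 0 + a 1 * Gx x + a 2 * Gx x ^ 2| := by
  obtain ⟨c, m, q, hq, hc, hm, hxe⟩ := rat_eq2 x hx
  obtain ⟨y, hy⟩ : ∃ y : Fin 3 → ℚ⟦X⟧, y = ![1, GS c m q, GS c m q ^ 2] := ⟨_, rfl⟩
  have hEFy : ∀ i, EF (y i) := by
    intro i
    rw [hy]
    fin_cases i
    · exact EF.one
    · exact EF_GS hq
    · exact (EF_GS hq).pow 2
  obtain ⟨C, hC, h1, h2⟩ := EF.common (y := y) hEFy
  have hps : ∀ n : ℕ, ps (n : Polynomial ℤ) = (n : ℚ⟦X⟧) := fun n => by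
    rw [ps, Polynomial.map_natCast]
    exact map_natCast (Polynomial.coeToPowerSeries.ringHom (R := ℚ)) n
  have hpsub : ∀ P Q : Polynomial ℤ, ps (P - Q) = ps P - ps Q := fun P Q => by simp [ps]
  have hD := deriv_GS (m := m) hq hc
  have hSys : ESys q C y :=
    { one_le := hC
      hq := hq
      size := h1
      den := h2
      der := by
        refine ⟨fun i j => (![![0, 0, 0], ![(q : Polynomial ℤ), (m : Polynomial ℤ) * Polynomial.X - (c : Polynomial ℤ), 0],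
          ![0, ((2 * q : ℕ) : Polynomial ℤ), ((2 * m : ℕ) : Polynomial ℤ) * Polynomial.X - ((2 * c : ℕ) : Polynomial ℤ)]] :
            Fin 3 → Fin 3 → Polynomial ℤ) i j, fun i => ?_⟩
        rw [Fin.sum_univ_three, hy]
        fin_cases i
        · simp [ps_zero]
        · show (TQ q : ℚ⟦X⟧) * d⁄dX ℚ (GS c m q) = ps (q : Polynomial ℤ) * 1 +
            ps ((m : Polynomial ℤ) * Polynomial.X - (c : Polynomial ℤ)) * GS c m q + ps 0 * _
          rw [ps_zero, hpsub, ps_mul, hps, hps, hps, ps_X, hD]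
          ring
        · show (TQ q : ℚ⟦X⟧) * d⁄dX ℚ (GS c m q ^ 2) = ps 0 * 1 + ps ((2 * q : ℕ) : Polynomial ℤ) * GS c m q +
            ps (((2 * m : ℕ) : Polynomial ℤ) * Polynomial.X - ((2 * c : ℕ) : Polynomial ℤ)) * GS c m q ^ 2
          rw [ps_zero, hpsub, ps_mul, hps, hps, hps, ps_X, Derivation.leibniz_pow]
          simp only [smul_eq_mul, nsmul_eq_mul]
          push_cast
          linear_combination 2 * GS c m q * hD }
  obtain ⟨c', hc', h3⟩ := E_meas hSys 0 (by rw [hy]; rfl) (by rw [hy]; exact LI_GS hq hc hm) ε hε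
  refine ⟨c', hc', fun a ha A hA => ?_⟩
  have h4 := h3 a ha A hA
  have e1 : -(((3 : ℕ) : ℝ) - 1 + ε) = -(2 + ε) := by push_cast; ring
  rw [e1] at h4
  refine h4.trans (le_of_eq ?_)
  congr 1
  rw [Fin.sum_univ_three, hy]
  show (a 0 : ℝ) * ev 1 (1 : ℚ⟦X⟧) + a 1 * ev 1 (GS c m q) + a 2 * ev 1 (GS c m q ^ 2) = _
  rw [(EF_GS hq).cv.ev_pow one_pos, ev_GS hq hc, hxe, ev_one]
  ring

/-- the two functions -/
theorem measG1 (x : ℚ) (hx : 0 < x) (ε : ℝ) (hε : 0 < ε) : ∃ c : ℝ, 0 < c ∧ ∀ a : Fin 2 → ℤ, a ≠ 0 → ∀ A : ℝ,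
    (∀ i, |(a i : ℝ)| ≤ A) → c * A ^ (-(1 + ε)) ≤ |a 0 + a 1 * Gx x| := by
  obtain ⟨c, m, q, hq, hc, hm, hxe⟩ := rat_eq2 x hx
  obtain ⟨y, hy⟩ : ∃ y : Fin 2 → ℚ⟦X⟧, y = ![1, GS c m q] := ⟨_, rfl⟩
  have hEFy : ∀ i, EF (y i) := by
    intro i
    rw [hy]
    fin_cases i
    · exact EF.one
    · exact EF_GS hq
  obtain ⟨C, hC, h1, h2⟩ := EF.common (y := y) hEFy
  have hps : ∀ n : ℕ, ps (n : Polynomial ℤ) = (n : ℚ⟦X⟧) := fun n => by
    rw [ps, Polynomial.map_natCast]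
    exact map_natCast (Polynomial.coeToPowerSeries.ringHom (R := ℚ)) n
  have hpsub : ∀ P Q : Polynomial ℤ, ps (P - Q) = ps P - ps Q := fun P Q => by simp [ps]
  have hD := deriv_GS (m := m) hq hc
  have hSys : ESys q C y :=
    { one_le := hC
      hq := hq
      size := h1
      den := h2
      der := by
        refine ⟨fun i j => (![![0, 0], ![(q : Polynomial ℤ), (m : Polynomial ℤ) * Polynomial.X - (c : Polynomial ℤ)]] :
            Fin 2 → Fin 2 → Polynomial ℤ) i j, fun i => ?_⟩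
        rw [Fin.sum_univ_two, hy]
        fin_cases i
        · simp [ps_zero]
        · show (TQ q : ℚ⟦X⟧) * d⁄dX ℚ (GS c m q) = ps (q : Polynomial ℤ) * 1 +
            ps ((m : Polynomial ℤ) * Polynomial.X - (c : Polynomial ℤ)) * GS c m q
          rw [hpsub, ps_mul, hps, hps, hps, ps_X, hD]
          ring }
  have hLI : LinearIndependent (Polynomial ℚ) y := by
    have h5 := (LI_GS hq hc hm).comp ![0, 1] (by
      intro i j hij
      fin_cases i <;> fin_cases j <;> first | rfl | exact absurd hij (by decide))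
    convert h5 using 1
    funext i
    rw [hy]
    fin_cases i <;> rfl
  obtain ⟨c', hc', h3⟩ := E_meas hSys 0 (by rw [hy]; rfl) hLI ε hε
  refine ⟨c', hc', fun a ha A hA => ?_⟩
  have h4 := h3 a ha A hA
  have e1 : -(((2 : ℕ) : ℝ) - 1 + ε) = -(1 + ε) := by push_cast; ring
  rw [e1] at h4
  refine h4.trans (le_of_eq ?_)
  congr 1
  rw [Fin.sum_univ_two, hy]
  show (a 0 : ℝ) * ev 1 (1 : ℚ⟦X⟧) + a 1 * ev 1 (GS c m q) = _
  rw [ev_GS hq hc, hxe, ev_one]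
  ring

end Pool.Agent.N743.SS
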