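import Pool.Agent.N743.SS.Form

/-!
# The basic inequality for linear forms in values of E-functions
-/

set_option autoImplicit false

open PowerSeries Finset.HasAntidiagonal

namespace Pool.Agent.N743.SS

open Pool.Agent.Y113 Pool.Agent.R352.E

theorem key {N q : ℕ} {C : ℝ} {y : Fin N → ℚ⟦X⟧} (hE : ESys q C y) (i₀ : Fin N) (h1 : y i₀ = 1)
    (hLI : LinearIndependent (Polynomial ℚ) y) (hN : 2 ≤ N) (s : ℕ) (hs : 1 ≤ s) :
    ∃ (c₁ : ℕ) (c G : ℝ), 1 ≤ c ∧ 1 ≤ G ∧ ∀ a : Fin N → ℤ, a ≠ 0 → ∀ A : ℝ,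
      (∀ i, |(a i : ℝ)| ≤ A) → ∀ ν : ℕ, c₁ < ν →
      1 ≤ c * G ^ ν * (A / ((ν : ℝ) ^ ν) ^ s +
        ((ν : ℝ) ^ ν) ^ ((2 * N + s + 2) * (N - 1)) * |∑ i, (a i : ℝ) * ev 1 (y i)|) := by
  have hC := hE.one_le
  have hNpos : 0 < N := i₀.pos
  obtain ⟨B, hB⟩ := hE.der
  have hq1 : (1 : ℝ) ≤ q := by exact_mod_cast hE.hq
  obtain ⟨c₁, hc₁⟩ := rank_nab (T := TQ q) (B := fun i j => (B i j).map (Int.castRingHom ℚ)) hB hLI i₀ h1 1
    one_ne_zero (by
      simp only [TQ, Polynomial.eval_mul, Polynomial.eval_C, Polynomial.eval_X, mul_one]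
      exact_mod_cast (by have := hE.hq; omega : q ≠ 0))
  obtain ⟨b, hb, hBb⟩ : ∃ b : ℕ, 1 ≤ b ∧ ∀ i j, (B i j).natDegree ≤ b := by
    refine ⟨1 + ∑ i, ∑ j, (B i j).natDegree, by omega, fun i j => ?_⟩
    have h2 : (B i j).natDegree ≤ ∑ j, (B i j).natDegree :=
      Finset.single_le_sum (f := fun j => (B i j).natDegree) (fun _ _ => Nat.zero_le _) (Finset.mem_univ j)
    have h3 : ∑ j, (B i j).natDegree ≤ ∑ i, ∑ j, (B i j).natDegree :=
      Finset.single_le_sum (f := fun i => ∑ j, (B i j).natDegree) (fun _ _ => Nat.zero_le _) (Finset.mem_univ i)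
    omega
  obtain ⟨β, hβ0, hβ⟩ : ∃ β : ℝ, 0 ≤ β ∧ ∀ j, ∑ i, l1 (B i j) ≤ β := by
    refine ⟨∑ j, ∑ i, l1 (B i j), Finset.sum_nonneg fun _ _ => Finset.sum_nonneg fun _ _ => l1_nonneg _, fun j => ?_⟩
    exact Finset.single_le_sum (f := fun j => ∑ i, l1 (B i j))
      (fun _ _ => Finset.sum_nonneg fun _ _ => l1_nonneg _) (Finset.mem_univ j)
  -- parameters
  obtain ⟨L, hL⟩ : ∃ L : ℕ, L = 2 * N + s := ⟨_, rfl⟩
  have hNL : 2 ≤ N * L := by
    calc 2 ≤ N := hN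
      _ = N * 1 := (mul_one N).symm
      _ ≤ N * L := Nat.mul_le_mul_left _ (by omega)
  set g1 : ℝ := 2 * ((L + 2 * b + 1 : ℕ) : ℝ) with hg1
  set g2 : ℝ := q * ((L + 2 * b : ℕ) : ℝ) + β with hg2
  set g3 : ℝ := ((2 * (N * (L + 1) : ℕ)) * (2 * C) ^ (2 * (N * L))) ^ (N * L) with hg3
  set G1 : ℝ := g1 * (g2 ^ 2 * ((L : ℝ) ^ L * g3)) with hG1
  set G2 : ℝ := (L : ℝ) ^ L * g3 * (q : ℝ) ^ 2 * 4 * (2 * C * Real.exp 1) ^ (N * L - 1) with hG2
  set c2 : ℝ := N * C * Real.exp (2 * C * Real.exp 1) with hc2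
  have hG10 : 0 ≤ G1 := by positivity
  have hG20 : 0 ≤ G2 := by positivity
  have hc20 : 0 ≤ c2 := by positivity
  have hNf : (1 : ℝ) ≤ N.factorial := by exact_mod_cast N.factorial_pos
  refine ⟨c₁, max (N * N.factorial * c2) (N.factorial), max (max (G1 ^ (N - 2) * G2) (G1 ^ (N - 1))) 1,
    le_max_of_le_right hNf, le_max_right _ _, ?_⟩
  intro a hane A hAi ν hν
  have hA0 : 0 ≤ A := (abs_nonneg _).trans (hAi i₀)
  have hν1 : 1 ≤ ν := by omega
  have hν1' : (1 : ℝ) ≤ ν := by exact_mod_cast hν1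
  obtain ⟨n, hn⟩ : ∃ n, n = L * ν := ⟨_, rfl⟩
  obtain ⟨m₀, hm₀⟩ : ∃ m₀, m₀ = (N * L - 1) * ν := ⟨_, rfl⟩
  obtain ⟨K, hK⟩ : ∃ K, K = 2 * ν := ⟨_, rfl⟩
  have hm₀' : m₀ + ν = N * n := by
    have h2 : N * n = N * L * ν := by rw [hn]; ring
    rw [h2, hm₀, Nat.sub_mul, one_mul]
    have : ν ≤ N * L * ν := Nat.le_mul_of_pos_left ν (by omega)
    omega
  have h := core_form hE i₀ h1 hB hb hBb hβ hβ0 hc₁ a hane A hAi L ν n m₀ K (by omega) hν hn hm₀' hK _ rfl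
  set A₀ : ℝ := ((N * (n + 1) : ℕ) * (2 * C) ^ (2 * m₀ + 1)) ^ (N * L) with hA₀
  have hA₀0 : 0 ≤ A₀ := by positivity
  have hA₀g : A₀ ≤ g3 ^ ν := A0_le hC hNpos hν1 hn hm₀'
  obtain ⟨Λ, hΛ⟩ : ∃ Λ : ℝ, Λ = |∑ i, (a i : ℝ) * ev 1 (y i)| := ⟨_, rfl⟩
  rw [← hΛ] at h ⊢
  have hΛ0 : 0 ≤ Λ := by rw [hΛ]; positivity
  obtain ⟨u, hu⟩ : ∃ u : ℝ, u = (ν : ℝ) ^ ν := ⟨_, rfl⟩
  rw [← hu]
  have hu1 : 1 ≤ u := by rw [hu]; exact one_le_pow₀ hν1'
  have hu0 : 0 < u := by linarith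
  have hnf : (n.factorial : ℝ) ≤ ((L : ℝ) ^ L) ^ ν * u ^ L := by rw [hn, hu]; exact fac_le L ν
  -- X
  have hX : ((n + K * b : ℕ) + 1) * ((q * (n + K * b : ℕ) + β) ^ K * (n.factorial * A₀)) ≤ G1 ^ ν * u ^ (L + 2) := by
    have hnK : n + K * b = (L + 2 * b) * ν := by rw [hn, hK]; ring
    have h2 : (((n + K * b : ℕ) : ℝ) + 1) ≤ g1 ^ ν := by
      have h3 : (1 : ℝ) ≤ ((L + 2 * b + 1 : ℕ) : ℝ) := by exact_mod_cast (show 1 ≤ L + 2 * b + 1 by omega)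
      refine le_trans ?_ (lin_le_pow h3 hν1)
      rw [hnK]
      push_cast
      nlinarith
    have h4 : (q * ((n + K * b : ℕ) : ℝ) + β) ^ K ≤ (g2 ^ 2) ^ ν * u ^ 2 := by
      have h5 : q * ((n + K * b : ℕ) : ℝ) + β ≤ g2 * ν := by
        rw [hnK, hg2]
        push_cast
        nlinarith
      calc (q * ((n + K * b : ℕ) : ℝ) + β) ^ K ≤ (g2 * ν) ^ K := pow_le_pow_left₀ (by positivity) h5 K
        _ = (g2 ^ 2) ^ ν * u ^ 2 := by
          rw [hK, hu, mul_pow, ← pow_mul, ← pow_mul, mul_comm ν 2]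
    calc ((n + K * b : ℕ) + 1) * ((q * (n + K * b : ℕ) + β) ^ K * (n.factorial * A₀))
        ≤ g1 ^ ν * (((g2 ^ 2) ^ ν * u ^ 2) * ((((L : ℝ) ^ L) ^ ν * u ^ L) * g3 ^ ν)) := by
          refine mul_le_mul h2 ?_ (by positivity) (by positivity)
          refine mul_le_mul h4 ?_ (by positivity) (by positivity)
          exact mul_le_mul hnf hA₀g hA₀0 (by positivity)
      _ = G1 ^ ν * u ^ (L + 2) := by
          rw [hG1, mul_pow g1, mul_pow (g2 ^ 2), mul_pow ((L : ℝ) ^ L), pow_add u]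
          generalize g1 ^ ν = x1
          generalize (g2 ^ 2) ^ ν = x2
          generalize ((L : ℝ) ^ L) ^ ν = x3
          generalize g3 ^ ν = x4
          ring
  have hLL : n.factorial * (N * A₀ * C) * (q : ℝ) ^ K * K.factorial *
      ((2 * C * Real.exp 1) ^ m₀ / m₀.factorial * Real.exp (2 * C * Real.exp 1)) ≤
      c2 * G2 ^ ν * (u ^ (L + 2) / u ^ (N * L - 2)) := by
    have h2 : (K.factorial : ℝ) ≤ (4 : ℝ) ^ ν * u ^ 2 := by
      rw [hK]
      refine (fac_le 2 ν).trans (le_of_eq ?_)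
      rw [hu]
      norm_num
    have h3 : (q : ℝ) ^ K = ((q : ℝ) ^ 2) ^ ν := by rw [hK, pow_mul]
    have h4 : (2 * C * Real.exp 1) ^ m₀ = ((2 * C * Real.exp 1) ^ (N * L - 1)) ^ ν := by rw [hm₀, pow_mul]
    have h5 : u ^ (N * L - 2) ≤ (m₀.factorial : ℝ) := by
      have := fac_ge (R := N * L - 1) (ν := ν) (by omega)
      rw [hm₀, hu, show N * L - 2 = N * L - 1 - 1 by omega]
      exact this
    have h6 : ((2 * C * Real.exp 1) ^ m₀ / m₀.factorial) ≤ ((2 * C * Real.exp 1) ^ (N * L - 1)) ^ ν / u ^ (N * L - 2) := by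
      rw [h4]
      exact div_le_div_of_nonneg_left (by positivity) (by positivity) h5
    calc n.factorial * (N * A₀ * C) * (q : ℝ) ^ K * K.factorial *
          ((2 * C * Real.exp 1) ^ m₀ / m₀.factorial * Real.exp (2 * C * Real.exp 1))
        ≤ (((L : ℝ) ^ L) ^ ν * u ^ L) * (N * g3 ^ ν * C) * ((q : ℝ) ^ 2) ^ ν * ((4 : ℝ) ^ ν * u ^ 2) *
          (((2 * C * Real.exp 1) ^ (N * L - 1)) ^ ν / u ^ (N * L - 2) * Real.exp (2 * C * Real.exp 1)) := by
          rw [← h3]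
          refine mul_le_mul ?_ ?_ (by positivity) (by positivity)
          · refine mul_le_mul ?_ h2 (by positivity) (by positivity)
            refine mul_le_mul_of_nonneg_right ?_ (by positivity)
            refine mul_le_mul hnf ?_ (by positivity) (by positivity)
            refine mul_le_mul_of_nonneg_right ?_ (by positivity)
            exact mul_le_mul_of_nonneg_left hA₀g (by positivity)
          · exact mul_le_mul_of_nonneg_right h6 (by positivity)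
      _ = c2 * G2 ^ ν * (u ^ (L + 2) / u ^ (N * L - 2)) := by
          rw [hG2, hc2, mul_pow, mul_pow, mul_pow, mul_pow, pow_add]; ring
  have hcomb : (1 : ℝ) ≤ N * (N.factorial * (A * (G1 ^ ν * u ^ (L + 2)) ^ (N - 2)) *
      (c2 * G2 ^ ν * (u ^ (L + 2) / u ^ (N * L - 2)))) +
      N.factorial * (G1 ^ ν * u ^ (L + 2)) ^ (N - 1) * Λ := by
    refine h.trans (add_le_add ?_ ?_)
    · refine mul_le_mul_of_nonneg_left ?_ (by positivity)
      refine mul_le_mul ?_ hLL (by positivity) (by positivity)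
      refine mul_le_mul_of_nonneg_left ?_ (by positivity)
      refine mul_le_mul_of_nonneg_left ?_ hA0
      exact pow_le_pow_left₀ (by positivity) hX _
    · refine mul_le_mul_of_nonneg_right ?_ hΛ0
      refine mul_le_mul_of_nonneg_left ?_ (by positivity)
      exact pow_le_pow_left₀ (by positivity) hX _
  have hexp : u ^ (N * L - 2) = (u ^ (L + 2)) ^ (N - 2) * u ^ (L + 2) * u ^ s := by
    rw [← pow_mul, ← pow_add, ← pow_add]
    congr 1
    obtain ⟨M, rfl⟩ : ∃ M, N = M + 2 := ⟨N - 2, by omega⟩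
    simp only [Nat.add_sub_cancel]
    have e1 : (M + 2) * L = (L + 2) * M + (L + 2) + s + 2 := by
      rw [hL]; ring
    omega
  have h7 : N * (N.factorial * (A * (G1 ^ ν * u ^ (L + 2)) ^ (N - 2)) *
      (c2 * G2 ^ ν * (u ^ (L + 2) / u ^ (N * L - 2)))) =
      (N * N.factorial * c2) * (G1 ^ (N - 2) * G2) ^ ν * (A / u ^ s) := by
    rw [hexp, mul_pow (G1 ^ ν), mul_pow (G1 ^ (N - 2)), ← pow_mul G1, ← pow_mul G1, mul_comm ν (N - 2)]
    field_simp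
  have h8 : N.factorial * (G1 ^ ν * u ^ (L + 2)) ^ (N - 1) * Λ =
      N.factorial * (G1 ^ (N - 1)) ^ ν * (u ^ ((2 * N + s + 2) * (N - 1)) * Λ) := by
    rw [mul_pow (G1 ^ ν), ← pow_mul G1, ← pow_mul G1, ← pow_mul u, mul_comm ν (N - 1), hL]
    ring
  rw [h7, h8] at hcomb
  refine hcomb.trans ?_
  rw [mul_add]
  have hG1' : (G1 ^ (N - 2) * G2) ^ ν ≤ (max (max (G1 ^ (N - 2) * G2) (G1 ^ (N - 1))) 1) ^ ν :=
    pow_le_pow_left₀ (by positivity) ((le_max_left _ _).trans (le_max_left _ _)) _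
  have hG2' : (G1 ^ (N - 1)) ^ ν ≤ (max (max (G1 ^ (N - 2) * G2) (G1 ^ (N - 1))) 1) ^ ν :=
    pow_le_pow_left₀ (by positivity) ((le_max_right _ _).trans (le_max_left _ _)) _
  have hcm0 : (0 : ℝ) ≤ max (N * N.factorial * c2) (N.factorial) := le_max_of_le_right (by positivity)
  refine add_le_add ?_ ?_
  · refine mul_le_mul_of_nonneg_right ?_ (by positivity)
    exact mul_le_mul (le_max_left _ _) hG1' (by positivity) hcm0
  · refine mul_le_mul_of_nonneg_right ?_ (by positivity)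
    exact mul_le_mul (le_max_right _ _) hG2' (by positivity) hcm0

end Pool.Agent.N743.SS
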