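import Pool.Agent.R356.Len
import Pool.Agent.R356.Elim

/-!
# Lengths of polynomials in several variables and of substitutions
-/

set_option autoImplicit false

namespace Pool.Agent.N743.SS

open Finset Pool.Agent.R356

section Int

variable {R : Type*} [CommRing R] {f : R → ℝ}

lemma isLen_nat (h : IsLen f) (n : ℕ) : f (n : R) ≤ n := by
  induction n with
  | zero => simp [h.zero]
  | succ n ih =>
    push_cast
    exact (h.add _ _).trans (add_le_add ih h.one)

lemma isLen_intCast (h : IsLen f) (z : ℤ) : f (z : R) ≤ |(z : ℝ)| := by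
  obtain ⟨n, hn | hn⟩ := z.eq_nat_or_neg
  · rw [hn]
    simpa using isLen_nat h n
  · rw [hn]
    have := isLen_nat h n
    simpa [h.neg] using this

lemma isLen_pow (h : IsLen f) (a : R) (n : ℕ) : f (a ^ n) ≤ f a ^ n := by
  have h1 := h.prod (range n) (fun _ => a)
  simpa using h1

/-- substitution into an integer polynomial -/
lemma isLen_aeval (h : IsLen f) (a : R) (P : Polynomial ℤ) (n : ℕ) (hn : P.natDegree ≤ n) (H : ℝ)
    (hH : ∀ k, |((P.coeff k : ℤ) : ℝ)| ≤ H) :
    f (Polynomial.aeval a P) ≤ H * ((n + 1) * max 1 (f a) ^ n) := by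
  have hH0 : 0 ≤ H := (abs_nonneg _).trans (hH 0)
  rw [Polynomial.aeval_eq_sum_range' (show P.natDegree < n + 1 by omega)]
  refine (h.sum _ _).trans ?_
  have h1 : ∀ i ∈ range (n + 1), f (P.coeff i • a ^ i) ≤ H * max 1 (f a) ^ n := by
    intro i hi
    rw [zsmul_eq_mul]
    refine (h.mul _ _).trans (mul_le_mul ((isLen_intCast h _).trans (hH i)) ?_ (h.nonneg _) hH0)
    refine (isLen_pow h a i).trans ?_
    calc f a ^ i ≤ max 1 (f a) ^ i := pow_le_pow_left₀ (h.nonneg _) (le_max_right _ _) i
      _ ≤ max 1 (f a) ^ n := pow_le_pow_right₀ (le_max_left _ _) (by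
        rw [mem_range] at hi; omega)
  refine (sum_le_sum h1).trans (le_of_eq ?_)
  rw [sum_const, card_range, nsmul_eq_mul]
  push_cast
  ring

end Int

lemma isLen_norm : IsLen (fun z : ℂ => ‖z‖) where
  nonneg _ := norm_nonneg _
  zero := norm_zero
  one := by simp
  neg a := norm_neg a
  add a b := norm_add_le a b
  mul a b := norm_mul_le a b

/-- the length of a polynomial in several variables -/
noncomputable def lenM {ι : Type} (P : MvPolynomial ι ℤ) : ℝ := ∑ s ∈ P.support, |((P.coeff s : ℤ) : ℝ)|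

variable {ι : Type}

lemma lenM_eq (P : MvPolynomial ι ℤ) (S : Finset (ι →₀ ℕ)) (hS : P.support ⊆ S) :
    lenM P = ∑ s ∈ S, |((P.coeff s : ℤ) : ℝ)| := by
  unfold lenM
  refine sum_subset hS fun s _ hs => ?_
  rw [MvPolynomial.notMem_support_iff.1 hs, Int.cast_zero, abs_zero]

lemma lenM_nonneg (P : MvPolynomial ι ℤ) : 0 ≤ lenM P := sum_nonneg fun _ _ => abs_nonneg _

lemma le_lenM (P : MvPolynomial ι ℤ) (s : ι →₀ ℕ) : |((P.coeff s : ℤ) : ℝ)| ≤ lenM P := by
  by_cases hs : s ∈ P.support
  · exact single_le_sum (f := fun s => |((P.coeff s : ℤ) : ℝ)|) (fun _ _ => abs_nonneg _) hs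
  · rw [MvPolynomial.notMem_support_iff.1 hs, Int.cast_zero, abs_zero]
    exact lenM_nonneg P

lemma lenM_add (P Q : MvPolynomial ι ℤ) : lenM (P + Q) ≤ lenM P + lenM Q := by
  classical
  rw [lenM_eq (P + Q) (P.support ∪ Q.support) MvPolynomial.support_add,
    lenM_eq P (P.support ∪ Q.support) subset_union_left,
    lenM_eq Q (P.support ∪ Q.support) subset_union_right, ← sum_add_distrib]
  refine sum_le_sum fun s _ => ?_
  rw [MvPolynomial.coeff_add]
  push_cast
  exact abs_add_le _ _

lemma lenM_sum {κ : Type*} (S : Finset κ) (P : κ → MvPolynomial ι ℤ) :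
    lenM (∑ k ∈ S, P k) ≤ ∑ k ∈ S, lenM (P k) := by
  classical
  induction S using Finset.induction_on with
  | empty => simp [lenM]
  | insert k S hk ih =>
    rw [sum_insert hk, sum_insert hk]
    exact (lenM_add _ _).trans (by linarith)

lemma lenM_monomial_mul (s : ι →₀ ℕ) (c : ℤ) (Q : MvPolynomial ι ℤ) :
    lenM (MvPolynomial.monomial s c * Q) ≤ |(c : ℝ)| * lenM Q := by
  classical
  have hsub : (MvPolynomial.monomial s c * Q).support ⊆ Q.support.map (addLeftEmbedding s) := by
    intro m hm
    rw [MvPolynomial.mem_support_iff, MvPolynomial.coeff_monomial_mul'] at hm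
    rw [mem_map]
    split_ifs at hm with hle
    · refine ⟨m - s, MvPolynomial.mem_support_iff.2 fun h => hm (by rw [h, mul_zero]), ?_⟩
      show s + (m - s) = m
      exact add_tsub_cancel_of_le hle
    · exact absurd rfl hm
  rw [lenM_eq _ _ hsub, sum_map, lenM, mul_sum]
  refine sum_le_sum fun m _ => ?_
  show |(((MvPolynomial.monomial s c * Q).coeff (s + m) : ℤ) : ℝ)| ≤ _
  rw [MvPolynomial.coeff_monomial_mul]
  push_cast
  rw [abs_mul]

lemma isLenM : IsLen (lenM (ι := ι)) where
  nonneg := lenM_nonneg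
  zero := by simp [lenM]
  one := by
    classical
    rw [lenM_eq (1 : MvPolynomial ι ℤ) {0} (by
      intro s hs
      rw [MvPolynomial.mem_support_iff, MvPolynomial.coeff_one] at hs
      rw [mem_singleton]
      by_contra h
      exact hs (if_neg (Ne.symm h))), sum_singleton, MvPolynomial.coeff_one, if_pos rfl]
    simp
  neg P := by
    unfold lenM
    rw [MvPolynomial.support_neg]
    refine sum_congr rfl fun s _ => ?_
    rw [MvPolynomial.coeff_neg]
    push_cast
    rw [abs_neg]
  add := lenM_add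
  mul P Q := by
    conv_lhs => rw [MvPolynomial.as_sum P, sum_mul]
    refine (lenM_sum _ _).trans ?_
    rw [lenM, sum_mul]
    exact sum_le_sum fun s _ => lenM_monomial_mul _ _ _

/-- polynomials of bounded total degree -/
def degM (n : ℕ) : AddSubgroup (MvPolynomial ι ℤ) where
  carrier := {P | P.totalDegree ≤ n}
  add_mem' {a b} ha hb := (MvPolynomial.totalDegree_add a b).trans (max_le ha hb)
  zero_mem' := by simp
  neg_mem' {a} ha := by
    show (-a).totalDegree ≤ n
    rw [MvPolynomial.totalDegree_neg]; exact ha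

lemma totalDegree_det_le (N D : ℕ) (M : Matrix (Fin N) (Fin N) (MvPolynomial ι ℤ))
    (h : ∀ i j, (M i j).totalDegree ≤ D) : M.det.totalDegree ≤ N * D :=
  det_filt degM (by show (1 : MvPolynomial ι ℤ).totalDegree ≤ 0; simp)
    (fun m n a b ha hb => (MvPolynomial.totalDegree_mul a b).trans (Nat.add_le_add ha hb)) N D M h

end Pool.Agent.N743.SS
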