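import Pool.Agent.N743.SS.Key

/-!
# A measure of linear independence for values of E-functions
-/

set_option autoImplicit false

open PowerSeries Finset.HasAntidiagonal

namespace Pool.Agent.N743.SS

open Pool.Agent.Y113 Pool.Agent.R352.E

lemma pow_le_u {g η : ℝ} (hg : 0 ≤ g) {ν : ℕ} (h : g ≤ (ν : ℝ) ^ η) : g ^ ν ≤ ((ν : ℝ) ^ ν) ^ η := by
  have h1 : ((ν : ℝ) ^ ν) ^ η = ((ν : ℝ) ^ η) ^ ν := by
    rw [← Real.rpow_natCast, ← Real.rpow_natCast, ← Real.rpow_mul (by positivity), ← Real.rpow_mul (by positivity),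
      mul_comm]
  rw [h1]
  exact pow_le_pow_left₀ hg h ν

/-- the choice of the parameter -/
lemma choose_nu (c₁ : ℕ) (c G : ℝ) (hc : 1 ≤ c) (hG : 1 ≤ G) (s E : ℕ) (hs : 1 ≤ s) (η w : ℝ) (hη : 0 < η)
    (hη1 : η ≤ 1 / 2) (hw : 0 < w) (hexp : ((E : ℝ) + η) * (1 + η) ≤ w * (s - η)) :
    ∃ c' : ℝ, 0 < c' ∧ ∀ A Λ : ℝ, 1 ≤ A → 0 ≤ Λ →
      (∀ ν : ℕ, c₁ < ν → 1 ≤ c * G ^ ν * (A / ((ν : ℝ) ^ ν) ^ s + ((ν : ℝ) ^ ν) ^ E * Λ)) →
      c' * A ^ (-w) ≤ Λ := by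
  obtain ⟨g, hg⟩ : ∃ g : ℝ, g = max 4 (2 * c * G) := ⟨_, rfl⟩
  have hg4 : 4 ≤ g := by rw [hg]; exact le_max_left _ _
  have hgc : 2 * c * G ≤ g := by rw [hg]; exact le_max_right _ _
  have hs1 : (1 : ℝ) ≤ s := by exact_mod_cast hs
  have hsη : 1 / 2 ≤ (s : ℝ) - η := by linarith
  -- large parameters
  obtain ⟨ν₀, hν₀c, hν₀2, hν₀g⟩ : ∃ ν₀ : ℕ, c₁ < ν₀ ∧ 2 ≤ ν₀ ∧ ∀ ν ≥ ν₀, g ≤ (ν : ℝ) ^ η := by
    have h1 := (tendsto_rpow_atTop hη).comp (tendsto_natCast_atTop_atTop (R := ℝ))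
    obtain ⟨m, hm⟩ := Filter.eventually_atTop.1 (h1.eventually_ge_atTop g)
    exact ⟨max (max (c₁ + 1) 2) m, by omega, by omega, fun ν hν => hm ν (by omega)⟩
  have hu : ∀ ν : ℕ, ν₀ ≤ ν → (1 : ℝ) ≤ (ν : ℝ) ^ ν ∧ (ν : ℝ) ≤ (ν : ℝ) ^ ν := by
    intro ν hν
    have h1 : (1 : ℝ) ≤ ν := by exact_mod_cast (by omega : 1 ≤ ν)
    exact ⟨one_le_pow₀ h1, le_self_pow₀ h1 (by omega)⟩
  have hi : ∀ ν : ℕ, ν₀ ≤ ν → 2 * (c * G ^ ν) ≤ ((ν : ℝ) ^ ν) ^ η := by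
    intro ν hν
    refine le_trans ?_ (pow_le_u (by linarith) (hν₀g ν hν))
    calc 2 * (c * G ^ ν) = (2 * c) * G ^ ν := by ring
      _ ≤ (2 * c) ^ ν * G ^ ν := by
        refine mul_le_mul_of_nonneg_right ?_ (by positivity)
        exact le_self_pow₀ (by linarith) (by omega)
      _ = (2 * c * G) ^ ν := (mul_pow _ _ _).symm
      _ ≤ g ^ ν := pow_le_pow_left₀ (by positivity) hgc ν
  have hii : ∀ ν : ℕ, ν₀ ≤ ν → (((ν + 1 : ℕ) : ℝ)) ^ (ν + 1) ≤ ((ν : ℝ) ^ ν) ^ (1 + η) := by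
    intro ν hν
    have hν1 : (1 : ℝ) ≤ ν := by exact_mod_cast (by omega : 1 ≤ ν)
    obtain ⟨hu1, hu2⟩ := hu ν hν
    rw [Real.rpow_add (by linarith), Real.rpow_one]
    have h2 : (((ν + 1 : ℕ) : ℝ)) ≤ 2 ^ ν := by exact_mod_cast (Nat.lt_two_pow_self (n := ν))
    have h3 : (((ν + 1 : ℕ) : ℝ)) ^ ν ≤ 2 ^ ν * (ν : ℝ) ^ ν := by
      rw [← mul_pow]
      refine pow_le_pow_left₀ (by positivity) ?_ ν
      push_cast
      linarith
    calc (((ν + 1 : ℕ) : ℝ)) ^ (ν + 1) = (((ν + 1 : ℕ) : ℝ)) ^ ν * ((ν + 1 : ℕ) : ℝ) := pow_succ _ _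
      _ ≤ (2 ^ ν * (ν : ℝ) ^ ν) * 2 ^ ν := mul_le_mul h3 h2 (by positivity) (by positivity)
      _ = (ν : ℝ) ^ ν * 4 ^ ν := by
        rw [show (4 : ℝ) = 2 * 2 by norm_num, mul_pow]; ring
      _ ≤ (ν : ℝ) ^ ν * ((ν : ℝ) ^ ν) ^ η := by
        refine mul_le_mul_of_nonneg_left ?_ (by positivity)
        exact (pow_le_pow_left₀ (by norm_num) hg4 ν).trans (pow_le_u (by linarith) (hν₀g ν hν))
  refine ⟨((((ν₀ : ℕ) : ℝ)) ^ ν₀) ^ (-((E : ℝ) + η)) / 2, by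
    have := (hu ν₀ le_rfl).1
    positivity, ?_⟩
  intro A Λ hA hΛ hmain
  -- the minimal parameter
  have hex : ∃ ν : ℕ, ν₀ ≤ ν ∧ A ≤ ((ν : ℝ) ^ ν) ^ ((s : ℝ) - η) := by
    obtain ⟨m, hm⟩ := exists_nat_ge (A ^ 2)
    refine ⟨max ν₀ m, le_max_left _ _, ?_⟩
    obtain ⟨hu1, hu2⟩ := hu (max ν₀ m) (le_max_left _ _)
    have h1 : A ^ 2 ≤ (((max ν₀ m : ℕ) : ℝ)) ^ (max ν₀ m) := by
      refine (hm.trans ?_).trans hu2
      exact_mod_cast le_max_right ν₀ m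
    calc A = (A ^ 2) ^ ((1 : ℝ) / 2) := by
          rw [← Real.sqrt_eq_rpow, Real.sqrt_sq (by linarith)]
      _ ≤ ((((max ν₀ m : ℕ) : ℝ)) ^ (max ν₀ m)) ^ ((1 : ℝ) / 2) :=
          Real.rpow_le_rpow (by positivity) h1 (by norm_num)
      _ ≤ _ := Real.rpow_le_rpow_of_exponent_le hu1 hsη
  classical
  obtain ⟨hν1, hν2⟩ := Nat.find_spec hex
  have hνmin : ∀ m < Nat.find hex, ¬ (ν₀ ≤ m ∧ A ≤ ((m : ℝ) ^ m) ^ ((s : ℝ) - η)) := fun m hm => Nat.find_min hex hm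
  obtain ⟨ν, hν⟩ : ∃ ν, ν = Nat.find hex := ⟨_, rfl⟩
  rw [← hν] at hν1 hν2 hνmin
  obtain ⟨hu1, hu2⟩ := hu ν hν1
  obtain ⟨u, hud⟩ : ∃ u : ℝ, u = (ν : ℝ) ^ ν := ⟨_, rfl⟩
  have h1 := hmain ν (by omega)
  have h2 := hi ν hν1
  rw [← hud] at h1 h2 hu1 hν2
  have hu0 : 0 < u := by linarith
  have h3 : A / u ^ s ≤ u ^ (-η) := by
    rw [div_le_iff₀ (by positivity), ← Real.rpow_natCast u s, ← Real.rpow_add hu0]
    refine hν2.trans (le_of_eq ?_)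
    congr 1; ring
  have hcG : 0 ≤ c * G ^ ν := by positivity
  have h4 : c * G ^ ν * (A / u ^ s) ≤ 1 / 2 := by
    calc c * G ^ ν * (A / u ^ s) ≤ (u ^ η / 2) * u ^ (-η) := by
          refine mul_le_mul (by linarith) h3 (by positivity) (by positivity)
      _ = 1 / 2 := by
          rw [Real.rpow_neg hu0.le]
          have : u ^ η ≠ 0 := by positivity
          field_simp
  have h5 : 1 / 2 ≤ c * G ^ ν * (u ^ E * Λ) := by
    rw [mul_add] at h1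
    linarith
  have h6 : 1 / 2 ≤ (u ^ η / 2) * (u ^ E * Λ) := by
    refine h5.trans ?_
    exact mul_le_mul_of_nonneg_right (by linarith) (by positivity)
  have h7 : u ^ (-((E : ℝ) + η)) ≤ Λ := by
    have e1 : (u ^ η / 2) * (u ^ E * Λ) = u ^ ((E : ℝ) + η) * Λ / 2 := by
      rw [Real.rpow_add hu0, Real.rpow_natCast]; ring
    rw [e1] at h6
    rw [Real.rpow_neg hu0.le, inv_le_iff_one_le_mul₀ (by positivity), mul_comm]
    linarith
  have hAw : A ^ (-w) ≤ 1 := Real.rpow_le_one_of_one_le_of_nonpos hA (by linarith)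
  have hAw0 : 0 ≤ A ^ (-w) := by positivity
  have hu00 : (1 : ℝ) ≤ (((ν₀ : ℕ) : ℝ)) ^ ν₀ := (hu ν₀ le_rfl).1
  have hK0 : 0 ≤ ((((ν₀ : ℕ) : ℝ)) ^ ν₀) ^ (-((E : ℝ) + η)) := by positivity
  have hK1 : ((((ν₀ : ℕ) : ℝ)) ^ ν₀) ^ (-((E : ℝ) + η)) ≤ 1 :=
    Real.rpow_le_one_of_one_le_of_nonpos hu00 (by
      have : (0 : ℝ) ≤ E := Nat.cast_nonneg E
      linarith)
  rcases hν1.eq_or_lt with h8 | h8
  · -- the smallest parameter
    rw [hud, ← h8] at h7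
    nlinarith
  · -- larger parameters
    obtain ⟨μ, hμ⟩ : ∃ μ, ν = μ + 1 := ⟨ν - 1, by omega⟩
    have h9 : ((μ : ℝ) ^ μ) ^ ((s : ℝ) - η) < A := by
      have := hνmin μ (by omega)
      push Not at this
      exact this (by omega)
    have h10 := hii μ (by omega)
    obtain ⟨hv1, hv2⟩ := hu μ (by omega)
    obtain ⟨v, hvd⟩ : ∃ v : ℝ, v = (μ : ℝ) ^ μ := ⟨_, rfl⟩
    have hu' : u ≤ v ^ (1 + η) := by
      rw [hud, hμ, hvd]; exact h10
    rw [← hvd] at h9 hv1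
    have hv0 : 0 < v := by linarith
    have h11 : v ≤ A ^ (1 / ((s : ℝ) - η)) := by
      have h12 : (v ^ ((s : ℝ) - η)) ^ (1 / ((s : ℝ) - η)) ≤ A ^ (1 / ((s : ℝ) - η)) :=
        Real.rpow_le_rpow (by positivity) h9.le (by
          have : 0 < (s : ℝ) - η := by linarith
          positivity)
      rwa [← Real.rpow_mul hv0.le, mul_one_div_cancel (by linarith), Real.rpow_one] at h12
    have hA0 : 0 < A := by linarith
    have h13 : u ≤ A ^ ((1 + η) / ((s : ℝ) - η)) := by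
      refine hu'.trans ((Real.rpow_le_rpow hv0.le h11 (by linarith)).trans (le_of_eq ?_))
      rw [← Real.rpow_mul hA0.le]
      congr 1
      ring
    have h14 : A ^ (-w) ≤ u ^ (-((E : ℝ) + η)) := by
      rw [Real.rpow_neg hu0.le, Real.rpow_neg hA0.le]
      refine inv_anti₀ (by positivity) ?_
      have hE0 : (0 : ℝ) ≤ (E : ℝ) + η := by positivity
      refine (Real.rpow_le_rpow hu0.le h13 hE0).trans ?_
      rw [← Real.rpow_mul hA0.le]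
      refine Real.rpow_le_rpow_of_exponent_le hA ?_
      rw [div_mul_eq_mul_div, div_le_iff₀ (by linarith)]
      linarith
    nlinarith

/-- **Measure of linear independence** for the values at `1` of a system of E-functions over `ℚ` -/
theorem E_meas {N q : ℕ} {C : ℝ} {y : Fin N → ℚ⟦X⟧} (hE : ESys q C y) (i₀ : Fin N) (h1 : y i₀ = 1)
    (hLI : LinearIndependent (Polynomial ℚ) y) (ε : ℝ) (hε : 0 < ε) :
    ∃ c : ℝ, 0 < c ∧ ∀ a : Fin N → ℤ, a ≠ 0 → ∀ A : ℝ, (∀ i, |(a i : ℝ)| ≤ A) →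
      c * A ^ (-((N : ℝ) - 1 + ε)) ≤ |∑ i, (a i : ℝ) * ev 1 (y i)| := by
  have hNpos : 0 < N := i₀.pos
  have hA1 : ∀ (a : Fin N → ℤ), a ≠ 0 → ∀ A : ℝ, (∀ i, |(a i : ℝ)| ≤ A) → 1 ≤ A := by
    intro a ha A hA
    obtain ⟨i, hi⟩ : ∃ i, a i ≠ 0 := by
      by_contra hcon
      push Not at hcon
      exact ha (funext hcon)
    refine le_trans ?_ (hA i)
    exact_mod_cast Int.one_le_abs hi
  rcases Nat.lt_or_ge N 2 with hN | hN
  · have hN1 : N = 1 := by omega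
    subst hN1
    refine ⟨1, one_pos, fun a ha A hA => ?_⟩
    have hi : ∀ j : Fin 1, j = i₀ := fun j => Subsingleton.elim _ _
    have h2 : ∑ i, (a i : ℝ) * ev 1 (y i) = (a i₀ : ℝ) := by
      rw [Fin.sum_univ_one]
      rw [hi 0, h1, ev_one, mul_one]
    rw [h2, one_mul]
    have h3 : a i₀ ≠ 0 := by
      intro h
      apply ha
      funext i
      rw [hi i, h]; rfl
    have h4 : (1 : ℝ) ≤ |(a i₀ : ℝ)| := by exact_mod_cast Int.one_le_abs h3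
    refine le_trans ?_ h4
    refine Real.rpow_le_one_of_one_le_of_nonpos (hA1 a ha A hA) ?_
    push_cast
    linarith
  · obtain ⟨M, hM⟩ : ∃ M : ℝ, M = (N : ℝ) - 1 := ⟨_, rfl⟩
    have hM1 : 1 ≤ M := by
      have : (2 : ℝ) ≤ N := by exact_mod_cast hN
      linarith
    obtain ⟨η, hη⟩ : ∃ η : ℝ, η = min (1 / 2) (ε / (2 * M)) := ⟨_, rfl⟩
    have hη0 : 0 < η := by rw [hη]; positivity
    have hη1 : η ≤ 1 / 2 := by rw [hη]; exact min_le_left _ _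
    have hη2 : M * η ≤ ε / 2 := by
      have : η ≤ ε / (2 * M) := by rw [hη]; exact min_le_right _ _
      calc M * η ≤ M * (ε / (2 * M)) := mul_le_mul_of_nonneg_left this (by linarith)
        _ = ε / 2 := by field_simp
    obtain ⟨s, hs⟩ := exists_nat_ge (2 / ε * (((2 * (N : ℝ) + 2) * M + 1) * 2 + (M + ε)) + 1)
    have hs0 : 0 ≤ 2 / ε * (((2 * (N : ℝ) + 2) * M + 1) * 2 + (M + ε)) := by positivity
    have hs1 : 1 ≤ s := by
      have : (1 : ℝ) ≤ s := by linarith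
      exact_mod_cast this
    have hs2 : ((2 * (N : ℝ) + 2) * M + 1) * 2 + (M + ε) ≤ s * (ε / 2) := by
      have h3 : 2 / ε * (((2 * (N : ℝ) + 2) * M + 1) * 2 + (M + ε)) ≤ s := by linarith
      calc ((2 * (N : ℝ) + 2) * M + 1) * 2 + (M + ε)
          = (2 / ε * (((2 * (N : ℝ) + 2) * M + 1) * 2 + (M + ε))) * (ε / 2) := by field_simp
        _ ≤ s * (ε / 2) := mul_le_mul_of_nonneg_right h3 (by positivity)
    obtain ⟨c₁, c, G, hc, hG, hmain⟩ := key hE i₀ h1 hLI hN s hs1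
    have hEcast : (((2 * N + s + 2) * (N - 1) : ℕ) : ℝ) = (2 * N + s + 2) * M := by
      rw [hM]
      push_cast [Nat.cast_sub (by omega : 1 ≤ N)]
      ring
    obtain ⟨c', hc', hfin⟩ := choose_nu c₁ c G hc hG s ((2 * N + s + 2) * (N - 1)) hs1 η (M + ε) hη0 hη1
      (by linarith) (by
        rw [hEcast]
        have e1 : ((2 * (N : ℝ) + s + 2) * M + η) * (1 + η) =
          s * M + s * (M * η) + ((2 * N + 2) * M + η) * (1 + η) := by ring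
        have e2 : ((2 * (N : ℝ) + 2) * M + η) * (1 + η) ≤ ((2 * N + 2) * M + 1) * 2 := by
          refine mul_le_mul (by linarith) (by linarith) (by linarith) (by positivity)
        have e3 : s * (M * η) ≤ s * (ε / 2) := mul_le_mul_of_nonneg_left hη2 (by positivity)
        have e4 : (M + ε) * η ≤ M + ε := by nlinarith
        rw [e1]
        nlinarith)
    refine ⟨c', hc', fun a ha A hA => ?_⟩
    rw [← hM]
    exact hfin A _ (hA1 a ha A hA) (abs_nonneg _) fun ν hν => hmain a ha A hA ν hν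

end Pool.Agent.N743.SS
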