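import Pool.Agent.N743.SS.Multi
import Pool.Agent.R352.T.Fam

/-!
# A measure of algebraic independence for the values of the twisted exponential integrals
-/

set_option autoImplicit false
set_option linter.unusedSectionVars false
set_option linter.unusedSimpArgs false

open PowerSeries Finset.HasAntidiagonal

namespace Pool.Agent.N743.SS

open Pool.Agent.Y113
open Pool.Agent.R352.T
open Pool.Agent.R352.E (EF EF.common wS EF_wS mon mon_eq mon_add mon_single ESys TQ ev_wS Sg prT mT lt_w_iff)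

section

variable {σ : Type} [Fintype σ] [LinearOrder σ] {t : Tv σ} {q : ℕ} {f : σ → ℚ⟦X⟧}

/-- measure of linear independence for the monomials -/
theorem meas_towerT (R : Real' t q f) {M J₀ : ℕ} (hM : ∀ v, v < t.w → t.m v ≤ M) (hM1 : 1 ≤ M)
    [Fintype (Idx t M J₀)] (ε : ℝ) (hε : 0 < ε) :
    ∃ c : ℝ, 0 < c ∧ ∀ a : Idx t M J₀ → ℤ, a ≠ 0 → ∀ A : ℝ, (∀ i, |(a i : ℝ)| ≤ A) →
      c * A ^ (-((Fintype.card (Idx t M J₀) : ℝ) - 1 + ε)) ≤ |∑ s, (a s : ℝ) * ev 1 (mon f s.1)| := by
  classical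
  set N := Fintype.card (Idx t M J₀) with hN
  let e : Fin N ≃ Idx t M J₀ := (Fintype.equivFin _).symm
  set y : Fin N → ℚ⟦X⟧ := fun i => mon f (e i).1 with hy
  obtain ⟨C, hC, h1, h2⟩ := EF.common (y := y) (fun i => EF_mon R (e i).2.1)
  have hSys : ESys q C y :=
    { one_le := hC
      hq := R.hq
      size := h1
      den := h2
      der := by
        have h3 := fun i => deriv_Sp R hM hM1 (e i)
        choose B hB using h3
        refine ⟨fun i j => B i (e j), fun i => ?_⟩
        rw [hy, hB i, ← Equiv.sum_comp e] }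
  have h0 : e (e.symm ⟨0, by simp⟩) = (⟨0, by simp⟩ : Idx t M J₀) := e.apply_symm_apply _
  obtain ⟨c, hc, h3⟩ := E_meas hSys (e.symm ⟨0, by simp⟩) (by
    rw [hy]
    simp only [h0]
    rw [mon_eq]; simp) ((mon_LI R).comp e e.injective) ε hε
  refine ⟨c, hc, fun a ha A hA => ?_⟩
  have h4 := h3 (fun i => a (e i)) (fun h => ha (funext fun s => by
    have := congrFun h (e.symm s)
    simpa using this)) A (fun i => hA _)
  rw [← Equiv.sum_comp e]
  exact h4

/-- **Measure of algebraic independence** for the values at `1` of the functions of a tower -/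
theorem measM_towerT (R : Real' t q f) : MeasM (fun i : {i : σ // i ≠ t.z} => ev 1 (f i.1)) := by
  classical
  obtain ⟨M, hM1, hM⟩ : ∃ M : ℕ, 1 ≤ M ∧ ∀ v, v < t.w → t.m v ≤ M := by
    refine ⟨1 + ∑ v, t.m v, by omega, fun v _ => ?_⟩
    have := Finset.single_le_sum (f := fun v => t.m v) (fun _ _ => Nat.zero_le _) (Finset.mem_univ v)
    omega
  intro D
  set J₀ : ℕ := D + M * D with hJ₀
  haveI : Finite (Idx t M J₀) := Idx_finite t hM1
  letI : Fintype (Idx t M J₀) := Fintype.ofFinite _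
  obtain ⟨c, hc, hmeas⟩ := meas_towerT R hM hM1 (J₀ := J₀) 1 one_pos
  have hcard : 1 ≤ Fintype.card (Idx t M J₀) := Fintype.card_pos_iff.2 ⟨⟨0, by simp⟩⟩
  have hcard' : (1 : ℝ) ≤ (Fintype.card (Idx t M J₀) : ℝ) := by exact_mod_cast hcard
  refine ⟨(Fintype.card (Idx t M J₀) : ℝ) - 1 + 1, c, by linarith, hc, ?_⟩
  intro p hp hD H hH
  set p' : MvPolynomial σ ℤ := MvPolynomial.rename Subtype.val p with hp'
  have hinj : Function.Injective (MvPolynomial.rename (R := ℤ) (Subtype.val : {i : σ // i ≠ t.z} → σ)) :=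
    MvPolynomial.rename_injective _ Subtype.val_injective
  have hp0 : p' ≠ 0 := fun h => hp (hinj (h.trans (map_zero _).symm))
  have hval : MvPolynomial.aeval (fun i : σ => ev 1 (f i)) p' =
      MvPolynomial.aeval (fun i : {i : σ // i ≠ t.z} => ev 1 (f i.1)) p := by
    rw [hp', MvPolynomial.aeval_rename]
    rfl
  have hD' : p'.totalDegree ≤ D := (MvPolynomial.totalDegree_rename_le _ p).trans hD
  have hz : ∀ s ∈ p'.support, s t.z = 0 := by
    intro s hs
    have h1 := MvPolynomial.coeff_rename_ne_zero _ _ _ (MvPolynomial.mem_support_iff.1 hs)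
    obtain ⟨u, hu, _⟩ := h1
    rw [← hu]
    apply Finsupp.mapDomain_of_notMem_range
    rintro ⟨i, hi⟩
    exact i.2 hi
  have hH' : ∀ s, |((p'.coeff s : ℤ) : ℝ)| ≤ H := by
    intro s
    by_cases hs : p'.coeff s = 0
    · rw [hs]
      have := one_le_of_mcoeff hp hH
      simp only [Int.cast_zero, abs_zero]
      linarith
    · obtain ⟨u, hu, -⟩ := MvPolynomial.coeff_rename_ne_zero _ _ _ hs
      rw [← hu, hp', MvPolynomial.coeff_rename_mapDomain _ Subtype.val_injective]
      exact hH u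
  have hmem : ∀ s ∈ p'.support, s t.z = 0 ∧ s t.w + M * ∑ v ∈ t.V, s v ≤ J₀ := by
    intro s hs
    refine ⟨hz s hs, ?_⟩
    have h1 : ∑ i, s i ≤ D := by
      have h2 := MvPolynomial.le_totalDegree hs
      rw [Finsupp.sum_fintype _ _ (fun _ => rfl)] at h2
      exact h2.trans hD'
    have h3 : s t.w ≤ ∑ i, s i := Finset.single_le_sum (f := fun i => s i) (fun _ _ => Nat.zero_le _) (Finset.mem_univ _)
    have h4 : ∑ v ∈ t.V, s v ≤ ∑ i, s i :=
      Finset.sum_le_sum_of_subset (Finset.subset_univ _)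
    have h5 : M * ∑ v ∈ t.V, s v ≤ M * D := Nat.mul_le_mul_left _ (h4.trans h1)
    rw [hJ₀]
    omega
  have hne : (fun s : Idx t M J₀ => p'.coeff s.1) ≠ 0 := by
    obtain ⟨s, hs⟩ := MvPolynomial.ne_zero_iff.1 hp0
    intro h
    exact hs (congrFun h ⟨s, hmem s (MvPolynomial.mem_support_iff.2 hs)⟩)
  have hfin := hmeas (fun s => p'.coeff s.1) hne H (fun s => hH' s.1)
  have hsum : ∑ s : Idx t M J₀, ((p'.coeff s.1 : ℤ) : ℝ) * ev 1 (mon f s.1) =
      MvPolynomial.aeval (fun i : σ => ev 1 (f i)) p' := by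
    have h1 : ∑ s : Idx t M J₀, ((p'.coeff s.1 : ℤ) : ℝ) * ev 1 (mon f s.1) =
        ∑ s ∈ (Finset.univ : Finset (Idx t M J₀)).map ⟨Subtype.val, Subtype.val_injective⟩,
          ((p'.coeff s : ℤ) : ℝ) * ev 1 (mon f s) := by
      rw [Finset.sum_map]; rfl
    rw [h1]
    have h2 : p'.support ⊆ (Finset.univ : Finset (Idx t M J₀)).map ⟨Subtype.val, Subtype.val_injective⟩ := by
      intro s hs
      rw [Finset.mem_map]
      exact ⟨⟨s, hmem s hs⟩, Finset.mem_univ _, rfl⟩
    rw [← Finset.sum_subset h2 (fun s _ hs => by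
      rw [MvPolynomial.notMem_support_iff.1 hs, Int.cast_zero, zero_mul])]
    conv_rhs => rw [MvPolynomial.as_sum p', map_sum]
    refine Finset.sum_congr rfl fun s _ => ?_
    rw [MvPolynomial.aeval_monomial, ev_mon R, Finsupp.prod_fintype _ _ (fun i => pow_zero _)]
    simp
  rw [← hval, ← hsum]
  exact hfin

end

/-- `exp (-1/q)` and the numbers `E_{a_i,l} (m_i / q)`, `1 ≤ l ≤ J`, have a measure of algebraic independence -/
theorem measM_EA (J k : ℕ) (mm cc : Fin k → ℕ) (hinj : ∀ i i', mm i = mm i' → cc i = cc i' → i = i')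
    (hpos : ∀ i, 1 ≤ mm i) {q : ℕ} (hq : 1 ≤ q) (hcq : ∀ i, cc i < q) :
    MeasM (fun o : Option (Fin J × Fin k) =>
      o.elim (Real.exp (-1 / q)) (fun p => EA ((cc p.2 : ℝ) / q) (p.1 + 1) ((mm p.2 : ℝ) / q))) := by
  have h1 := measM_towerT (real_tw J k mm cc hinj hpos hq hcq)
  let g : Option (Fin J × Fin k) → {i : Sg J k // i ≠ (tw J k mm cc hinj hpos).z} := fun o =>
    match o with
    | none => ⟨toLex (Sum.inr 0), fun h => by
        have := Sum.inr_injective (toLex.injective h)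
        exact absurd this (by decide)⟩
    | some p => ⟨toLex (Sum.inl (toLex (Fin.rev p.1, p.2))), fun h => Sum.inl_ne_inr (toLex.injective h)⟩
  have hg : Function.Injective g := by
    intro o o' h
    rcases o with _ | p <;> rcases o' with _ | p'
    · rfl
    · exact absurd (toLex.injective (congrArg Subtype.val h)) Sum.inr_ne_inl
    · exact absurd (toLex.injective (congrArg Subtype.val h)) Sum.inl_ne_inr
    · have h2 := toLex.injective (Sum.inl_injective (toLex.injective (congrArg Subtype.val h)))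
      have h3 := congrArg Prod.fst h2
      have h4 := congrArg Prod.snd h2
      simp only at h3 h4
      have h5 := Fin.rev_injective h3
      rw [Prod.ext h5 h4]
  have h2 := h1.comp g hg
  convert h2 using 1
  funext o
  rcases o with _ | p
  · show Real.exp (-1 / q) = ev 1 (wS q)
    rw [ev_wS]
  · show EA ((cc p.2 : ℝ) / q) (p.1 + 1) ((mm p.2 : ℝ) / q) =
      ev 1 (ESa ((cc p.2 : ℚ) / q) (J - (Fin.rev p.1 : Fin J)) ((mm p.2 : ℚ) / q))
    rw [ev_ESa _ _ _ _ hq]
    congr 1
    rw [Fin.val_rev]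
    have := p.1.2
    omega

end Pool.Agent.N743.SS
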