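import Pool.Agent.N743.SS.LenM
import Pool.Agent.N743.SS.Multi
import Pool.Agent.R356.Aff

/-!
# Two numbers which satisfy a linear relation over a ring with a measure of algebraic independence
-/

set_option autoImplicit false

namespace Pool.Agent.N743.SS

open Polynomial Finset Pool.Agent.R356
open Pool.Agent.TH647.NR (norm_resultant_le)

lemma map_aeval_int {S T : Type*} [CommRing S] [CommRing T] (ρ : S →+* T) (a : S) (P : ℤ[X]) :
    ρ (aeval a P) = aeval (ρ a) P := by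
  rw [aeval_def, aeval_def, hom_eval₂]
  congr 1
  exact RingHom.ext_int _ _

variable {ι : Type}

/-- coefficients of bounded total degree -/
def cdeg (n : ℕ) (F : (MvPolynomial ι ℤ)[X]) : Prop := ∀ i, (F.coeff i).totalDegree ≤ n

lemma cdeg_mul {m n : ℕ} {F G : (MvPolynomial ι ℤ)[X]} (hF : cdeg m F) (hG : cdeg n G) :
    cdeg (m + n) (F * G) := by
  intro i
  rw [coeff_mul]
  refine (MvPolynomial.totalDegree_finsetSum_le fun p _ => ?_)
  exact (MvPolynomial.totalDegree_mul _ _).trans (Nat.add_le_add (hF _) (hG _))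

lemma cdeg_pow {m : ℕ} {F : (MvPolynomial ι ℤ)[X]} (hF : cdeg m F) (k : ℕ) : cdeg (m * k) (F ^ k) := by
  induction k with
  | zero =>
    intro i
    rw [pow_zero, coeff_one]
    split_ifs <;> simp
  | succ k ih =>
    rw [pow_succ, Nat.mul_succ]
    exact cdeg_mul ih hF

/-- the homogenization of `P` at `L`, `c` -/
noncomputable def homP {S : Type*} [CommRing S] (P : ℤ[X]) (L c : S) (n : ℕ) : S :=
  ∑ k ∈ range (n + 1), (P.coeff k : S) * (L ^ k * c ^ (n - k))

lemma map_homP {S T : Type*} [CommRing S] [CommRing T] (ρ : S →+* T) (P : ℤ[X]) (L c : S) (n : ℕ) :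
    ρ (homP P L c n) = homP P (ρ L) (ρ c) n := by
  unfold homP
  rw [map_sum]
  refine sum_congr rfl fun k _ => ?_
  rw [map_mul, map_mul, map_pow, map_pow, map_intCast]

/-- the value of the homogenization -/
lemma homP_mul {S : Type*} [CommRing S] (P : ℤ[X]) (u c : S) (n : ℕ) (hn : P.natDegree ≤ n) :
    homP P (c * u) c n = c ^ n * aeval u P := by
  unfold homP
  rw [aeval_eq_sum_range' (show P.natDegree < n + 1 by omega), mul_sum]
  refine sum_congr rfl fun k hk => ?_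
  rw [mem_range] at hk
  rw [zsmul_eq_mul, mul_pow]
  have : c ^ n = c ^ k * c ^ (n - k) := by rw [← pow_add]; congr 1; omega
  rw [this]
  ring

lemma isLen_homP {R : Type*} [CommRing R] {f : R → ℝ} (h : IsLen f) (L c : R) (P : ℤ[X]) (n D : ℕ) (hn : n ≤ D)
    (H : ℝ) (hH : ∀ k, |((P.coeff k : ℤ) : ℝ)| ≤ H) :
    f (homP P L c n) ≤ H * ((D + 1) * (max 1 (f L) ^ D * max 1 (f c) ^ D)) := by
  have hH0 : 0 ≤ H := (abs_nonneg _).trans (hH 0)
  have hn' : (n : ℝ) ≤ D := by exact_mod_cast hn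
  unfold homP
  refine (h.sum _ _).trans ?_
  have h1 : ∀ i ∈ range (n + 1), f ((P.coeff i : R) * (L ^ i * c ^ (n - i))) ≤
      H * (max 1 (f L) ^ D * max 1 (f c) ^ D) := by
    intro i hi
    rw [mem_range] at hi
    refine (h.mul _ _).trans (mul_le_mul ((isLen_intCast h _).trans (hH i)) ?_ (h.nonneg _) hH0)
    refine (h.mul _ _).trans (mul_le_mul ?_ ?_ (h.nonneg _) (by positivity))
    · refine (isLen_pow h L i).trans ?_
      calc f L ^ i ≤ max 1 (f L) ^ i := pow_le_pow_left₀ (h.nonneg _) (le_max_right _ _) i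
        _ ≤ max 1 (f L) ^ D := pow_le_pow_right₀ (le_max_left _ _) (by omega)
    · refine (isLen_pow h c (n - i)).trans ?_
      calc f c ^ (n - i) ≤ max 1 (f c) ^ (n - i) := pow_le_pow_left₀ (h.nonneg _) (le_max_right _ _) _
        _ ≤ max 1 (f c) ^ D := pow_le_pow_right₀ (le_max_left _ _) (by omega)
  refine (sum_le_sum h1).trans ?_
  rw [sum_const, card_range, nsmul_eq_mul]
  push_cast
  have h2 : 0 ≤ H * (max 1 (f L) ^ D * max 1 (f c) ^ D) := by positivity
  calc ((n : ℝ) + 1) * (H * (max 1 (f L) ^ D * max 1 (f c) ^ D))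
      ≤ (D + 1) * (H * (max 1 (f L) ^ D * max 1 (f c) ^ D)) := by gcongr
    _ = _ := by ring

lemma cdeg_homP {m D n : ℕ} {F : (MvPolynomial ι ℤ)[X]} (hF : cdeg m F) (c : MvPolynomial ι ℤ)
    (hc : c.totalDegree ≤ m) (P : ℤ[X]) (hn : n ≤ D) : cdeg (m * D) (homP P F (C c) n) := by
  intro i
  unfold homP
  rw [finset_sum_coeff]
  refine MvPolynomial.totalDegree_finsetSum_le fun k hk => ?_
  rw [mem_range] at hk
  have hC : cdeg m (C c : (MvPolynomial ι ℤ)[X]) := by
    intro i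
    rw [coeff_C]
    split_ifs
    · exact hc
    · simp
  have hI : cdeg 0 ((P.coeff k : (MvPolynomial ι ℤ)[X])) := by
    intro i
    have h1 : ((P.coeff k : ℤ) : (MvPolynomial ι ℤ)[X]) = C (MvPolynomial.C (P.coeff k)) := by simp
    rw [h1, coeff_C]
    split_ifs
    · rw [MvPolynomial.totalDegree_C]
    · simp
  refine (cdeg_mul hI (cdeg_mul (cdeg_pow hF k) (cdeg_pow hC (n - k))) i).trans ?_
  rw [zero_add, ← Nat.mul_add]
  exact Nat.mul_le_mul_left _ (by omega)

lemma natDegree_homP (a b c : MvPolynomial ι ℤ) (P : ℤ[X]) (n : ℕ) :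
    (homP P (C a + C b * X : (MvPolynomial ι ℤ)[X]) (C c) n).natDegree ≤ n := by
  unfold homP
  refine natDegree_sum_le_of_forall_le _ _ fun k hk => ?_
  rw [mem_range] at hk
  have h1 : (C a + C b * X : (MvPolynomial ι ℤ)[X]).natDegree ≤ 1 := by
    refine natDegree_add_le_of_degree_le (by simp) ?_
    refine (natDegree_C_mul_le _ _).trans natDegree_X_le
  have h2 : ((P.coeff k : ℤ) : (MvPolynomial ι ℤ)[X]).natDegree ≤ 0 := by
    rw [natDegree_intCast]
  have h3 : ((C c : (MvPolynomial ι ℤ)[X]) ^ (n - k)).natDegree ≤ 0 := by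
    rw [← C_pow, natDegree_C]
  have h4 : ((C a + C b * X : (MvPolynomial ι ℤ)[X]) ^ k).natDegree ≤ k := by
    refine (natDegree_pow_le).trans ?_
    calc k * (C a + C b * X : (MvPolynomial ι ℤ)[X]).natDegree ≤ k * 1 := Nat.mul_le_mul_left _ h1
      _ = k := mul_one k
  calc _ ≤ 0 + (k + 0) := natDegree_mul_le.trans (Nat.add_le_add h2 (natDegree_mul_le.trans (Nat.add_le_add h4 h3)))
    _ ≤ n := by omega

/-- a point which is not on finitely many hypersurfaces -/
lemma exists_point (S : Finset (MvPolynomial ι ℂ)) (hS : ∀ F ∈ S, F ≠ 0) :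
    ∃ ψ : ι → ℂ, ∀ F ∈ S, MvPolynomial.eval ψ F ≠ 0 := by
  have h1 : ∏ F ∈ S, F ≠ 0 := prod_ne_zero_iff.2 hS
  obtain ⟨ψ, hψ⟩ : ∃ ψ : ι → ℂ, MvPolynomial.eval ψ (∏ F ∈ S, F) ≠ 0 := by
    by_contra hcon
    push Not at hcon
    exact h1 (MvPolynomial.funext fun ψ => by rw [hcon ψ, map_zero])
  refine ⟨ψ, fun F hF h0 => hψ ?_⟩
  rw [map_prod]
  exact prod_eq_zero hF h0

/-- **The pair lemma**: if `c (x) u = a (x) + b (x) v` for a family `x` with a measure of algebraic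
independence and the polynomials `a`, `b`, `c` are linearly independent in a weak sense, then `u`, `v` have a
joint measure. -/
theorem jointR_lin (x : ι → ℝ) (hx : MeasM x) (u v : ℝ) (a b c : MvPolynomial ι ℤ)
    (hrel : MvPolynomial.aeval x c * u = MvPolynomial.aeval x a + MvPolynomial.aeval x b * v) (hc0 : c ≠ 0)
    (hspec : ∀ α β : ℂ, IsAlgebraic ℤ α → IsAlgebraic ℤ β → ∃ ψ : ι → ℂ,
      MvPolynomial.aeval ψ a + MvPolynomial.aeval ψ b * β - MvPolynomial.aeval ψ c * α ≠ 0) :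
    JointR u v := by
  classical
  intro D
  obtain ⟨xc, hxc⟩ : ∃ xc : ι → ℂ, xc = fun i => ((x i : ℝ) : ℂ) := ⟨_, rfl⟩
  obtain ⟨φ, hφ⟩ : ∃ φ : MvPolynomial ι ℤ →+* ℂ, φ = (MvPolynomial.aeval xc : MvPolynomial ι ℤ →ₐ[ℤ] ℂ).toRingHom :=
    ⟨_, rfl⟩
  have hφv : ∀ z, φ z = ((MvPolynomial.aeval x z : ℝ) : ℂ) := by
    intro z
    have h1 : φ = (algebraMap ℝ ℂ).comp (MvPolynomial.aeval x : MvPolynomial ι ℤ →ₐ[ℤ] ℝ).toRingHom := by
      rw [hφ, hxc]
      refine MvPolynomial.ringHom_ext (fun r => ?_) (fun i => ?_)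
      · simp
      · simp
    rw [h1]
    rfl
  have hφn : ∀ z, ‖φ z‖ = |MvPolynomial.aeval x z| := by
    intro z
    rw [hφv, Complex.norm_real, Real.norm_eq_abs]
  obtain ⟨Li, hLi⟩ : ∃ Li : (MvPolynomial ι ℤ)[X], Li = C a + C b * X := ⟨_, rfl⟩
  obtain ⟨E, hE⟩ : ∃ E : ℕ, E = max (max a.totalDegree b.totalDegree) c.totalDegree := ⟨_, rfl⟩
  have hcE : c.totalDegree ≤ E := by rw [hE]; exact le_max_right _ _
  have hLiE : cdeg E Li := by
    intro i
    rw [hLi, coeff_add, coeff_C, coeff_C_mul, coeff_X, hE]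
    refine ((MvPolynomial.totalDegree_add _ _).trans (max_le_max ?_ ?_)).trans (le_max_left _ _)
    · split_ifs <;> simp
    · split_ifs <;> simp
  obtain ⟨K, hK⟩ : ∃ K : ℝ, K = max ((D + 1) * (max 1 (len lenM Li) ^ D * max 1 (len lenM (C c)) ^ D))
      ((D + 1) * (max 1 (len (fun z : ℂ => ‖z‖) (Li.map φ)) ^ D * max 1 (len (fun z : ℂ => ‖z‖) (C (φ c))) ^ D)) :=
    ⟨_, rfl⟩
  have hK1 : 1 ≤ K := by
    rw [hK]
    refine le_max_of_le_left ?_
    have h1 : (1 : ℝ) ≤ max 1 (len lenM Li) ^ D := one_le_pow₀ (le_max_left _ _)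
    have h1' : (1 : ℝ) ≤ max 1 (len lenM (C c)) ^ D := one_le_pow₀ (le_max_left _ _)
    have h2 : (0 : ℝ) ≤ D := Nat.cast_nonneg D
    have h3 := one_le_mul_of_one_le_of_one_le h1 h1'
    nlinarith
  obtain ⟨T, hT⟩ : ∃ T : ℝ, T = max 1 ‖(v : ℂ)‖ := ⟨_, rfl⟩
  have hT1 : 1 ≤ T := by rw [hT]; exact le_max_left _ _
  have hTv : ‖(v : ℂ)‖ ≤ T := by rw [hT]; exact le_max_right _ _
  obtain ⟨κ₀, c₀, hκ₀, hc₀, hmeas⟩ := hx (2 * D * (E * D))
  obtain ⟨F, hF⟩ : ∃ F : ℝ, F = (2 * D).factorial * K ^ (2 * D) := ⟨_, rfl⟩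
  have hfac : (1 : ℝ) ≤ (2 * D).factorial := by exact_mod_cast Nat.factorial_pos _
  have hF1 : 1 ≤ F := by
    rw [hF]
    have : 1 ≤ K ^ (2 * D) := one_le_pow₀ hK1
    nlinarith
  obtain ⟨Z, hZ⟩ : ∃ Z : ℝ, Z = max 1 |MvPolynomial.aeval x c| ^ D := ⟨_, rfl⟩
  have hZ1 : 1 ≤ Z := by rw [hZ]; exact one_le_pow₀ (le_max_left _ _)
  obtain ⟨W, hW⟩ : ∃ W : ℝ, W = (2 * D + 1) * T ^ (2 * D) * F * Z := ⟨_, rfl⟩
  have hW1 : 1 ≤ W := by
    rw [hW]
    have h1 : 1 ≤ T ^ (2 * D) := one_le_pow₀ hT1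
    have h2 : (0 : ℝ) ≤ D := Nat.cast_nonneg D
    have h3 : 1 ≤ (2 * D + 1 : ℝ) * T ^ (2 * D) := by nlinarith
    exact one_le_mul_of_one_le_of_one_le (one_le_mul_of_one_le_of_one_le h3 hF1) hZ1
  refine ⟨2 * D * κ₀ + 2 * D + 1, min 1 (c₀ * F ^ (-κ₀) / W), by positivity, by positivity, ?_⟩
  intro P Q hP hQ hPD hQD H hPH hQH
  have hH : 1 ≤ H := one_le_of_coeff P hP H hPH
  have hH0 : 0 < H := by linarith
  have hD0 : (0 : ℝ) ≤ D := Nat.cast_nonneg D
  have hsmall : H ^ (-(2 * D * κ₀ + 2 * D + 1 : ℝ)) ≤ 1 :=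
    Real.rpow_le_one_of_one_le_of_nonpos hH (by
      have : (0 : ℝ) ≤ 2 * D * κ₀ := by positivity
      linarith)
  have htriv : min 1 (c₀ * F ^ (-κ₀) / W) * H ^ (-(2 * D * κ₀ + 2 * D + 1 : ℝ)) ≤ 1 := by
    have h5 : min 1 (c₀ * F ^ (-κ₀) / W) ≤ 1 := min_le_left _ _
    have h6 : 0 ≤ H ^ (-(2 * D * κ₀ + 2 * D + 1 : ℝ)) := by positivity
    nlinarith
  obtain ⟨m, hm⟩ : ∃ m, m = Q.natDegree := ⟨_, rfl⟩
  obtain ⟨n, hn⟩ : ∃ n, n = P.natDegree := ⟨_, rfl⟩
  by_cases hmn : m + n = 0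
  · -- constants
    have hP0 : P.natDegree = 0 := by omega
    have h1 : P = C (P.coeff 0) := eq_C_of_natDegree_eq_zero hP0
    have h2 : P.coeff 0 ≠ 0 := fun h => hP (by rw [h1, h, C_0])
    have h3 : (1 : ℝ) ≤ |aeval u P| := by
      rw [h1, aeval_C]
      simp only [algebraMap_int_eq, eq_intCast]
      exact_mod_cast Int.one_le_abs h2
    exact htriv.trans (h3.trans (le_max_left _ _))
  have hmn' : 0 < m + n := by omega
  have hmn2 : m + n ≤ 2 * D := by omega
  obtain ⟨G, hG⟩ : ∃ G : (MvPolynomial ι ℤ)[X], G = homP P Li (C c) n := ⟨_, rfl⟩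
  have hnD : n ≤ D := by omega
  have hGdeg : G.natDegree ≤ n := by rw [hG, hLi]; exact natDegree_homP a b c P n
  have hGc : cdeg (E * D) G := by rw [hG]; exact cdeg_homP hLiE c hcE P hnD
  have hGlen : ∀ i, lenM (G.coeff i) ≤ K * H := by
    intro i
    refine (le_len isLenM G i).trans ?_
    rw [hG]
    refine (isLen_homP isLenM.poly Li (C c) P n D hnD H hPH).trans ?_
    rw [mul_comm]
    exact mul_le_mul_of_nonneg_right (by rw [hK]; exact le_max_left _ _) hH0.le
  have hGmap : ∀ i, ‖(G.map φ).coeff i‖ ≤ K * H := by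
    intro i
    refine (le_len isLen_norm (G.map φ) i).trans ?_
    have h1 : G.map φ = homP P (Li.map φ) (C (φ c)) n := by
      rw [hG, ← map_C φ]
      exact map_homP (mapRingHom φ) P Li (C c) n
    rw [h1]
    refine (isLen_homP isLen_norm.poly (Li.map φ) (C (φ c)) P n D hnD H hPH).trans ?_
    rw [mul_comm]
    exact mul_le_mul_of_nonneg_right (by rw [hK]; exact le_max_right _ _) hH0.le
  have hKH : 1 ≤ K * H := by nlinarith
  have hHK : H ≤ K * H := by nlinarith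
  obtain ⟨N, hN⟩ : ∃ N : MvPolynomial ι ℤ, N = resultant (Q.map (Int.castRingHom (MvPolynomial ι ℤ))) G m n := ⟨_, rfl⟩
  -- the resultant is not zero
  have hN0 : N ≠ 0 := by
    have hinj : Function.Injective (Int.castRingHom ℂ) := Int.cast_injective
    have hQ' : Q.map (Int.castRingHom ℂ) ≠ 0 := (Polynomial.map_ne_zero_iff hinj).2 hQ
    have hP' : P.map (Int.castRingHom ℂ) ≠ 0 := (Polynomial.map_ne_zero_iff hinj).2 hP
    -- the point
    obtain ⟨mc, hmc⟩ : ∃ mc : MvPolynomial ι ℤ →+* MvPolynomial ι ℂ, mc = MvPolynomial.map (Int.castRingHom ℂ) :=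
      ⟨_, rfl⟩
    have hmcinj : Function.Injective mc := by rw [hmc]; exact MvPolynomial.map_injective _ hinj
    have hmcev : ∀ (ψ : ι → ℂ) (z : MvPolynomial ι ℤ), MvPolynomial.eval ψ (mc z) = MvPolynomial.aeval ψ z := by
      intro ψ z
      rw [hmc, MvPolynomial.eval_map, MvPolynomial.aeval_def]
      rfl
    have halg : ∀ (R : ℤ[X]) (hR : R ≠ 0) (z : ℂ), z ∈ (R.map (Int.castRingHom ℂ)).roots → IsAlgebraic ℤ z := by
      intro R hR z hz
      rw [mem_roots ((Polynomial.map_ne_zero_iff hinj).2 hR), IsRoot.def, eval_map] at hz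
      exact ⟨R, hR, by rw [aeval_def]; exact hz⟩
    obtain ⟨ψ, hψ⟩ := exists_point (insert (mc c)
      (((P.map (Int.castRingHom ℂ)).roots.toFinset ×ˢ (Q.map (Int.castRingHom ℂ)).roots.toFinset).image
        (fun p => mc a + mc b * MvPolynomial.C p.2 - mc c * MvPolynomial.C p.1))) (by
      intro F hF
      rw [Finset.mem_insert] at hF
      rcases hF with rfl | hF
      · exact fun h => hc0 (hmcinj (h.trans (map_zero _).symm))
      · rw [Finset.mem_image] at hF
        obtain ⟨⟨α, β⟩, hp, rfl⟩ := hF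
        rw [Finset.mem_product, Multiset.mem_toFinset, Multiset.mem_toFinset] at hp
        obtain ⟨ψ, hψ⟩ := hspec α β (halg P hP α hp.1) (halg Q hQ β hp.2)
        intro h0
        apply hψ
        have h1 := congrArg (MvPolynomial.eval ψ) h0
        rw [map_sub, map_add, map_mul, map_mul, MvPolynomial.eval_C, MvPolynomial.eval_C, hmcev, hmcev, hmcev,
          map_zero] at h1
        exact h1)
    have hψc : MvPolynomial.aeval ψ c ≠ 0 := by
      rw [← hmcev]; exact hψ _ (Finset.mem_insert_self _ _)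
    have hψab : ∀ α ∈ (P.map (Int.castRingHom ℂ)).roots, ∀ β ∈ (Q.map (Int.castRingHom ℂ)).roots,
        MvPolynomial.aeval ψ a + MvPolynomial.aeval ψ b * β - MvPolynomial.aeval ψ c * α ≠ 0 := by
      intro α hα β hβ
      have hmem : ((α, β) : ℂ × ℂ) ∈ (P.map (Int.castRingHom ℂ)).roots.toFinset ×ˢ
          (Q.map (Int.castRingHom ℂ)).roots.toFinset :=
        Finset.mem_product.2 ⟨Multiset.mem_toFinset.2 hα, Multiset.mem_toFinset.2 hβ⟩
      have h1 := hψ _ (Finset.mem_insert_of_mem (Finset.mem_image_of_mem _ hmem))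
      rw [map_sub, map_add, map_mul, map_mul, MvPolynomial.eval_C, MvPolynomial.eval_C, hmcev, hmcev, hmcev] at h1
      exact h1
    obtain ⟨ρ, hρ⟩ : ∃ ρ : MvPolynomial ι ℤ →+* ℂ, ρ = (MvPolynomial.aeval ψ : MvPolynomial ι ℤ →ₐ[ℤ] ℂ).toRingHom :=
      ⟨_, rfl⟩
    have hρv : ∀ z, ρ z = MvPolynomial.aeval ψ z := fun z => by rw [hρ]; rfl
    simp only [← hρv] at hψc hψab
    intro h0
    have h1 : resultant (Q.map (Int.castRingHom ℂ)) (G.map ρ) m n = 0 := by
      have h2 : (Q.map (Int.castRingHom (MvPolynomial ι ℤ))).map ρ = Q.map (Int.castRingHom ℂ) := by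
        rw [Polynomial.map_map]
        congr 1
        exact RingHom.ext_int _ _
      rw [← h2, resultant_map_map, ← hN, h0, map_zero]
    have h3 : G.map ρ = homP P (C (ρ a) + C (ρ b) * X) (C (ρ c)) n := by
      rw [hG]
      refine (map_homP (mapRingHom ρ) P Li (C c) n).trans ?_
      rw [hLi]
      simp
    have hdegQ : m = (Q.map (Int.castRingHom ℂ)).natDegree := by
      rw [natDegree_map_eq_of_injective hinj, hm]
    rw [hdegQ, resultant_eq_prod_eval _ _ _ (natDegree_map_le.trans hGdeg) (IsAlgClosed.splits _)] at h1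
    rcases mul_eq_zero.1 h1 with h6 | h6
    · exact hQ' (leadingCoeff_eq_zero.1 (eq_zero_of_pow_eq_zero h6))
    · rw [Multiset.prod_eq_zero_iff, Multiset.mem_map] at h6
      obtain ⟨β, hβr, hβ⟩ := h6
      have h7 : (G.map ρ).eval β = (ρ c) ^ n * aeval ((ρ a + ρ b * β) / ρ c) P := by
        rw [h3]
        have h8 := map_homP (evalRingHom β) P (C (ρ a) + C (ρ b) * X) (C (ρ c)) n
        rw [coe_evalRingHom] at h8
        refine h8.trans ?_
        simp only [eval_add, eval_mul, eval_C, eval_X]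
        rw [← homP_mul P _ (ρ c) n hn.ge, mul_div_cancel₀ _ hψc]
      rw [h7] at hβ
      rcases mul_eq_zero.1 hβ with h8 | h8
      · exact pow_ne_zero _ hψc h8
      · have h9 : (ρ a + ρ b * β) / ρ c ∈ (P.map (Int.castRingHom ℂ)).roots := by
          rw [mem_roots hP', IsRoot.def, eval_map]
          rw [aeval_def] at h8
          exact h8
        apply hψab _ h9 β hβr
        field_simp
        ring
  -- degree and length
  have hNdeg : N.totalDegree ≤ 2 * D * (E * D) := by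
    rw [hN, resultant]
    refine (totalDegree_det_le (m + n) (E * D) _ fun i j => ?_).trans (Nat.mul_le_mul_right _ hmn2)
    refine sylv_entry (fun z : MvPolynomial ι ℤ => z.totalDegree ≤ E * D) (by simp) _ _ _ _ (fun i => ?_) hGc i j
    have h1 : (Int.castRingHom (MvPolynomial ι ℤ)) (Q.coeff i) = MvPolynomial.C (Q.coeff i) := by simp
    rw [coeff_map, h1, MvPolynomial.totalDegree_C]
    exact Nat.zero_le _
  have hNlen : lenM N ≤ F * H ^ (2 * D) := by
    rw [hN, resultant]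
    refine (isLenM.det (m + n) _ (K * H) fun i j => ?_).trans ?_
    · refine sylv_entry (fun z : MvPolynomial ι ℤ => lenM z ≤ K * H) ?_ _ _ _ _ (fun i => ?_) hGlen i j
      · show lenM 0 ≤ _
        rw [isLenM.zero]; positivity
      · show lenM _ ≤ _
        rw [coeff_map]
        exact (isLen_intCast isLenM _).trans ((hQH i).trans hHK)
    · have h1 : (((m + n).factorial : ℕ) : ℝ) ≤ (2 * D).factorial := by
        exact_mod_cast Nat.factorial_le hmn2
      have h2 : (K * H) ^ (m + n) ≤ K ^ (2 * D) * H ^ (2 * D) := by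
        rw [← mul_pow]; exact pow_le_pow_right₀ hKH hmn2
      calc (((m + n).factorial : ℕ) : ℝ) * (K * H) ^ (m + n) ≤ (2 * D).factorial * (K ^ (2 * D) * H ^ (2 * D)) := by
            gcongr
        _ = _ := by rw [hF]; ring
  have hlow := hmeas N hN0 hNdeg (F * H ^ (2 * D)) (fun s => (le_lenM N s).trans hNlen)
  -- the value
  obtain ⟨ε, hε⟩ : ∃ ε : ℝ, ε = max |aeval u P| |aeval v Q| := ⟨_, rfl⟩
  rw [← hε]
  have hε1 : |aeval u P| ≤ ε := by rw [hε]; exact le_max_left _ _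
  have hε2 : |aeval v Q| ≤ ε := by rw [hε]; exact le_max_right _ _
  have hε0 : 0 ≤ ε := (abs_nonneg _).trans hε1
  have hcast : ∀ (w : ℝ) (R : ℤ[X]), ‖aeval (w : ℂ) R‖ = |aeval w R| := by
    intro w R
    have h1 : aeval (w : ℂ) R = ((aeval w R : ℝ) : ℂ) := (map_aeval_int (algebraMap ℝ ℂ) w R).symm
    rw [h1, Complex.norm_real, Real.norm_eq_abs]
  have hup : |MvPolynomial.aeval x N| ≤ W * H ^ (2 * D) * ε := by
    rw [← hφn, hN]
    have h2 : (Q.map (Int.castRingHom (MvPolynomial ι ℤ))).map φ = Q.map (Int.castRingHom ℂ) := by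
      rw [Polynomial.map_map]
      congr 1
      exact RingHom.ext_int _ _
    rw [← resultant_map_map, h2]
    refine (norm_resultant_le (Q.map (Int.castRingHom ℂ)) (G.map φ) m n (natDegree_map_le.trans hm.ge)
      (natDegree_map_le.trans hGdeg) hmn' (K * H) T (Z * ε) hKH (fun i => ?_) hGmap (v : ℂ) hT1 hTv ?_ ?_).trans ?_
    · rw [coeff_map, eq_intCast, Complex.norm_intCast]
      exact (hQH i).trans hHK
    · rw [eval_map, ← algebraMap_int_eq, ← aeval_def, hcast]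
      exact hε2.trans (le_mul_of_one_le_left hε0 hZ1)
    · have h1 : G.map φ = homP P (Li.map φ) (C (φ c)) n := by
        rw [hG, ← map_C φ]
        exact map_homP (mapRingHom φ) P Li (C c) n
      have h3 : (G.map φ).eval (v : ℂ) = (φ c) ^ n * aeval (u : ℂ) P := by
        rw [h1]
        have h4 := map_homP (evalRingHom (v : ℂ)) P (Li.map φ) (C (φ c)) n
        rw [coe_evalRingHom] at h4
        refine Eq.trans h4 ?_
        rw [hLi, ← homP_mul P _ (φ c) n hn.ge]
        congr 1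
        · simp only [Polynomial.map_add, Polynomial.map_mul, Polynomial.map_C, Polynomial.map_X, eval_add, eval_mul,
            eval_C, eval_X, hφv]
          exact_mod_cast hrel.symm
        · rw [eval_C]
      rw [h3, norm_mul, norm_pow, hφn, hcast]
      refine mul_le_mul ?_ hε1 (abs_nonneg _) (by positivity)
      rw [hZ]
      calc |MvPolynomial.aeval x c| ^ n ≤ max 1 |MvPolynomial.aeval x c| ^ n :=
            pow_le_pow_left₀ (abs_nonneg _) (le_max_right _ _) n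
        _ ≤ _ := pow_le_pow_right₀ (le_max_left _ _) hnD
    · have h1 : (((m + n).factorial : ℕ) : ℝ) ≤ (2 * D).factorial := by
        exact_mod_cast Nat.factorial_le hmn2
      have h2 : (K * H) ^ (m + n) ≤ K ^ (2 * D) * H ^ (2 * D) := by
        rw [← mul_pow]; exact pow_le_pow_right₀ hKH hmn2
      have h3 : ((m : ℝ) + n) ≤ 2 * D + 1 := by
        have : ((m + n : ℕ) : ℝ) ≤ ((2 * D : ℕ) : ℝ) := by exact_mod_cast hmn2
        push_cast at this
        linarith
      have h4 : T ^ (m + n) ≤ T ^ (2 * D) := pow_le_pow_right₀ hT1 hmn2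
      calc ((m : ℝ) + n) * (T ^ (m + n) * (Z * ε)) * ((((m + n).factorial : ℕ) : ℝ) * (K * H) ^ (m + n))
          ≤ (2 * D + 1) * (T ^ (2 * D) * (Z * ε)) * ((2 * D).factorial * (K ^ (2 * D) * H ^ (2 * D))) := by
            gcongr
        _ = _ := by rw [hW, hF]; ring
  -- conclusion
  have b8 : c₀ * (F * H ^ (2 * D)) ^ (-κ₀) ≤ W * H ^ (2 * D) * ε := hlow.trans hup
  have e1 : (F * H ^ (2 * D)) ^ (-κ₀) = F ^ (-κ₀) * H ^ (-(2 * D * κ₀ : ℝ)) := by
    rw [Real.mul_rpow (by linarith) (by positivity), ← Real.rpow_natCast H (2 * D),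
      ← Real.rpow_mul hH0.le]
    congr 2
    push_cast
    ring
  have e2 : H ^ (-(2 * D * κ₀ : ℝ)) = H ^ (2 * D) * H ^ (-(2 * D * κ₀ + 2 * D : ℝ)) := by
    rw [← Real.rpow_natCast H (2 * D), ← Real.rpow_add hH0]
    congr 1
    push_cast
    ring
  have b9 : c₀ * F ^ (-κ₀) / W * H ^ (-(2 * D * κ₀ + 2 * D : ℝ)) ≤ ε := by
    rw [e1, e2] at b8
    have h8 : 0 < W * H ^ (2 * D) := by positivity
    have h9 : (W * H ^ (2 * D)) * (c₀ * F ^ (-κ₀) / W * H ^ (-(2 * D * κ₀ + 2 * D : ℝ))) ≤ (W * H ^ (2 * D)) * ε := by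
      calc (W * H ^ (2 * D)) * (c₀ * F ^ (-κ₀) / W * H ^ (-(2 * D * κ₀ + 2 * D : ℝ)))
          = c₀ * (F ^ (-κ₀) * (H ^ (2 * D) * H ^ (-(2 * D * κ₀ + 2 * D : ℝ)))) := by
            field_simp
        _ ≤ _ := b8
    exact le_of_mul_le_mul_left h9 h8
  have e3 : H ^ (-(2 * D * κ₀ + 2 * D + 1 : ℝ)) ≤ H ^ (-(2 * D * κ₀ + 2 * D : ℝ)) :=
    Real.rpow_le_rpow_of_exponent_le hH (by linarith)
  calc min 1 (c₀ * F ^ (-κ₀) / W) * H ^ (-(2 * D * κ₀ + 2 * D + 1 : ℝ))
      ≤ c₀ * F ^ (-κ₀) / W * H ^ (-(2 * D * κ₀ + 2 * D : ℝ)) := by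
        gcongr
        exact min_le_right _ _
    _ ≤ ε := b9

end Pool.Agent.N743.SS
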