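import Pool.Agent.N743.SS.Pair

/-!
# Two numbers in a polynomial relation over a ring with a measure of algebraic independence
-/

set_option autoImplicit false

namespace Pool.Agent.N743.SS

open Polynomial Finset Pool.Agent.R356
open Pool.Agent.TH647.NR (norm_resultant_le)

variable {ι : Type}

lemma isLen_max {R : Type*} [CommRing R] {f g : R → ℝ} (hf : IsLen f) (hg : IsLen g) :
    IsLen (fun z => max (f z) (g z)) where
  nonneg a := le_max_of_le_left (hf.nonneg a)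
  zero := by simp [hf.zero, hg.zero]
  one := max_le hf.one hg.one
  neg a := by rw [hf.neg, hg.neg]
  add a b := max_le ((hf.add a b).trans (add_le_add (le_max_left _ _) (le_max_left _ _)))
    ((hg.add a b).trans (add_le_add (le_max_right _ _) (le_max_right _ _)))
  mul a b := by
    refine max_le ((hf.mul a b).trans ?_) ((hg.mul a b).trans ?_)
    · exact mul_le_mul (le_max_left _ _) (le_max_left _ _) (hf.nonneg _) (le_max_of_le_left (hf.nonneg _))
    · exact mul_le_mul (le_max_right _ _) (le_max_right _ _) (hg.nonneg _) (le_max_of_le_left (hf.nonneg _))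

lemma isLen_comap {R : Type*} [CommRing R] (φ : R →+* ℂ) : IsLen (fun z => ‖φ z‖) where
  nonneg _ := norm_nonneg _
  zero := by simp
  one := by simp
  neg a := by simp
  add a b := by rw [map_add]; exact norm_add_le _ _
  mul a b := by rw [map_mul]; exact norm_mul_le _ _

/-- evaluation of a polynomial in `U` (outer variable) and `V` (inner variable) -/
noncomputable def e3 (ψ : ι → ℂ) (α β : ℂ) : (MvPolynomial ι ℤ)[X][X] →+* ℂ :=
  eval₂RingHom (eval₂RingHom (MvPolynomial.aeval ψ : MvPolynomial ι ℤ →ₐ[ℤ] ℂ).toRingHom β) α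

lemma e3_eq (ψ : ι → ℂ) (α β : ℂ) (F : (MvPolynomial ι ℤ)[X][X]) : e3 ψ α β F =
    (F.map (eval₂RingHom (MvPolynomial.aeval ψ : MvPolynomial ι ℤ →ₐ[ℤ] ℂ).toRingHom β)).eval α := by
  rw [eval_map]; rfl

/-- resultant with an integer polynomial: size -/
lemma len_res {R : Type*} [CommRing R] {f : R → ℝ} (hf : IsLen f) (P : ℤ[X]) (G : R[X]) (m k : ℕ) (B : ℝ)
    (hP : ∀ i, |((P.coeff i : ℤ) : ℝ)| ≤ B) (hG : ∀ i, f (G.coeff i) ≤ B) :
    f (resultant (P.map (Int.castRingHom R)) G m k) ≤ (m + k).factorial * B ^ (m + k) := by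
  have hB0 : 0 ≤ B := (abs_nonneg _).trans (hP 0)
  rw [resultant]
  refine hf.det (m + k) _ B fun i j => ?_
  refine sylv_entry (fun z : R => f z ≤ B) (by show f 0 ≤ B; rw [hf.zero]; exact hB0) _ _ _ _ (fun i => ?_) hG i j
  show f _ ≤ _
  rw [coeff_map]
  exact (isLen_intCast hf _).trans (hP i)

/-- resultant with an integer polynomial: filtrations -/
lemma filt_res {R : Type*} [CommRing R] (A : ℕ → AddSubgroup R) (h1 : (1 : R) ∈ A 0)
    (hmono : ∀ m n, m ≤ n → A m ≤ A n)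
    (hm : ∀ m n a b, a ∈ A m → b ∈ A n → a * b ∈ A (m + n)) (P : ℤ[X]) (G : R[X]) (m k E : ℕ)
    (hG : ∀ i, G.coeff i ∈ A E) :
    resultant (P.map (Int.castRingHom R)) G m k ∈ A ((m + k) * E) := by
  rw [resultant]
  refine det_filt A h1 hm (m + k) E _ fun i j => ?_
  refine sylv_entry (fun z : R => z ∈ A E) (A E).zero_mem _ _ _ _ (fun i => ?_) hG i j
  rw [coeff_map, eq_intCast]
  have h2 : (((P.coeff i : ℤ) : R)) = (P.coeff i) • (1 : R) := by simp
  rw [h2]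
  exact hmono 0 E (Nat.zero_le _) ((A 0).zsmul_mem h1 _)

/-- resultant with an integer polynomial: nonvanishing -/
lemma res_ne_zero (P : ℤ[X]) (hP : P ≠ 0) (G : ℂ[X]) (k : ℕ) (hk : G.natDegree ≤ k)
    (h : ∀ α ∈ (P.map (Int.castRingHom ℂ)).roots, G.eval α ≠ 0) :
    resultant (P.map (Int.castRingHom ℂ)) G P.natDegree k ≠ 0 := by
  have hinj : Function.Injective (Int.castRingHom ℂ) := Int.cast_injective
  have hP' : P.map (Int.castRingHom ℂ) ≠ 0 := (Polynomial.map_ne_zero_iff hinj).2 hP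
  have hdeg : P.natDegree = (P.map (Int.castRingHom ℂ)).natDegree := by
    rw [natDegree_map_eq_of_injective hinj]
  intro h1
  rw [hdeg, resultant_eq_prod_eval _ _ _ hk (IsAlgClosed.splits _)] at h1
  rcases mul_eq_zero.1 h1 with h6 | h6
  · exact hP' (leadingCoeff_eq_zero.1 (eq_zero_of_pow_eq_zero h6))
  · rw [Multiset.prod_eq_zero_iff, Multiset.mem_map] at h6
    obtain ⟨β, hβr, hβ⟩ := h6
    exact h β hβr hβ

/-- a resultant of two polynomials with small values -/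
lemma res_small (P : ℤ[X]) (G : ℂ[X]) (m k : ℕ) (hm : P.natDegree ≤ m) (hk : G.natDegree ≤ k) (hmk : 0 < m + k)
    (B T ε : ℝ) (hB : 1 ≤ B) (hP : ∀ i, |((P.coeff i : ℤ) : ℝ)| ≤ B) (hG : ∀ i, ‖G.coeff i‖ ≤ B) (t : ℂ)
    (hT : 1 ≤ T) (ht : ‖t‖ ≤ T) (h1 : ‖aeval t P‖ ≤ ε) (h2 : ‖G.eval t‖ ≤ ε) :
    ‖resultant (P.map (Int.castRingHom ℂ)) G m k‖ ≤
      (m + k) * (T ^ (m + k) * ε) * ((m + k).factorial * B ^ (m + k)) := by
  refine norm_resultant_le _ _ m k (natDegree_map_le.trans hm) hk hmk B T ε hB (fun i => ?_) hG t hT ht ?_ h2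
  · rw [coeff_map, eq_intCast, Complex.norm_intCast]
    exact hP i
  · rw [eval_map, ← algebraMap_int_eq, ← aeval_def]
    exact h1

/-- the filtration of `A[V]` by the total degrees of the coefficients -/
def degCM (n : ℕ) : AddSubgroup (MvPolynomial ι ℤ)[X] where
  carrier := {F | cdeg n F}
  add_mem' {a b} ha hb := fun j => by
    rw [coeff_add]
    exact (MvPolynomial.totalDegree_add _ _).trans (max_le (ha j) (hb j))
  zero_mem' := by intro j; simp
  neg_mem' {a} ha := fun j => by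
    rw [coeff_neg, MvPolynomial.totalDegree_neg]; exact ha j

/-- **The pair lemma** for a polynomial relation. -/
theorem jointR_rel (x : ι → ℝ) (hx : MeasM x) (u v : ℝ) (F : (MvPolynomial ι ℤ)[X][X])
    (hrel : e3 (fun i => ((x i : ℝ) : ℂ)) (u : ℂ) (v : ℂ) F = 0)
    (hspec : ∀ α β : ℂ, IsAlgebraic ℤ α → IsAlgebraic ℤ β → ∃ ψ : ι → ℂ, e3 ψ α β F ≠ 0) :
    JointR u v := by
  classical
  intro D
  obtain ⟨xc, hxc⟩ : ∃ xc : ι → ℂ, xc = fun i => ((x i : ℝ) : ℂ) := ⟨_, rfl⟩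
  rw [← hxc] at hrel
  obtain ⟨φ, hφ⟩ : ∃ φ : MvPolynomial ι ℤ →+* ℂ, φ = (MvPolynomial.aeval xc : MvPolynomial ι ℤ →ₐ[ℤ] ℂ).toRingHom :=
    ⟨_, rfl⟩
  have hφv : ∀ z, φ z = ((MvPolynomial.aeval x z : ℝ) : ℂ) := by
    intro z
    have h1 : φ = (algebraMap ℝ ℂ).comp (MvPolynomial.aeval x : MvPolynomial ι ℤ →ₐ[ℤ] ℝ).toRingHom := by
      rw [hφ, hxc]
      refine MvPolynomial.ringHom_ext (fun r => ?_) (fun i => ?_)
      · simp
      · simp
    rw [h1]
    rfl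
  have hφn : ∀ z, ‖φ z‖ = |MvPolynomial.aeval x z| := by
    intro z
    rw [hφv, Complex.norm_real, Real.norm_eq_abs]
  -- the size
  obtain ⟨ℓ, hℓ⟩ : ∃ ℓ : MvPolynomial ι ℤ → ℝ, ℓ = fun z => max (lenM z) ‖φ z‖ := ⟨_, rfl⟩
  have hℓL : IsLen ℓ := by rw [hℓ]; exact isLen_max isLenM (isLen_comap φ)
  have hℓ1 : ∀ z, lenM z ≤ ℓ z := fun z => by rw [hℓ]; exact le_max_left _ _
  have hℓ2 : ∀ z, ‖φ z‖ ≤ ℓ z := fun z => by rw [hℓ]; exact le_max_right _ _
  -- bounds for `F`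
  obtain ⟨k, hk⟩ : ∃ k, k = F.natDegree := ⟨_, rfl⟩
  have h0F : ∀ i, i ∉ F.support → F.coeff i = 0 := fun i hi => notMem_support_iff.1 hi
  obtain ⟨E, hE⟩ := bdd_of_support F.support (fun i => (F.coeff i).natDegree)
    (fun i hi => by rw [h0F i hi]; simp)
  choose e he using fun i => bdd_of_support (F.coeff i).support
    (fun j => ((F.coeff i).coeff j).totalDegree) (fun j hj => by rw [notMem_support_iff.1 hj]; simp)
  obtain ⟨E', hE'⟩ := bdd_of_support F.support (fun i => if i ∈ F.support then e i else 0)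
    (fun i hi => by simp only [if_neg hi])
  have hFE' : ∀ i, F.coeff i ∈ degCM (ι := ι) E' := by
    intro i j
    by_cases hi : i ∈ F.support
    · have h1 := hE' i
      simp only [if_pos hi] at h1
      exact (he i j).trans h1
    · rw [h0F i hi]; simp
  obtain ⟨K, hK1, hK⟩ := bdd_of_support' F.support (fun i => len ℓ (F.coeff i))
    (fun i hi => by
      show len ℓ (F.coeff i) = 0
      rw [h0F i hi]; exact hℓL.poly.zero)
  have hK0 : 0 < K := by linarith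
  -- parameters
  obtain ⟨s, hs⟩ : ∃ s, s = D + k + 1 := ⟨_, rfl⟩
  obtain ⟨l, hl⟩ : ∃ l, l = s * E := ⟨_, rfl⟩
  obtain ⟨s', hs'⟩ : ∃ s', s' = D + l + 1 := ⟨_, rfl⟩
  obtain ⟨T, hT⟩ : ∃ T : ℝ, T = max 1 (max ‖(u : ℂ)‖ ‖(v : ℂ)‖) := ⟨_, rfl⟩
  have hT1 : 1 ≤ T := by rw [hT]; exact le_max_left _ _
  have hTu : ‖(u : ℂ)‖ ≤ T := by rw [hT]; exact le_max_of_le_right (le_max_left _ _)
  have hTv : ‖(v : ℂ)‖ ≤ T := by rw [hT]; exact le_max_of_le_right (le_max_right _ _)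
  obtain ⟨κ₀, c₀, hκ₀, hc₀, hmeas⟩ := hx (s' * (s * E'))
  -- `Y = Y₁ H^s` bounds the first resultant
  obtain ⟨Y₁, hY₁⟩ : ∃ Y₁ : ℝ, Y₁ = s.factorial * K ^ s := ⟨_, rfl⟩
  have hfs : (1 : ℝ) ≤ s.factorial := by exact_mod_cast Nat.factorial_pos _
  have hfs' : (1 : ℝ) ≤ s'.factorial := by exact_mod_cast Nat.factorial_pos _
  have hY₁1 : 1 ≤ Y₁ := by
    rw [hY₁]; exact one_le_mul_of_one_le_of_one_le hfs (one_le_pow₀ hK1)
  obtain ⟨Y₂, hY₂⟩ : ∃ Y₂ : ℝ, Y₂ = s'.factorial * Y₁ ^ s' := ⟨_, rfl⟩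
  have hY₂1 : 1 ≤ Y₂ := by
    rw [hY₂]; exact one_le_mul_of_one_le_of_one_le hfs' (one_le_pow₀ hY₁1)
  obtain ⟨Z₁, hZ₁⟩ : ∃ Z₁ : ℝ, Z₁ = s * T ^ s * (s.factorial * (T ^ E * K) ^ s) := ⟨_, rfl⟩
  have hs1R : (1 : ℝ) ≤ s := by exact_mod_cast (by omega : 1 ≤ s)
  have hs1R' : (1 : ℝ) ≤ s' := by exact_mod_cast (by omega : 1 ≤ s')
  have hZ₁1 : 1 ≤ Z₁ := by
    rw [hZ₁]
    have h1 : 1 ≤ T ^ E * K := one_le_mul_of_one_le_of_one_le (one_le_pow₀ hT1) hK1
    exact one_le_mul_of_one_le_of_one_le (one_le_mul_of_one_le_of_one_le hs1R (one_le_pow₀ hT1))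
      (one_le_mul_of_one_le_of_one_le hfs (one_le_pow₀ h1))
  obtain ⟨W, hW⟩ : ∃ W : ℝ, W = s' * T ^ s' * Y₂ * Z₁ := ⟨_, rfl⟩
  have hW1 : 1 ≤ W := by
    rw [hW]
    exact one_le_mul_of_one_le_of_one_le (one_le_mul_of_one_le_of_one_le
      (one_le_mul_of_one_le_of_one_le hs1R' (one_le_pow₀ hT1)) hY₂1) hZ₁1
  obtain ⟨g, hg⟩ : ∃ g : ℕ, g = s * s' := ⟨_, rfl⟩
  refine ⟨g * κ₀ + (g + s) + 1, min 1 (c₀ * Y₂ ^ (-κ₀) / W), by positivity, by positivity, ?_⟩
  intro P Q hP hQ hPD hQD H hPH hQH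
  have hH : 1 ≤ H := one_le_of_coeff P hP H hPH
  have hH0 : 0 < H := by linarith
  have hsmall : H ^ (-(g * κ₀ + (g + s) + 1 : ℝ)) ≤ 1 :=
    Real.rpow_le_one_of_one_le_of_nonpos hH (by
      have : (0 : ℝ) ≤ g * κ₀ + (g + s) := by positivity
      linarith)
  have htriv : min 1 (c₀ * Y₂ ^ (-κ₀) / W) * H ^ (-(g * κ₀ + (g + s) + 1 : ℝ)) ≤ 1 := by
    have h5 : min 1 (c₀ * Y₂ ^ (-κ₀) / W) ≤ 1 := min_le_left _ _
    have h6 : 0 ≤ H ^ (-(g * κ₀ + (g + s) + 1 : ℝ)) := by positivity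
    nlinarith
  have hcast : ∀ (w : ℝ) (R : ℤ[X]), ‖aeval (w : ℂ) R‖ = |aeval w R| := by
    intro w R
    have h1 : aeval (w : ℂ) R = ((aeval w R : ℝ) : ℂ) := (map_aeval_int (algebraMap ℝ ℂ) w R).symm
    rw [h1, Complex.norm_real, Real.norm_eq_abs]
  have hconst : ∀ (w : ℝ) (R : ℤ[X]), R ≠ 0 → R.natDegree = 0 → (1 : ℝ) ≤ |aeval w R| := by
    intro w R hR hR0
    have h1 : R = C (R.coeff 0) := eq_C_of_natDegree_eq_zero hR0
    have h2 : R.coeff 0 ≠ 0 := fun h => hR (by rw [h1, h, C_0])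
    rw [h1, aeval_C]
    simp only [algebraMap_int_eq, eq_intCast]
    exact_mod_cast Int.one_le_abs h2
  obtain ⟨m, hm⟩ : ∃ m, m = P.natDegree := ⟨_, rfl⟩
  obtain ⟨n, hn⟩ : ∃ n, n = Q.natDegree := ⟨_, rfl⟩
  by_cases hm0 : m = 0
  · exact htriv.trans ((hconst u P hP (by omega)).trans (le_max_left _ _))
  by_cases hn0 : n = 0
  · exact htriv.trans ((hconst v Q hQ (by omega)).trans (le_max_right _ _))
  -- the first resultant
  obtain ⟨G, hG⟩ : ∃ G : (MvPolynomial ι ℤ)[X], G = resultant (P.map (Int.castRingHom (MvPolynomial ι ℤ)[X])) F m k :=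
    ⟨_, rfl⟩
  have hmk : m + k ≤ s := by omega
  have hGdeg : G.natDegree ≤ l := by
    have h1 := filt_res (degF (MvPolynomial ι ℤ)) (by show (1 : (MvPolynomial ι ℤ)[X]).natDegree ≤ 0; simp)
      (fun m n hmn a (ha : a.natDegree ≤ m) => (show a.natDegree ≤ n from ha.trans hmn))
      (fun m n a b ha hb => natDegree_mul_le.trans (Nat.add_le_add ha hb)) P F m k E hE
    rw [← hG] at h1
    have h2 : G.natDegree ≤ (m + k) * E := h1
    rw [hl]
    exact h2.trans (Nat.mul_le_mul_right _ hmk)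
  have hGc : ∀ i, (G.coeff i).totalDegree ≤ s * E' := by
    have h1 := filt_res (degCM (ι := ι)) (by
        intro j
        rw [coeff_one]
        split_ifs <;> simp)
      (fun m n hmn a ha j => (ha j).trans hmn)
      (fun m n a b ha hb => cdeg_mul ha hb) P F m k E' hFE'
    rw [← hG] at h1
    exact fun i => (h1 i).trans (Nat.mul_le_mul_right _ hmk)
  have hHK : H ≤ K * H := by nlinarith
  have hKK : K ≤ K * H := by nlinarith
  have hKH1 : 1 ≤ K * H := by nlinarith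
  obtain ⟨Y, hY⟩ : ∃ Y : ℝ, Y = Y₁ * H ^ s := ⟨_, rfl⟩
  have hYle : (s.factorial : ℝ) * (K * H) ^ s = Y := by rw [hY, hY₁, mul_pow]; ring
  have hHY : H ≤ Y := by
    rw [hY]
    have h1 : H ≤ H ^ s := le_self_pow₀ hH (by omega)
    nlinarith [show (0 : ℝ) ≤ H ^ s by positivity]
  have hY1 : 1 ≤ Y := hH.trans hHY
  have hGlen : len ℓ G ≤ Y := by
    rw [hG]
    refine (len_res hℓL.poly P F m k (K * H) (fun i => (hPH i).trans hHK) (fun i => (hK i).trans hKK)).trans ?_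
    rw [← hYle]
    have h1 : (((m + k).factorial : ℕ) : ℝ) ≤ s.factorial := by exact_mod_cast Nat.factorial_le hmk
    have h2 : (K * H) ^ (m + k) ≤ (K * H) ^ s := pow_le_pow_right₀ hKH1 hmk
    exact mul_le_mul h1 h2 (by positivity) (by positivity)
  have hGi : ∀ i, ℓ (G.coeff i) ≤ Y := fun i => (le_len hℓL G i).trans hGlen
  -- the second resultant
  obtain ⟨N, hN⟩ : ∃ N : MvPolynomial ι ℤ, N = resultant (Q.map (Int.castRingHom (MvPolynomial ι ℤ))) G n l := ⟨_, rfl⟩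
  have hnl : n + l ≤ s' := by omega
  have hNdeg : N.totalDegree ≤ s' * (s * E') := by
    have h1 := filt_res (degM (ι := ι)) (by show (1 : MvPolynomial ι ℤ).totalDegree ≤ 0; simp)
      (fun m n hmn a (ha : a.totalDegree ≤ m) => (show a.totalDegree ≤ n from ha.trans hmn))
      (fun m n a b ha hb => (MvPolynomial.totalDegree_mul a b).trans (Nat.add_le_add ha hb)) Q G n l (s * E') hGc
    rw [← hN] at h1
    have h2 : N.totalDegree ≤ (n + l) * (s * E') := h1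
    exact h2.trans (Nat.mul_le_mul_right _ hnl)
  have hNlen : ℓ N ≤ Y₂ * H ^ g := by
    rw [hN]
    refine (len_res hℓL Q G n l Y (fun i => (hQH i).trans hHY) hGi).trans ?_
    have h1 : (((n + l).factorial : ℕ) : ℝ) ≤ s'.factorial := by exact_mod_cast Nat.factorial_le hnl
    have h2 : Y ^ (n + l) ≤ Y ^ s' := pow_le_pow_right₀ hY1 hnl
    calc (((n + l).factorial : ℕ) : ℝ) * Y ^ (n + l) ≤ s'.factorial * Y ^ s' :=
          mul_le_mul h1 h2 (by positivity) (by positivity)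
      _ = Y₂ * H ^ g := by rw [hY, hY₂, mul_pow, ← pow_mul, hg]; ring
  -- nonvanishing
  have hN0 : N ≠ 0 := by
    have hinj : Function.Injective (Int.castRingHom ℂ) := Int.cast_injective
    have halg : ∀ (R : ℤ[X]) (hR : R ≠ 0) (z : ℂ), z ∈ (R.map (Int.castRingHom ℂ)).roots → IsAlgebraic ℤ z := by
      intro R hR z hz
      rw [mem_roots ((Polynomial.map_ne_zero_iff hinj).2 hR), IsRoot.def, eval_map] at hz
      exact ⟨R, hR, by rw [aeval_def]; exact hz⟩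
    -- polynomials in the parameters
    obtain ⟨mc, hmc⟩ : ∃ mc : MvPolynomial ι ℤ →+* MvPolynomial ι ℂ, mc = MvPolynomial.map (Int.castRingHom ℂ) :=
      ⟨_, rfl⟩
    obtain ⟨Φ, hΦ⟩ : ∃ Φ : ℂ × ℂ → ((MvPolynomial ι ℤ)[X][X] →+* MvPolynomial ι ℂ), Φ = fun p =>
      eval₂RingHom (eval₂RingHom mc (MvPolynomial.C p.2)) (MvPolynomial.C p.1) := ⟨_, rfl⟩
    have hev : ∀ (ψ : ι → ℂ) (p : ℂ × ℂ) (F : (MvPolynomial ι ℤ)[X][X]),
        MvPolynomial.eval ψ (Φ p F) = e3 ψ p.1 p.2 F := by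
      intro ψ p F
      have hA : (MvPolynomial.eval ψ).comp mc = (MvPolynomial.aeval ψ : MvPolynomial ι ℤ →ₐ[ℤ] ℂ).toRingHom := by
        rw [hmc]
        refine MvPolynomial.ringHom_ext (fun r => ?_) (fun i => ?_)
        · simp
        · simp
      have hB : (MvPolynomial.eval ψ).comp (eval₂RingHom mc (MvPolynomial.C p.2)) =
          eval₂RingHom (MvPolynomial.aeval ψ : MvPolynomial ι ℤ →ₐ[ℤ] ℂ).toRingHom p.2 := by
        refine Polynomial.ringHom_ext (fun a => ?_) ?_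
        · rw [RingHom.comp_apply, coe_eval₂RingHom, coe_eval₂RingHom, eval₂_C, eval₂_C, ← hA]
          rfl
        · rw [RingHom.comp_apply, coe_eval₂RingHom, coe_eval₂RingHom, eval₂_X, eval₂_X, MvPolynomial.eval_C]
      have h1 : (MvPolynomial.eval ψ).comp (Φ p) = e3 ψ p.1 p.2 := by
        rw [hΦ, e3]
        refine Polynomial.ringHom_ext (fun a => ?_) ?_
        · rw [RingHom.comp_apply, coe_eval₂RingHom, coe_eval₂RingHom, eval₂_C, eval₂_C, ← hB]
          rfl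
        · rw [RingHom.comp_apply, coe_eval₂RingHom, coe_eval₂RingHom, eval₂_X, eval₂_X, MvPolynomial.eval_C]
      rw [← h1]
      rfl
    obtain ⟨ψ, hψ⟩ := exists_point (((P.map (Int.castRingHom ℂ)).roots.toFinset ×ˢ
      (Q.map (Int.castRingHom ℂ)).roots.toFinset).image (fun p => Φ p F)) (by
      intro F' hF'
      rw [Finset.mem_image] at hF'
      obtain ⟨⟨α, β⟩, hp, rfl⟩ := hF'
      rw [Finset.mem_product, Multiset.mem_toFinset, Multiset.mem_toFinset] at hp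
      obtain ⟨ψ, hψ⟩ := hspec α β (halg P hP α hp.1) (halg Q hQ β hp.2)
      intro h0
      apply hψ
      rw [← hev ψ (α, β), h0, map_zero])
    have hψ' : ∀ α ∈ (P.map (Int.castRingHom ℂ)).roots, ∀ β ∈ (Q.map (Int.castRingHom ℂ)).roots, e3 ψ α β F ≠ 0 := by
      intro α hα β hβ
      have hmem : ((α, β) : ℂ × ℂ) ∈ (P.map (Int.castRingHom ℂ)).roots.toFinset ×ˢ
          (Q.map (Int.castRingHom ℂ)).roots.toFinset :=
        Finset.mem_product.2 ⟨Multiset.mem_toFinset.2 hα, Multiset.mem_toFinset.2 hβ⟩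
      have h1 := hψ _ (Finset.mem_image_of_mem _ hmem)
      rw [hev ψ (α, β)] at h1
      exact h1
    obtain ⟨ρ, hρ⟩ : ∃ ρ : MvPolynomial ι ℤ →+* ℂ, ρ = (MvPolynomial.aeval ψ : MvPolynomial ι ℤ →ₐ[ℤ] ℂ).toRingHom :=
      ⟨_, rfl⟩
    intro h0
    have h1 : resultant (Q.map (Int.castRingHom ℂ)) (G.map ρ) n l = 0 := by
      have h2 : (Q.map (Int.castRingHom (MvPolynomial ι ℤ))).map ρ = Q.map (Int.castRingHom ℂ) := by
        rw [Polynomial.map_map]
        congr 1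
        exact RingHom.ext_int _ _
      rw [← h2, resultant_map_map, ← hN, h0, map_zero]
    rw [hn] at h1
    refine res_ne_zero Q hQ (G.map ρ) l (natDegree_map_le.trans hGdeg) (fun β hβ => ?_) h1
    have h2 : (G.map ρ).eval β = resultant (P.map (Int.castRingHom ℂ)) (F.map (eval₂RingHom ρ β)) m k := by
      rw [eval_map]
      have h3 : (P.map (Int.castRingHom (MvPolynomial ι ℤ)[X])).map (eval₂RingHom ρ β) = P.map (Int.castRingHom ℂ) := by
        rw [Polynomial.map_map]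
        congr 1
        exact RingHom.ext_int _ _
      rw [← h3, resultant_map_map, ← hG]
      rfl
    rw [h2, hm]
    refine res_ne_zero P hP _ k (natDegree_map_le.trans hk.ge) fun α hα => ?_
    have h3 := hψ' α hα β hβ
    rw [e3_eq, ← hρ] at h3
    exact h3
  have hlow := hmeas N hN0 hNdeg (Y₂ * H ^ g) (fun i => (le_lenM N i).trans ((hℓ1 N).trans hNlen))
  -- the value
  obtain ⟨ε, hε⟩ : ∃ ε : ℝ, ε = max |aeval u P| |aeval v Q| := ⟨_, rfl⟩
  rw [← hε]
  have hε1 : |aeval u P| ≤ ε := by rw [hε]; exact le_max_left _ _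
  have hε2 : |aeval v Q| ≤ ε := by rw [hε]; exact le_max_right _ _
  have hε0 : 0 ≤ ε := (abs_nonneg _).trans hε1
  have hGv : ‖(G.map φ).eval (v : ℂ)‖ ≤ Z₁ * H ^ s * ε := by
    have h2 : (G.map φ).eval (v : ℂ) = resultant (P.map (Int.castRingHom ℂ)) (F.map (eval₂RingHom φ (v : ℂ))) m k := by
      rw [eval_map]
      have h3 : (P.map (Int.castRingHom (MvPolynomial ι ℤ)[X])).map (eval₂RingHom φ (v : ℂ)) =
          P.map (Int.castRingHom ℂ) := by
        rw [Polynomial.map_map]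
        congr 1
        exact RingHom.ext_int _ _
      rw [← h3, resultant_map_map, ← hG]
      rfl
    obtain ⟨B, hB⟩ : ∃ B : ℝ, B = T ^ E * K * H := ⟨_, rfl⟩
    have hTE : 1 ≤ T ^ E := one_le_pow₀ hT1
    have hTK : 1 ≤ T ^ E * K := one_le_mul_of_one_le_of_one_le hTE hK1
    have hB1 : 1 ≤ B := by rw [hB]; exact one_le_mul_of_one_le_of_one_le hTK hH
    have hHB : H ≤ B := by rw [hB]; nlinarith
    have hcoef : ∀ i, ‖(F.map (eval₂RingHom φ (v : ℂ))).coeff i‖ ≤ B := by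
      intro i
      rw [coeff_map, coe_eval₂RingHom, eval₂_eq_sum_range]
      refine (norm_sum_le _ _).trans ?_
      have h1 : ∀ j ∈ range ((F.coeff i).natDegree + 1), ‖φ ((F.coeff i).coeff j) * (v : ℂ) ^ j‖ ≤
          T ^ E * ℓ ((F.coeff i).coeff j) := by
        intro j hj
        rw [mem_range] at hj
        rw [norm_mul, norm_pow, mul_comm]
        refine mul_le_mul ?_ (hℓ2 _) (norm_nonneg _) (by positivity)
        exact (pow_le_pow_left₀ (norm_nonneg _) hTv j).trans (pow_le_pow_right₀ hT1 (by have := hE i; omega))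
      refine (sum_le_sum h1).trans ?_
      rw [← mul_sum, ← len_eq hℓL (F.coeff i) _ (Nat.lt_succ_self _), hB]
      have h2 := hK i
      have h3 : 0 ≤ T ^ E * K := by positivity
      calc T ^ E * len ℓ (F.coeff i) ≤ T ^ E * K := mul_le_mul_of_nonneg_left h2 (by positivity)
        _ ≤ T ^ E * K * H := le_mul_of_one_le_right h3 hH
    rw [h2]
    refine (res_small P _ m k hm.ge (natDegree_map_le.trans hk.ge) (by omega) B T ε hB1
      (fun i => (hPH i).trans hHB) hcoef (u : ℂ) hT1 hTu (by rw [hcast]; exact hε1) ?_).trans ?_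
    · have h4 : (F.map (eval₂RingHom φ (v : ℂ))).eval (u : ℂ) = 0 := by
        rw [hφ, ← e3_eq]; exact hrel
      rw [h4, norm_zero]
      exact hε0
    · have h5 : (((m + k).factorial : ℕ) : ℝ) ≤ s.factorial := by exact_mod_cast Nat.factorial_le hmk
      have h6 : B ^ (m + k) ≤ B ^ s := pow_le_pow_right₀ hB1 hmk
      have h7 : T ^ (m + k) ≤ T ^ s := pow_le_pow_right₀ hT1 hmk
      have h8 : ((m : ℝ) + k) ≤ s := by exact_mod_cast hmk
      calc ((m : ℝ) + k) * (T ^ (m + k) * ε) * ((((m + k).factorial : ℕ) : ℝ) * B ^ (m + k))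
          ≤ s * (T ^ s * ε) * (s.factorial * B ^ s) := by gcongr
        _ = _ := by rw [hZ₁, hB, mul_pow _ H]; ring
  have hHs : 1 ≤ H ^ s := one_le_pow₀ hH
  have hup : |MvPolynomial.aeval x N| ≤ W * H ^ (g + s) * ε := by
    rw [← hφn, hN]
    have h2 : (Q.map (Int.castRingHom (MvPolynomial ι ℤ))).map φ = Q.map (Int.castRingHom ℂ) := by
      rw [Polynomial.map_map]
      congr 1
      exact RingHom.ext_int _ _
    rw [← resultant_map_map, h2]
    have hZH : 1 ≤ Z₁ * H ^ s := one_le_mul_of_one_le_of_one_le hZ₁1 hHs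
    refine (res_small Q (G.map φ) n l hn.ge (natDegree_map_le.trans hGdeg) (by omega) Y T (Z₁ * H ^ s * ε) hY1
      (fun i => (hQH i).trans hHY) (fun i => ?_) (v : ℂ) hT1 hTv ?_ hGv).trans ?_
    · rw [coeff_map]
      exact (hℓ2 _).trans (hGi i)
    · rw [hcast]
      exact hε2.trans (le_mul_of_one_le_left hε0 hZH)
    · have h5 : (((n + l).factorial : ℕ) : ℝ) ≤ s'.factorial := by exact_mod_cast Nat.factorial_le hnl
      have h6 : Y ^ (n + l) ≤ Y ^ s' := pow_le_pow_right₀ hY1 hnl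
      have h7 : T ^ (n + l) ≤ T ^ s' := pow_le_pow_right₀ hT1 hnl
      have h8 : ((n : ℝ) + l) ≤ s' := by exact_mod_cast hnl
      calc ((n : ℝ) + l) * (T ^ (n + l) * (Z₁ * H ^ s * ε)) * ((((n + l).factorial : ℕ) : ℝ) * Y ^ (n + l))
          ≤ s' * (T ^ s' * (Z₁ * H ^ s * ε)) * (s'.factorial * Y ^ s') := by gcongr
        _ = _ := by
          rw [hW, hY₂, hY, mul_pow _ (H ^ s), ← pow_mul H, pow_add, hg]; ring
  -- conclusion
  have b8 : c₀ * (Y₂ * H ^ g) ^ (-κ₀) ≤ W * H ^ (g + s) * ε := hlow.trans hup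
  have e1 : (Y₂ * H ^ g) ^ (-κ₀) = Y₂ ^ (-κ₀) * H ^ (-(g * κ₀ : ℝ)) := by
    rw [Real.mul_rpow (by linarith) (by positivity), ← Real.rpow_natCast H g, ← Real.rpow_mul hH0.le]
    congr 2
    ring
  have e2 : H ^ (-(g * κ₀ : ℝ)) = H ^ (g + s) * H ^ (-(g * κ₀ + (g + s) : ℝ)) := by
    rw [← Real.rpow_natCast H (g + s), ← Real.rpow_add hH0]
    congr 1
    push_cast
    ring
  have b9 : c₀ * Y₂ ^ (-κ₀) / W * H ^ (-(g * κ₀ + (g + s) : ℝ)) ≤ ε := by
    rw [e1, e2] at b8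
    have h8 : 0 < W * H ^ (g + s) := by positivity
    have h9 : (W * H ^ (g + s)) * (c₀ * Y₂ ^ (-κ₀) / W * H ^ (-(g * κ₀ + (g + s) : ℝ))) ≤ (W * H ^ (g + s)) * ε := by
      calc (W * H ^ (g + s)) * (c₀ * Y₂ ^ (-κ₀) / W * H ^ (-(g * κ₀ + (g + s) : ℝ)))
          = c₀ * (Y₂ ^ (-κ₀) * (H ^ (g + s) * H ^ (-(g * κ₀ + (g + s) : ℝ)))) := by
            field_simp
        _ ≤ _ := b8
    exact le_of_mul_le_mul_left h9 h8
  have e3 : H ^ (-(g * κ₀ + (g + s) + 1 : ℝ)) ≤ H ^ (-(g * κ₀ + (g + s) : ℝ)) :=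
    Real.rpow_le_rpow_of_exponent_le hH (by linarith)
  calc min 1 (c₀ * Y₂ ^ (-κ₀) / W) * H ^ (-(g * κ₀ + (g + s) + 1 : ℝ))
      ≤ c₀ * Y₂ ^ (-κ₀) / W * H ^ (-(g * κ₀ + (g + s) : ℝ)) := by
        gcongr
        exact min_le_right _ _
    _ ≤ ε := b9

end Pool.Agent.N743.SS
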