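import Pool.Agent.N743.SS.MultiT
import Pool.Agent.N743.SS.Pair2
import Pool.Agent.N743.SS.Gomp

/-!
# The numbers `π e^r` and the values of the Mills ratio: joint measures
-/

set_option autoImplicit false

open Filter Topology Set MeasureTheory

namespace Pool.Agent.N743.SS

open Pool.Agent.R352.T Pool.Agent.TH456.TM
open Pool.Agent.R356 (JointR)

/-- the integrals `∫ (1 + s / x)^(-1/2) e^(-s) ds` -/
noncomputable def mil (x : ℝ) : ℝ :=
  ∫ s in Ioi (0 : ℝ), (1 + s / x) ^ (-(1 / 2) : ℝ) * Real.exp (-s)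

lemma mil_eq (x : ℝ) : mil x = ga (1 / 2) 0 x := by
  rw [mil, ga]
  have h : ((1 : ℝ) / 2 - 1) = -(1 / 2) := by norm_num
  simp only [h, pow_zero, mul_one]

lemma mil_pos {x : ℝ} (hx : 0 < x) : 0 < mil x := by
  have hb : ∀ s ∈ Ioi (0 : ℝ), 0 < (1 + s / x) ^ (-(1 / 2) : ℝ) ∧ (1 + s / x) ^ (-(1 / 2) : ℝ) ≤ 1 := by
    intro s hs
    have hs' : (0 : ℝ) < s := hs
    have h1 : 0 < s / x := by positivity
    exact ⟨by positivity, Real.rpow_le_one_of_one_le_of_nonpos (by linarith) (by norm_num)⟩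
  have hint : IntegrableOn (fun s : ℝ => (1 + s / x) ^ (-(1 / 2) : ℝ) * Real.exp (-s)) (Ioi 0) := by
    refine Integrable.mono' (integrableOn_exp_neg_Ioi 0) ?_ ?_
    · refine ContinuousOn.aestronglyMeasurable ?_ measurableSet_Ioi
      refine ContinuousOn.mul (ContinuousOn.rpow_const (by fun_prop) ?_) (by fun_prop)
      intro s hs
      have hs' : (0 : ℝ) < s := hs
      left
      positivity
    · filter_upwards [ae_restrict_mem measurableSet_Ioi] with s hs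
      obtain ⟨h1, h2⟩ := hb s hs
      rw [Real.norm_eq_abs, abs_of_pos (by positivity)]
      have := Real.exp_pos (-s)
      nlinarith
  rw [mil, setIntegral_pos_iff_support_of_nonneg_ae ?_ hint]
  · have h1 : Ioi (0 : ℝ) ⊆ Function.support (fun s : ℝ => (1 + s / x) ^ (-(1 / 2) : ℝ) * Real.exp (-s)) ∩ Ioi 0 := by
      intro s hs
      refine ⟨?_, hs⟩
      rw [Function.mem_support]
      obtain ⟨h2, -⟩ := hb s hs
      positivity
    refine lt_of_lt_of_le ?_ (measure_mono h1)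
    simp
  · filter_upwards [ae_restrict_mem measurableSet_Ioi] with s hs
    obtain ⟨h2, -⟩ := hb s hs
    show (0 : ℝ) ≤ _
    positivity

/-- the basic relation, before squaring -/
lemma mil_sqrt {x : ℝ} (hx : 0 < x) :
    √Real.pi * √x = x * (2 - EA (1 / 2) 1 x) + Real.exp (-x) * mil x := by
  have h := EA_rel (a := 1 / 2) (by norm_num) 0 hx
  rw [NA_zero (by norm_num), Real.Gamma_one_half_eq, ← mil_eq] at h
  simp only [Nat.factorial_zero, Nat.cast_one, one_mul, zero_add, pow_one, pow_zero] at h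
  have h1 : (x : ℝ) ^ ((1 : ℝ) / 2) = √x := by rw [Real.sqrt_eq_rpow]
  have h2 : (x : ℝ) ^ ((1 : ℝ) / 2 - 1) = √x / x := by
    rw [Real.rpow_sub hx, Real.rpow_one, h1]
  rw [h1, h2] at h
  have h6 : √Real.pi = √x * (1 / (1 / 2) - EA (1 / 2) 1 x) + Real.exp (-x) * (√x / x) * mil x := by linarith
  rw [h6]
  have hx0 : x ≠ 0 := hx.ne'
  field_simp
  rw [show √x ^ 2 = x from Real.sq_sqrt hx.le]

/-- the basic relation -/
lemma mil_rel {x : ℝ} (hx : 0 < x) :
    Real.pi * x = (x * (2 - EA (1 / 2) 1 x) + Real.exp (-x) * mil x) ^ 2 := by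
  have h3 : √x * √x = x := Real.mul_self_sqrt hx.le
  have h4 : √Real.pi * √Real.pi = Real.pi := Real.mul_self_sqrt Real.pi_pos.le
  rw [← mil_sqrt hx]
  calc Real.pi * x = (√Real.pi * √Real.pi) * (√x * √x) := by rw [h3, h4]
    _ = _ := by ring

lemma e3_sub {ι : Type} (ψ : ι → ℂ) (α β : ℂ) (a b : Polynomial (Polynomial (MvPolynomial ι ℤ))) :
    e3 ψ α β (a - b) = e3 ψ α β a - e3 ψ α β b := by
  refine eq_sub_of_add_eq ?_
  have h : a - b + b = a := by ring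
  rw [← map_add, h]

lemma e3_add {ι : Type} (ψ : ι → ℂ) (α β : ℂ) (a b : Polynomial (Polynomial (MvPolynomial ι ℤ))) :
    e3 ψ α β (a + b) = e3 ψ α β a + e3 ψ α β b := map_add _ _ _

lemma e3_mul {ι : Type} (ψ : ι → ℂ) (α β : ℂ) (a b : Polynomial (Polynomial (MvPolynomial ι ℤ))) :
    e3 ψ α β (a * b) = e3 ψ α β a * e3 ψ α β b := map_mul _ _ _

lemma e3_pow {ι : Type} (ψ : ι → ℂ) (α β : ℂ) (a : Polynomial (Polynomial (MvPolynomial ι ℤ))) (n : ℕ) :
    e3 ψ α β (a ^ n) = e3 ψ α β a ^ n := map_pow _ _ _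

lemma e3_CC {ι : Type} (ψ : ι → ℂ) (α β : ℂ) (a : MvPolynomial ι ℤ) :
    e3 ψ α β (Polynomial.C (Polynomial.C a)) = MvPolynomial.aeval ψ a := by
  simp [e3]

lemma e3_CX {ι : Type} (ψ : ι → ℂ) (α β : ℂ) :
    e3 ψ α β (Polynomial.C Polynomial.X) = β := by
  simp [e3]

lemma e3_X {ι : Type} (ψ : ι → ℂ) (α β : ℂ) :
    e3 ψ α β Polynomial.X = α := by
  simp [e3]

/-- a common denominator -/
lemma int_of_den (t : ℚ) (q : ℕ) (hq : t.den ∣ q) (hq1 : 1 ≤ q) : ∃ T : ℤ, (T : ℝ) / q = t := by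
  obtain ⟨c, hc⟩ := hq
  have hc0 : (c : ℝ) ≠ 0 := by
    have : c ≠ 0 := by rintro rfl; omega
    exact_mod_cast this
  have hd : (t.den : ℝ) ≠ 0 := by exact_mod_cast t.den_ne_zero
  refine ⟨t.num * c, ?_⟩
  have h3 : ((t : ℚ) : ℝ) = (t.num : ℝ) / (t.den : ℝ) := by exact_mod_cast (Rat.num_div_den t).symm
  rw [hc, h3]
  push_cast
  field_simp

lemma nat_of_den (t : ℚ) (ht : 0 < t) (q : ℕ) (hq : t.den ∣ q) (hq1 : 1 ≤ q) : ∃ m : ℕ, 1 ≤ m ∧ (m : ℝ) / q = t := by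
  obtain ⟨T, hT⟩ := int_of_den t q hq hq1
  have hq0 : (0 : ℝ) < q := by exact_mod_cast hq1
  have ht' : (0 : ℝ) < t := by exact_mod_cast ht
  have hT0 : (0 : ℝ) < T := by
    rw [← hT] at ht'
    by_contra h
    push Not at h
    have := div_nonpos_of_nonpos_of_nonneg h hq0.le
    linarith
  have hT1 : 0 < T := by exact_mod_cast hT0
  refine ⟨T.toNat, by omega, ?_⟩
  have h2 : ((T.toNat : ℕ) : ℝ) = (T : ℝ) := by
    have : ((T.toNat : ℕ) : ℤ) = T := Int.toNat_of_nonneg hT1.le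
    exact_mod_cast this
  rw [h2, hT]

/-- two multiples of the same number -/
theorem joint_exp (z : ℝ) (hz : z ≠ 0) (r r' : ℚ) (hr : r ≠ r') : JointR (Real.exp r * z) (Real.exp r' * z) := by
  obtain ⟨q, hq⟩ : ∃ q, q = r.den * r'.den := ⟨_, rfl⟩
  have hq1 : 1 ≤ q := by
    rw [hq]; exact Nat.one_le_iff_ne_zero.2 (Nat.mul_ne_zero r.den_ne_zero r'.den_ne_zero)
  obtain ⟨R, hR⟩ := int_of_den r q (by rw [hq]; exact dvd_mul_right _ _) hq1
  obtain ⟨R', hR'⟩ := int_of_den r' q (by rw [hq]; exact dvd_mul_left _ _) hq1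
  have hRR : R ≠ R' := by
    rintro rfl
    rw [hR] at hR'
    exact hr (by exact_mod_cast hR')
  have h := joint_same z hz (1 / (q : ℚ)) (by positivity) R R' hRR
  have e : ∀ T : ℤ, (T : ℝ) * ((1 / (q : ℚ) : ℚ) : ℝ) = (T : ℝ) / q := by
    intro T; push_cast; ring
  rwa [e, e, hR, hR'] at h

/-- the value of a power of `exp (-1/q)` -/
lemma W_pow (q : ℕ) (i : ℕ) : Real.exp (-1 / q) ^ i = Real.exp (-(i : ℝ) / q) := by
  rw [← Real.exp_nat_mul]
  congr 1
  ring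

/-- `π e^r` and `e^s R(x)` -/
theorem joint_pi_mil (r s x : ℚ) (hx : 0 < x) : JointR (Real.exp r * Real.pi) (Real.exp s * mil x) := by
  obtain ⟨q, hq⟩ : ∃ q, q = 2 * (x.den * (r.den * s.den)) := ⟨_, rfl⟩
  have hq1 : 1 ≤ q := by
    rw [hq]
    exact Nat.one_le_iff_ne_zero.2 (Nat.mul_ne_zero (by norm_num)
      (Nat.mul_ne_zero x.den_ne_zero (Nat.mul_ne_zero r.den_ne_zero s.den_ne_zero)))
  have hq0 : (q : ℝ) ≠ 0 := by positivity
  obtain ⟨m, hm1, hm⟩ := nat_of_den x hx q (by rw [hq]; exact (dvd_mul_right _ _).mul_left _) hq1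
  obtain ⟨R, hR⟩ := int_of_den r q (by
    rw [hq]; exact ((dvd_mul_right r.den s.den).mul_left _).mul_left _) hq1
  obtain ⟨S, hS⟩ := int_of_den s q (by
    rw [hq]; exact ((dvd_mul_left s.den r.den).mul_left _).mul_left _) hq1
  obtain ⟨h, hh⟩ : ∃ h, h = x.den * (r.den * s.den) := ⟨_, rfl⟩
  have hq2 : q = 2 * h := by rw [hq, hh]
  have hmeas := measM_EA 1 1 (fun _ => m) (fun _ => h) (fun _ _ _ _ => Subsingleton.elim _ _) (fun _ => hm1) hq1
    (fun _ => by omega)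
  obtain ⟨y, hy⟩ : ∃ y : Option (Fin 1 × Fin 1) → ℝ, y = (fun o : Option (Fin 1 × Fin 1) =>
      o.elim (Real.exp (-1 / q)) (fun p => EA ((h : ℝ) / q) (p.1 + 1) ((m : ℝ) / q))) := ⟨_, rfl⟩
  rw [← hy] at hmeas
  obtain ⟨o, ho⟩ : ∃ o : Option (Fin 1 × Fin 1), o = some (0, 0) := ⟨_, rfl⟩
  have hone : o ≠ none := by rw [ho]; exact Option.some_ne_none _
  have hhalf : (h : ℝ) / q = 1 / 2 := by
    rw [hq2]
    push_cast
    have : (h : ℝ) ≠ 0 := by
      have : h ≠ 0 := by omega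
      exact_mod_cast this
    field_simp
  have hyo : y o = EA (1 / 2) 1 x := by
    rw [hy, ho, ← hm, ← hhalf]
    simp
  have hyn : y none = Real.exp (-1 / q) := by rw [hy]; rfl
  obtain ⟨N, hN⟩ : ∃ N : ℕ, N = R.natAbs + S.natAbs := ⟨_, rfl⟩
  obtain ⟨A, hA⟩ : ∃ A : ℕ, (A : ℤ) = 2 * N + R := ⟨(2 * N + R).toNat, by omega⟩
  obtain ⟨B, hB⟩ : ∃ B : ℕ, (B : ℤ) = N + m + S := ⟨(N + m + S).toNat, by omega⟩
  obtain ⟨E, hE⟩ : ∃ E : ℝ, E = EA (1 / 2) 1 x := ⟨_, rfl⟩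
  have hx' : (0 : ℝ) < x := by exact_mod_cast hx
  have hrel := mil_rel hx'
  rw [← hE] at hrel hyo
  -- the polynomial
  obtain ⟨F, hF⟩ : ∃ F : Polynomial (Polynomial (MvPolynomial (Option (Fin 1 × Fin 1)) ℤ)), F =
    Polynomial.C (Polynomial.C (MvPolynomial.C ((m * q : ℕ) : ℤ) * MvPolynomial.X none ^ A)) * Polynomial.X -
      (Polynomial.C (Polynomial.C (MvPolynomial.C (m : ℤ) * (2 - MvPolynomial.X o) * MvPolynomial.X none ^ N)) +
        Polynomial.C (Polynomial.C (MvPolynomial.C (q : ℤ) * MvPolynomial.X none ^ B) * Polynomial.X)) ^ 2 := ⟨_, rfl⟩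
  have hev : ∀ (ψ : Option (Fin 1 × Fin 1) → ℂ) (α β : ℂ), e3 ψ α β F =
      (m * q : ℂ) * ψ none ^ A * α - ((m : ℂ) * (2 - ψ o) * ψ none ^ N + (q : ℂ) * ψ none ^ B * β) ^ 2 := by
    intro ψ α β
    rw [hF]
    simp only [e3_sub, e3_add, e3_mul, e3_pow, Polynomial.C_mul (a := Polynomial.C _), e3_CC, e3_CX, e3_X]
    simp only [map_sub, map_mul, map_pow, map_ofNat, MvPolynomial.aeval_X, eq_intCast, Int.cast_natCast,
      Nat.cast_mul, map_natCast]
  refine jointR_rel y hmeas _ _ F ?_ ?_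
  · rw [hev]
    simp only [hyn, hyo]
    have e0 : Real.exp (-1 / q) ^ A * Real.exp r = Real.exp (-(N : ℝ) / q) ^ 2 := by
      rw [W_pow, ← Real.exp_add, ← Real.exp_nat_mul, ← hR]
      congr 1
      have : (A : ℝ) = 2 * N + R := by exact_mod_cast hA
      rw [this]
      push_cast
      field_simp
      ring
    have e1 : Real.exp (-1 / q) ^ N = Real.exp (-(N : ℝ) / q) := W_pow q N
    have e2 : Real.exp (-1 / q) ^ B * Real.exp s = Real.exp (-(N : ℝ) / q) * Real.exp (-x) := by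
      rw [W_pow, ← Real.exp_add, ← Real.exp_add, ← hS, ← hm]
      congr 1
      have : (B : ℝ) = N + m + S := by exact_mod_cast hB
      rw [this]
      field_simp
      ring
    have e3 : (m : ℝ) = x * q := by rw [← hm]; field_simp
    have key : (m * q : ℝ) * Real.exp (-1 / q) ^ A * (Real.exp r * Real.pi) -
        ((m : ℝ) * (2 - E) * Real.exp (-1 / q) ^ N + (q : ℝ) * Real.exp (-1 / q) ^ B * (Real.exp s * mil x)) ^ 2 = 0 := by
      have f1 : (m * q : ℝ) * Real.exp (-1 / q) ^ A * (Real.exp r * Real.pi) =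
          (m * q : ℝ) * (Real.exp (-1 / q) ^ A * Real.exp r) * Real.pi := by ring
      have f2 : (q : ℝ) * Real.exp (-1 / q) ^ B * (Real.exp s * mil x) =
          (q : ℝ) * (Real.exp (-1 / q) ^ B * Real.exp s) * mil x := by ring
      rw [f1, f2, e0, e1, e2, e3]
      linear_combination (q : ℝ) ^ 2 * Real.exp (-(N : ℝ) / q) ^ 2 * hrel
    exact_mod_cast congrArg (fun z : ℝ => (z : ℂ)) key
  · intro α β _ _
    have hm0 : (m : ℂ) ≠ 0 := by exact_mod_cast (by omega : m ≠ 0)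
    have hq0' : (q : ℂ) ≠ 0 := by exact_mod_cast (by omega : q ≠ 0)
    obtain ⟨t, ht⟩ : ∃ t : ℂ, (m * q : ℂ) * α - t ^ 2 ≠ 0 := by
      by_cases h0 : α = 0
      · exact ⟨1, by rw [h0]; simp⟩
      · exact ⟨0, by simp [h0, hm0, hq0']⟩
    refine ⟨fun o' => if o' = none then 1 else 2 - (t - q * β) / m, ?_⟩
    rw [hev]
    simp only [if_true, if_neg hone, one_pow, mul_one]
    have e4 : (m : ℂ) * (2 - (2 - (t - q * β) / m)) + q * β = t := by field_simp; ring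
    rw [e4]
    exact ht

/-- `e^s R(x)` and `e^s' R(x')` -/
theorem joint_mil_mil (s x s' x' : ℚ) (hx : 0 < x) (hx' : 0 < x') (hne : x ≠ x') :
    JointR (Real.exp s * mil x) (Real.exp s' * mil x') := by
  obtain ⟨q, hq⟩ : ∃ q, q = 2 * ((x.den * x'.den) * (s.den * s'.den)) := ⟨_, rfl⟩
  have hq1 : 1 ≤ q := by
    rw [hq]
    exact Nat.one_le_iff_ne_zero.2 (Nat.mul_ne_zero (by norm_num)
      (Nat.mul_ne_zero (Nat.mul_ne_zero x.den_ne_zero x'.den_ne_zero) (Nat.mul_ne_zero s.den_ne_zero s'.den_ne_zero)))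
  have hq0 : (q : ℝ) ≠ 0 := by positivity
  obtain ⟨m, hm1, hm⟩ := nat_of_den x hx q (by
    rw [hq]; exact (((dvd_mul_right x.den x'.den).mul_right _).mul_left _)) hq1
  obtain ⟨m', hm1', hm'⟩ := nat_of_den x' hx' q (by
    rw [hq]; exact (((dvd_mul_left x'.den x.den).mul_right _).mul_left _)) hq1
  obtain ⟨S, hS⟩ := int_of_den s q (by
    rw [hq]; exact (((dvd_mul_right s.den s'.den).mul_left _).mul_left _)) hq1
  obtain ⟨S', hS'⟩ := int_of_den s' q (by
    rw [hq]; exact (((dvd_mul_left s'.den s.den).mul_left _).mul_left _)) hq1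
  obtain ⟨h, hh⟩ : ∃ h, h = (x.den * x'.den) * (s.den * s'.den) := ⟨_, rfl⟩
  have hq2 : q = 2 * h := by rw [hq, hh]
  have hmm : m ≠ m' := by
    rintro rfl
    rw [hm] at hm'
    exact hne (by exact_mod_cast hm')
  have hmeas := measM_EA 1 2 ![m, m'] (fun _ => h) (fun i i' hii _ => by
      fin_cases i <;> fin_cases i' <;> simp_all) (fun i => by fin_cases i <;> simp_all) hq1
    (fun _ => by omega)
  obtain ⟨y, hy⟩ : ∃ y : Option (Fin 1 × Fin 2) → ℝ, y = (fun o : Option (Fin 1 × Fin 2) =>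
      o.elim (Real.exp (-1 / q)) (fun p => EA ((h : ℝ) / q) (p.1 + 1) (((![m, m'] : Fin 2 → ℕ) p.2 : ℝ) / q))) :=
    ⟨_, rfl⟩
  rw [← hy] at hmeas
  obtain ⟨o, ho⟩ : ∃ o : Option (Fin 1 × Fin 2), o = some (0, 0) := ⟨_, rfl⟩
  obtain ⟨o', ho'⟩ : ∃ o : Option (Fin 1 × Fin 2), o = some (0, 1) := ⟨_, rfl⟩
  have hone : o ≠ none := by rw [ho]; exact Option.some_ne_none _
  have hone' : o' ≠ none := by rw [ho']; exact Option.some_ne_none _
  have hoo : o' ≠ o := by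
    rw [ho, ho']
    simp
  have hhalf : (h : ℝ) / q = 1 / 2 := by
    rw [hq2]
    push_cast
    have : (h : ℝ) ≠ 0 := by
      have : h ≠ 0 := by omega
      exact_mod_cast this
    field_simp
  have hyo : y o = EA (1 / 2) 1 x := by
    rw [hy, ho, ← hm, ← hhalf]
    simp
  have hyo' : y o' = EA (1 / 2) 1 x' := by
    rw [hy, ho', ← hm', ← hhalf]
    simp
  have hyn : y none = Real.exp (-1 / q) := by rw [hy]; rfl
  obtain ⟨N, hN⟩ : ∃ N : ℕ, N = S.natAbs + S'.natAbs := ⟨_, rfl⟩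
  obtain ⟨B, hB⟩ : ∃ B : ℕ, (B : ℤ) = N + m + S := ⟨(N + m + S).toNat, by omega⟩
  obtain ⟨B', hB'⟩ : ∃ B' : ℕ, (B' : ℤ) = N + m' + S' := ⟨(N + m' + S').toNat, by omega⟩
  have hxR : (0 : ℝ) < x := by exact_mod_cast hx
  have hxR' : (0 : ℝ) < x' := by exact_mod_cast hx'
  have hrel := mil_rel hxR
  have hrel' := mil_rel hxR'
  obtain ⟨E, hE⟩ : ∃ E : ℝ, E = EA (1 / 2) 1 x := ⟨_, rfl⟩
  obtain ⟨E', hE'⟩ : ∃ E : ℝ, E = EA (1 / 2) 1 x' := ⟨_, rfl⟩
  rw [← hE] at hrel hyo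
  rw [← hE'] at hrel' hyo'
  obtain ⟨F, hF⟩ : ∃ F : Polynomial (Polynomial (MvPolynomial (Option (Fin 1 × Fin 2)) ℤ)), F =
    Polynomial.C (Polynomial.C (MvPolynomial.C (m' : ℤ))) *
      (Polynomial.C (Polynomial.C (MvPolynomial.C (m : ℤ) * (2 - MvPolynomial.X o) * MvPolynomial.X none ^ N)) +
        Polynomial.C (Polynomial.C (MvPolynomial.C (q : ℤ) * MvPolynomial.X none ^ B)) * Polynomial.X) ^ 2 -
    Polynomial.C (Polynomial.C (MvPolynomial.C (m : ℤ))) *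
      (Polynomial.C (Polynomial.C (MvPolynomial.C (m' : ℤ) * (2 - MvPolynomial.X o') * MvPolynomial.X none ^ N)) +
        Polynomial.C (Polynomial.C (MvPolynomial.C (q : ℤ) * MvPolynomial.X none ^ B') * Polynomial.X)) ^ 2 :=
    ⟨_, rfl⟩
  have hev : ∀ (ψ : Option (Fin 1 × Fin 2) → ℂ) (α β : ℂ), e3 ψ α β F =
      (m' : ℂ) * ((m : ℂ) * (2 - ψ o) * ψ none ^ N + (q : ℂ) * ψ none ^ B * α) ^ 2 -
      (m : ℂ) * ((m' : ℂ) * (2 - ψ o') * ψ none ^ N + (q : ℂ) * ψ none ^ B' * β) ^ 2 := by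
    intro ψ α β
    rw [hF]
    simp only [e3_sub, e3_add, e3_mul, e3_pow, Polynomial.C_mul (a := Polynomial.C _), e3_CC, e3_CX, e3_X]
    simp only [map_sub, map_mul, map_pow, map_ofNat, MvPolynomial.aeval_X, eq_intCast, Int.cast_natCast,
      Nat.cast_mul, map_natCast]
  refine jointR_rel y hmeas _ _ F ?_ ?_
  · rw [hev]
    simp only [hyn, hyo, hyo']
    have e1 : Real.exp (-1 / q) ^ N = Real.exp (-(N : ℝ) / q) := W_pow q N
    have e2 : Real.exp (-1 / q) ^ B * Real.exp s = Real.exp (-(N : ℝ) / q) * Real.exp (-x) := by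
      rw [W_pow, ← Real.exp_add, ← Real.exp_add, ← hS, ← hm]
      congr 1
      have : (B : ℝ) = N + m + S := by exact_mod_cast hB
      rw [this]
      field_simp
      ring
    have e2' : Real.exp (-1 / q) ^ B' * Real.exp s' = Real.exp (-(N : ℝ) / q) * Real.exp (-x') := by
      rw [W_pow, ← Real.exp_add, ← Real.exp_add, ← hS', ← hm']
      congr 1
      have : (B' : ℝ) = N + m' + S' := by exact_mod_cast hB'
      rw [this]
      field_simp
      ring
    have e3 : (m : ℝ) = x * q := by rw [← hm]; field_simp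
    have e3' : (m' : ℝ) = x' * q := by rw [← hm']; field_simp
    have key : (m' : ℝ) * ((m : ℝ) * (2 - E) * Real.exp (-1 / q) ^ N +
          (q : ℝ) * Real.exp (-1 / q) ^ B * (Real.exp s * mil x)) ^ 2 -
        (m : ℝ) * ((m' : ℝ) * (2 - E') * Real.exp (-1 / q) ^ N +
          (q : ℝ) * Real.exp (-1 / q) ^ B' * (Real.exp s' * mil x')) ^ 2 = 0 := by
      have f1 : (q : ℝ) * Real.exp (-1 / q) ^ B * (Real.exp s * mil x) =
          (q : ℝ) * (Real.exp (-1 / q) ^ B * Real.exp s) * mil x := by ring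
      have f2 : (q : ℝ) * Real.exp (-1 / q) ^ B' * (Real.exp s' * mil x') =
          (q : ℝ) * (Real.exp (-1 / q) ^ B' * Real.exp s') * mil x' := by ring
      rw [f1, f2, e1, e2, e2', e3, e3']
      linear_combination (q : ℝ) ^ 3 * Real.exp (-(N : ℝ) / q) ^ 2 * (x * hrel' - x' * hrel)
    exact_mod_cast congrArg (fun z : ℝ => (z : ℂ)) key
  · intro α β _ _
    have hm0 : (m : ℂ) ≠ 0 := by exact_mod_cast (by omega : m ≠ 0)
    have hm0' : (m' : ℂ) ≠ 0 := by exact_mod_cast (by omega : m' ≠ 0)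
    refine ⟨fun p => if p = none then 1 else if p = o then 2 - (1 - q * α) / m else 2 - (0 - q * β) / m', ?_⟩
    rw [hev]
    simp only [if_true, if_neg hone, if_neg hone', if_neg hoo, one_pow, mul_one]
    have e4 : (m : ℂ) * (2 - (2 - (1 - q * α) / m)) + q * α = 1 := by field_simp; ring
    have e5 : (m' : ℂ) * (2 - (2 - (0 - q * β) / m')) + q * β = 0 := by field_simp; ring
    rw [e4, e5]
    simp [hm0']

/-- the numbers `π e^r` and `e^s R(x)` -/
noncomputable def famP : Option ℚ × ℚ → ℝ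
  | (none, r) => Real.exp r * Real.pi
  | (some x, s) => Real.exp s * mil x

/-- all pairs -/
theorem joint_famP (a b : Option ℚ × ℚ) (ha : ∀ x, a.1 = some x → 0 < x) (hb : ∀ x, b.1 = some x → 0 < x)
    (hab : a ≠ b) : JointR (famP a) (famP b) := by
  obtain ⟨a1, r⟩ := a
  obtain ⟨b1, s⟩ := b
  rcases a1 with _ | x <;> rcases b1 with _ | y
  · exact joint_exp Real.pi Real.pi_ne_zero r s (fun h => hab (by rw [h]))
  · exact joint_pi_mil r s y (hb y rfl)
  · exact (joint_pi_mil s r x (ha x rfl)).symm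
  · have hx := ha x rfl
    have hy := hb y rfl
    by_cases hxy : x = y
    · subst hxy
      have hx' : (0 : ℝ) < x := by exact_mod_cast hx
      exact joint_exp (mil x) (mil_pos hx').ne' r s (fun h => hab (by rw [h]))
    · exact joint_mil_mil r x s y hx hy hxy

end Pool.Agent.N743.SS
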