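import Pool.Agent.N743.SS.KG
import Pool.Agent.N743.RatW

/-!
# The numbers `π e^(2x)` and `R(x)`: explicit exponents
-/

set_option autoImplicit false

open PowerSeries MeasureTheory Set

namespace Pool.Agent.N743.SS

open Pool.Agent.R352.T Pool.Agent.Y113
open Pool.Agent.R352.E (TQ_eq)

open scoped Nat

/-- the Mills ratio form -/
theorem mil_mills {x : ℝ} (hx : 0 < x) : mil x = 2 * x * ∫ v in Ioi (0 : ℝ), Real.exp (-(x * (2 * v + v ^ 2))) := by
  obtain ⟨f, hf⟩ : ∃ f : ℝ → ℝ, f = fun v => x * (2 * v + v ^ 2) := ⟨_, rfl⟩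
  have himg : f '' Ioi 0 = Ioi 0 := by
    ext s
    constructor
    · rintro ⟨v, hv, rfl⟩
      have hv' : (0 : ℝ) < v := hv
      show 0 < f v
      rw [hf]
      show 0 < x * (2 * v + v ^ 2)
      positivity
    · intro hs
      have hs' : (0 : ℝ) < s := hs
      have h1 : 1 < √(1 + s / x) := by
        rw [Real.lt_sqrt (by norm_num)]
        have : 0 < s / x := by positivity
        linarith
      refine ⟨√(1 + s / x) - 1, ?_, ?_⟩
      · show 0 < √(1 + s / x) - 1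
        linarith
      · rw [hf]
        show x * (2 * (√(1 + s / x) - 1) + (√(1 + s / x) - 1) ^ 2) = s
        have h2 : √(1 + s / x) ^ 2 = 1 + s / x := Real.sq_sqrt (by positivity)
        have h3 : x * (2 * (√(1 + s / x) - 1) + (√(1 + s / x) - 1) ^ 2) = x * (√(1 + s / x) ^ 2 - 1) := by ring
        rw [h3, h2]
        field_simp
        ring
  have hinj : InjOn f (Ioi 0) := by
    intro a ha b hb hab
    have ha' : (0 : ℝ) < a := ha
    have hb' : (0 : ℝ) < b := hb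
    rw [hf] at hab
    have h1 : x * (2 * a + a ^ 2) = x * (2 * b + b ^ 2) := hab
    have h2 : 2 * a + a ^ 2 = 2 * b + b ^ 2 := mul_left_cancel₀ hx.ne' h1
    have h3 : (a - b) * (2 + a + b) = 0 := by linear_combination h2
    rcases mul_eq_zero.1 h3 with h4 | h4
    · linarith
    · linarith
  have hder : ∀ v ∈ Ioi (0 : ℝ), HasDerivWithinAt f (x * (2 + 2 * v)) (Ioi 0) v := by
    intro v _
    rw [hf]
    have h1 : HasDerivAt (fun v : ℝ => x * (2 * v + v ^ 2)) (x * (2 * 1 + 2 * v)) v := by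
      have h2 : HasDerivAt (fun v : ℝ => v ^ 2) (2 * v) v := by simpa using hasDerivAt_pow 2 v
      exact (((hasDerivAt_id v).const_mul 2).add h2).const_mul x
    rw [mul_one] at h1
    exact h1.hasDerivWithinAt
  have h := integral_image_eq_integral_abs_deriv_smul measurableSet_Ioi hder hinj
    (fun s : ℝ => (1 + s / x) ^ (-(1 / 2) : ℝ) * Real.exp (-s))
  rw [himg] at h
  rw [mil, h, ← integral_const_mul]
  refine setIntegral_congr_fun measurableSet_Ioi fun v hv => ?_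
  have hv' : (0 : ℝ) < v := hv
  rw [hf]
  show |x * (2 + 2 * v)| • ((1 + x * (2 * v + v ^ 2) / x) ^ (-(1 / 2) : ℝ) * Real.exp (-(x * (2 * v + v ^ 2)))) =
    2 * x * Real.exp (-(x * (2 * v + v ^ 2)))
  have e1 : 1 + x * (2 * v + v ^ 2) / x = (1 + v) ^ 2 := by field_simp; ring
  have e2 : ((1 + v) ^ 2 : ℝ) ^ (-(1 / 2) : ℝ) = (1 + v)⁻¹ := by
    rw [← Real.rpow_natCast, ← Real.rpow_mul (by positivity), ← Real.rpow_neg_one]
    congr 1
    norm_num
  rw [e1, e2, abs_of_pos (by positivity), smul_eq_mul]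
  have h0 : (1 + v) ≠ 0 := by positivity
  field_simp

/-- `R(1/2)` -/
theorem mil_half : mil (1 / 2) = ∫ v in Ioi (0 : ℝ), Real.exp (-v - v ^ 2 / 2) := by
  rw [mil_mills (by norm_num), show (2 : ℝ) * (1 / 2) = 1 by norm_num, one_mul]
  congr 1
  funext v
  congr 1
  ring

/-- the sum of the series -/
theorem Gx_half : Gx (1 / 2) = 2 * ∑' k : ℕ, 1 / (((2 * k + 1)‼ : ℕ) : ℝ) := by
  have hD := deriv_GS (c := 1) (m := 1) (q := 2) (by norm_num) (by norm_num)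
  have hq := ev_GS (c := 1) (m := 1) (q := 2) (by norm_num) (by norm_num)
  have hC2 : ((2 : ℕ) : ℚ⟦X⟧) = C (2 : ℚ) := by
    rw [Nat.cast_ofNat]; exact (map_ofNat C 2).symm
  have hco : ∀ k : ℕ, coeff k (GS 1 1 2) = 2 / (((2 * k + 1)‼ : ℕ) : ℚ) := by
    intro k
    induction k with
    | zero =>
      have h0 := congrArg (coeff 0) hD
      rw [TQ_eq, hC2] at h0
      simp at h0
      simp
      linarith
    | succ k ih =>
      have h0 := congrArg (coeff (k + 1)) hD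
      rw [TQ_eq] at h0
      have e1 : coeff (k + 1) (((2 : ℕ) : ℚ⟦X⟧) * X * d⁄dX ℚ (GS 1 1 2)) =
          2 * (coeff (k + 1) (GS 1 1 2) * (k + 1)) := by
        rw [hC2, mul_assoc, coeff_C_mul, coeff_succ_X_mul, coeff_derivative]
      have e2 : coeff (k + 1) (((2 : ℕ) : ℚ⟦X⟧) + (((1 : ℕ) : ℚ⟦X⟧) * X - ((1 : ℕ) : ℚ⟦X⟧)) * GS 1 1 2) =
          coeff k (GS 1 1 2) - coeff (k + 1) (GS 1 1 2) := by
        have h8 : ((1 : ℕ) : ℚ⟦X⟧) = 1 := by simp
        rw [hC2, h8, one_mul, sub_mul, one_mul, map_add, map_sub, coeff_C, if_neg (Nat.succ_ne_zero k), zero_add,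
          coeff_succ_X_mul]
      rw [e1, e2, ih] at h0
      have h9 : (2 * (k + 1) + 1)‼ = (2 * k + 3) * (2 * k + 1)‼ := by
        have : 2 * (k + 1) + 1 = (2 * k + 1) + 2 := by ring
        rw [this, Nat.doubleFactorial_add_two]
      have h10 : (((2 * k + 1)‼ : ℕ) : ℚ) ≠ 0 := by exact_mod_cast (Nat.doubleFactorial_pos _).ne'
      rw [h9]
      push_cast
      have h11 : (2 * (k : ℚ) + 3) ≠ 0 := by positivity
      have h12 : (2 * (k : ℚ) + 3) * coeff (k + 1) (GS 1 1 2) = 2 / (((2 * k + 1)‼ : ℕ) : ℚ) := by linarith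
      rw [eq_div_iff (mul_ne_zero h11 h10)]
      rw [eq_div_iff h10] at h12
      linarith
  have h1 : ev 1 (GS 1 1 2) = ∑' k : ℕ, (2 : ℝ) * (1 / (((2 * k + 1)‼ : ℕ) : ℝ)) := by
    rw [ev]
    refine tsum_congr fun k => ?_
    rw [hco]
    push_cast
    simp
    ring
  rw [tsum_mul_left] at h1
  rw [← h1, hq]
  norm_num

lemma sq_rel {x : ℝ} (hx : 0 < x) : √Real.pi * √x * Real.exp x = x * Gx x + mil x := by
  rw [mil_sqrt hx, Gx, add_mul]
  have h1 : Real.exp (-x) * Real.exp x = 1 := by rw [← Real.exp_add, neg_add_cancel, Real.exp_zero]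
  linear_combination mil x * h1

lemma pi_rel {x : ℝ} (hx : 0 < x) : x * (Real.exp (2 * x) * Real.pi) = (x * Gx x + mil x) ^ 2 := by
  rw [← sq_rel hx]
  have h3 : √x * √x = x := Real.mul_self_sqrt hx.le
  have h4 : √Real.pi * √Real.pi = Real.pi := Real.mul_self_sqrt Real.pi_pos.le
  have h5 : Real.exp x * Real.exp x = Real.exp (2 * x) := by rw [← Real.exp_add]; congr 1; ring
  rw [← h5]
  calc _ = (√Real.pi * √Real.pi) * (√x * √x) * (Real.exp x * Real.exp x) := by rw [h3, h4]; ring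
    _ = _ := by ring

/-- **Ramanujan's formula** -/
theorem ramanujan : √(Real.pi * Real.exp 1 / 2) = ∑' k : ℕ, 1 / (((2 * k + 1)‼ : ℕ) : ℝ) + mil (1 / 2) := by
  have h1 := sq_rel (x := 1 / 2) (by norm_num)
  rw [Gx_half] at h1
  have h2 : √(Real.pi * Real.exp 1 / 2) = √Real.pi * √(1 / 2) * Real.exp (1 / 2) := by
    have h3 := Real.exp_pos (1 / 2)
    have h4 : Real.exp (1 / 2) = √(Real.exp 1) := Real.exp_half 1
    rw [h4, ← Real.sqrt_mul Real.pi_pos.le, ← Real.sqrt_mul (by positivity)]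
    congr 1
    ring
  rw [h2, h1]
  ring

lemma num_den (x : ℚ) (hx : 0 < x) : ∃ m n : ℕ, 1 ≤ m ∧ 1 ≤ n ∧ (x : ℝ) = (m : ℝ) / n := by
  refine ⟨x.num.toNat, x.den, ?_, x.den_pos, ?_⟩
  · have : 0 < x.num := Rat.num_pos.2 hx
    omega
  · have h2 : ((x.num.toNat : ℕ) : ℝ) = (x.num : ℝ) := by
      have : ((x.num.toNat : ℕ) : ℤ) = x.num := Int.toNat_of_nonneg (Rat.num_pos.2 hx).le
      exact_mod_cast this
    rw [h2]
    exact_mod_cast (Rat.num_div_den x).symm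

/-- `√(π x) e^x` and `R(x)` -/
theorem pair_sqrt (x : ℚ) (hx : 0 < x) (ε : ℝ) (hε : 0 < ε) : ∃ C : ℝ, 0 < C ∧ ∀ (p r : ℤ) (q s : ℕ), 0 < q → 0 < s →
    C * ((q : ℝ) * s) ^ (-(2 + ε)) ≤ max |√Real.pi * √(x : ℝ) * Real.exp x - p / q| |mil x - r / s| := by
  obtain ⟨c, hc, hmeas⟩ := measG1 x hx ε hε
  obtain ⟨m, n, hm, hn, hmn⟩ := num_den x hx
  have hx' : (0 : ℝ) < x := by exact_mod_cast hx
  have hrel := sq_rel hx'
  obtain ⟨G, hG⟩ : ∃ G : ℝ, G = Gx x := ⟨_, rfl⟩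
  obtain ⟨u, hu⟩ : ∃ u : ℝ, u = √Real.pi * √(x : ℝ) * Real.exp x := ⟨_, rfl⟩
  obtain ⟨v, hv⟩ : ∃ v : ℝ, v = mil x := ⟨_, rfl⟩
  rw [← hu, ← hv, ← hG] at hrel
  rw [← hG] at hmeas
  rw [← hu, ← hv]
  have hm1 : (1 : ℝ) ≤ m := by exact_mod_cast hm
  have hn1 : (1 : ℝ) ≤ n := by exact_mod_cast hn
  have hu0 := abs_nonneg u
  have hv0 := abs_nonneg v
  obtain ⟨K, hK⟩ : ∃ K : ℝ, K = m + n * (|u| + |v| + 2) := ⟨_, rfl⟩
  have hK0 : 0 < K := by rw [hK]; positivity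
  refine ⟨min 1 (c * K ^ (-(1 + ε)) / (2 * n)), by positivity, fun p r q s hq hs => ?_⟩
  have hq1 : (1 : ℝ) ≤ q := by exact_mod_cast hq
  have hs1 : (1 : ℝ) ≤ s := by exact_mod_cast hs
  have hqs : (1 : ℝ) ≤ (q : ℝ) * s := by nlinarith
  have hqs0 : (0 : ℝ) < (q : ℝ) * s := by linarith
  have hpw : ((q : ℝ) * s) ^ (-(2 + ε)) ≤ 1 := Real.rpow_le_one_of_one_le_of_nonpos hqs (by linarith)
  have hpw0 : 0 < ((q : ℝ) * s) ^ (-(2 + ε)) := by positivity
  obtain ⟨η, hη⟩ : ∃ η : ℝ, η = max |u - p / q| |v - r / s| := ⟨_, rfl⟩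
  have hη1 : |u - p / q| ≤ η := by rw [hη]; exact le_max_left _ _
  have hη2 : |v - r / s| ≤ η := by rw [hη]; exact le_max_right _ _
  rw [← hη]
  by_cases hbig : 1 ≤ η
  · refine le_trans ?_ hbig
    have h1 : min 1 (c * K ^ (-(1 + ε)) / (2 * n)) ≤ 1 := min_le_left _ _
    have h2 : 0 ≤ min 1 (c * K ^ (-(1 + ε)) / (2 * n)) := by positivity
    nlinarith
  · push Not at hbig
    have hpq : |(p : ℝ) / q| ≤ |u| + 1 := by
      have h1 : (p : ℝ) / q = u - (u - p / q) := by ring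
      rw [h1]
      exact (abs_sub _ _).trans (by linarith)
    have hrs : |(r : ℝ) / s| ≤ |v| + 1 := by
      have h1 : (r : ℝ) / s = v - (v - r / s) := by ring
      rw [h1]
      exact (abs_sub _ _).trans (by linarith)
    have e0 : ((n * (r * q - p * s) : ℤ) : ℝ) = n * (q * s) * (r / s - p / q) := by
      push_cast
      field_simp
    have e1 : ((m * (q * s) : ℤ) : ℝ) = m * (q * s) := by push_cast; ring
    have hlow := hmeas ![n * (r * q - p * s), m * (q * s)] (fun h => by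
      have h1 := congrFun h 1
      simp only [Matrix.cons_val_one, Matrix.cons_val_zero, Pi.zero_apply] at h1
      have : (0 : ℤ) < m * (q * s) := by positivity
      omega) (K * (q * s)) (fun i => by
        fin_cases i
        · show |((n * (r * q - p * s) : ℤ) : ℝ)| ≤ _
          rw [e0, abs_mul, abs_of_pos (by positivity)]
          have h1 : |(r : ℝ) / s - p / q| ≤ |u| + |v| + 2 := (abs_sub _ _).trans (by linarith)
          calc (n : ℝ) * (q * s) * |(r : ℝ) / s - p / q| ≤ n * (q * s) * (|u| + |v| + 2) := by gcongr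
            _ ≤ K * (q * s) := by
              rw [hK]
              nlinarith
        · show |((m * (q * s) : ℤ) : ℝ)| ≤ _
          rw [e1, abs_of_pos (by positivity)]
          refine mul_le_mul_of_nonneg_right ?_ hqs0.le
          rw [hK]
          have : (0 : ℝ) ≤ n * (|u| + |v| + 2) := by positivity
          linarith)
    have hval : ((![(n * (r * q - p * s) : ℤ), (m * (q * s) : ℤ)] 0 : ℤ) : ℝ) +
        ((![(n * (r * q - p * s) : ℤ), (m * (q * s) : ℤ)] 1 : ℤ) : ℝ) * G =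
        n * (q * s) * ((u - p / q) - (v - r / s)) := by
      simp only [Matrix.cons_val_one, Matrix.cons_val_zero]
      rw [e0, e1]
      have h1 : u = (m : ℝ) / n * G + v := by rw [hrel, hmn]
      rw [h1]
      field_simp
      ring
    rw [hval] at hlow
    have hup : |(n : ℝ) * (q * s) * ((u - p / q) - (v - r / s))| ≤ (2 * n) * (q * s) * η := by
      rw [abs_mul, abs_of_pos (show (0 : ℝ) < n * (q * s) by positivity)]
      have h1 : |(u - p / q) - (v - r / s)| ≤ 2 * η := (abs_sub _ _).trans (by linarith)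
      calc (n : ℝ) * (q * s) * |(u - p / q) - (v - r / s)| ≤ n * (q * s) * (2 * η) := by gcongr
        _ = _ := by ring
    have hfin := fin_bound hK0 (show (0 : ℝ) < 2 * n by positivity) hqs0 (hlow.trans hup)
    refine le_trans ?_ hfin
    rw [show (1 + ε + 1 : ℝ) = 2 + ε by ring]
    exact mul_le_mul_of_nonneg_right (min_le_right _ _) hpw0.le

/-- `π e^(2x)` and `R(x)` -/
theorem pair_pi (x : ℚ) (hx : 0 < x) (ε : ℝ) (hε : 0 < ε) : ∃ C : ℝ, 0 < C ∧ ∀ (p r : ℤ) (q s : ℕ), 0 < q → 0 < s →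
    C * ((q : ℝ) * (s : ℝ) ^ 2) ^ (-(3 + ε)) ≤ max |Real.exp (2 * x) * Real.pi - p / q| |mil x - r / s| := by
  obtain ⟨c, hc, hmeas⟩ := measG2 x hx ε hε
  obtain ⟨m, n, hm, hn, hmn⟩ := num_den x hx
  have hx' : (0 : ℝ) < x := by exact_mod_cast hx
  have hrel := pi_rel hx'
  obtain ⟨G, hG⟩ : ∃ G : ℝ, G = Gx x := ⟨_, rfl⟩
  obtain ⟨u, hu⟩ : ∃ u : ℝ, u = Real.exp (2 * x) * Real.pi := ⟨_, rfl⟩
  obtain ⟨v, hv⟩ : ∃ v : ℝ, v = mil x := ⟨_, rfl⟩
  rw [← hu, ← hv, ← hG] at hrel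
  rw [← hG] at hmeas
  rw [← hu, ← hv]
  have hm1 : (1 : ℝ) ≤ m := by exact_mod_cast hm
  have hn1 : (1 : ℝ) ≤ n := by exact_mod_cast hn
  have hu0 := abs_nonneg u
  have hv0 := abs_nonneg v
  have hG0 := abs_nonneg G
  obtain ⟨K, hK⟩ : ∃ K : ℝ, K = m ^ 2 + 2 * m * n * (|v| + 1) + n ^ 2 * (|v| + 1) ^ 2 + n * m * (|u| + 1) := ⟨_, rfl⟩
  have hK0 : 0 < K := by rw [hK]; positivity
  obtain ⟨W, hW⟩ : ∃ W : ℝ, W = n ^ 2 * (2 * (x * |G|) + 2 * |v| + 1 + x) := ⟨_, rfl⟩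
  have hW0 : 0 < W := by rw [hW]; positivity
  refine ⟨min 1 (c * K ^ (-(2 + ε)) / W), by positivity, fun p r q s hq hs => ?_⟩
  have hq1 : (1 : ℝ) ≤ q := by exact_mod_cast hq
  have hs1 : (1 : ℝ) ≤ s := by exact_mod_cast hs
  have hss : (1 : ℝ) ≤ (s : ℝ) ^ 2 := one_le_pow₀ hs1
  have hqs : (1 : ℝ) ≤ (q : ℝ) * (s : ℝ) ^ 2 := by nlinarith
  have hqs0 : (0 : ℝ) < (q : ℝ) * (s : ℝ) ^ 2 := by linarith
  have hpw : ((q : ℝ) * (s : ℝ) ^ 2) ^ (-(3 + ε)) ≤ 1 := Real.rpow_le_one_of_one_le_of_nonpos hqs (by linarith)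
  have hpw0 : 0 < ((q : ℝ) * (s : ℝ) ^ 2) ^ (-(3 + ε)) := by positivity
  obtain ⟨η, hη⟩ : ∃ η : ℝ, η = max |u - p / q| |v - r / s| := ⟨_, rfl⟩
  have hη1 : |u - p / q| ≤ η := by rw [hη]; exact le_max_left _ _
  have hη2 : |v - r / s| ≤ η := by rw [hη]; exact le_max_right _ _
  have hη0 : 0 ≤ η := (abs_nonneg _).trans hη1
  rw [← hη]
  by_cases hbig : 1 ≤ η
  · refine le_trans ?_ hbig
    have h1 : min 1 (c * K ^ (-(2 + ε)) / W) ≤ 1 := min_le_left _ _
    have h2 : 0 ≤ min 1 (c * K ^ (-(2 + ε)) / W) := by positivity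
    nlinarith
  · push Not at hbig
    obtain ⟨P, hP⟩ : ∃ P : ℝ, P = (p : ℝ) / q := ⟨_, rfl⟩
    obtain ⟨R, hR⟩ : ∃ R : ℝ, R = (r : ℝ) / s := ⟨_, rfl⟩
    rw [← hP] at hη1
    rw [← hR] at hη2
    have hpq : |P| ≤ |u| + 1 := by
      have h1 : P = u - (u - P) := by ring
      rw [h1]
      exact (abs_sub _ _).trans (by linarith)
    have hrs : |R| ≤ |v| + 1 := by
      have h1 : R = v - (v - R) := by ring
      rw [h1]
      exact (abs_sub _ _).trans (by linarith)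
    have hP0 := abs_nonneg P
    have hR0 := abs_nonneg R
    obtain ⟨D, hD⟩ : ∃ D : ℝ, D = (q : ℝ) * (s : ℝ) ^ 2 := ⟨_, rfl⟩
    rw [← hD] at hqs0 hpw0 ⊢
    have e0 : ((q * n ^ 2 * r ^ 2 - m * n * p * s ^ 2 : ℤ) : ℝ) = D * (n ^ 2 * R ^ 2 - m * n * P) := by
      rw [hD, hP, hR]
      push_cast
      field_simp
    have e1 : ((2 * q * m * n * s * r : ℤ) : ℝ) = D * (2 * m * n * R) := by
      rw [hD, hR]
      push_cast
      field_simp
    have e2 : ((q * m ^ 2 * s ^ 2 : ℤ) : ℝ) = D * m ^ 2 := by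
      rw [hD]
      push_cast
      ring
    obtain ⟨a, ha⟩ : ∃ a : Fin 3 → ℤ, a = ![q * n ^ 2 * r ^ 2 - m * n * p * s ^ 2, 2 * q * m * n * s * r,
      q * m ^ 2 * s ^ 2] := ⟨_, rfl⟩
    have ha0 : (a 0 : ℝ) = D * (n ^ 2 * R ^ 2 - m * n * P) := by rw [ha, ← e0]; rfl
    have ha1 : (a 1 : ℝ) = D * (2 * m * n * R) := by rw [ha, ← e1]; rfl
    have ha2 : (a 2 : ℝ) = D * m ^ 2 := by rw [ha, ← e2]; rfl
    have hKR : n ^ 2 * R ^ 2 ≤ (n : ℝ) ^ 2 * (|v| + 1) ^ 2 := by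
      have : R ^ 2 ≤ (|v| + 1) ^ 2 := by rw [← sq_abs R]; gcongr
      gcongr
    have hlow := hmeas a (fun h => by
      have h1 := congrFun h 2
      rw [h1, Pi.zero_apply, Int.cast_zero] at ha2
      have : (0 : ℝ) < D * m ^ 2 := by positivity
      linarith) (K * D) (fun i => by
        rw [mul_comm K D]
        fin_cases i
        · show |(a 0 : ℝ)| ≤ _
          rw [ha0, abs_mul, abs_of_pos hqs0]
          refine mul_le_mul_of_nonneg_left ?_ hqs0.le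
          refine (abs_sub _ _).trans ?_
          rw [abs_mul, abs_mul (_ * _) P, abs_of_nonneg (show (0 : ℝ) ≤ (n : ℝ) ^ 2 by positivity),
            abs_of_nonneg (show (0 : ℝ) ≤ (m : ℝ) * n by positivity), abs_of_nonneg (sq_nonneg R)]
          have h1 : (m : ℝ) * n * |P| ≤ n * m * (|u| + 1) := by
            calc (m : ℝ) * n * |P| ≤ m * n * (|u| + 1) := by gcongr
              _ = _ := by ring
          have h2 : (0 : ℝ) ≤ (m : ℝ) ^ 2 + 2 * m * n * (|v| + 1) := by positivity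
          rw [hK]
          linarith
        · show |(a 1 : ℝ)| ≤ _
          rw [ha1, abs_mul, abs_of_pos hqs0]
          refine mul_le_mul_of_nonneg_left ?_ hqs0.le
          rw [abs_mul, abs_of_nonneg (show (0 : ℝ) ≤ 2 * m * n by positivity)]
          have h1 : (2 : ℝ) * m * n * |R| ≤ 2 * m * n * (|v| + 1) := by gcongr
          have h2 : (0 : ℝ) ≤ (m : ℝ) ^ 2 := by positivity
          have h3 : (0 : ℝ) ≤ (n : ℝ) ^ 2 * (|v| + 1) ^ 2 + n * m * (|u| + 1) := by positivity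
          rw [hK]
          linarith
        · show |(a 2 : ℝ)| ≤ _
          rw [ha2, abs_mul, abs_of_pos hqs0]
          refine mul_le_mul_of_nonneg_left ?_ hqs0.le
          rw [abs_of_nonneg (show (0 : ℝ) ≤ (m : ℝ) ^ 2 by positivity), hK]
          have h3 : (0 : ℝ) ≤ 2 * m * n * (|v| + 1) + (n : ℝ) ^ 2 * (|v| + 1) ^ 2 + n * m * (|u| + 1) := by positivity
          linarith)
    have hval : (a 0 : ℝ) + a 1 * G + a 2 * G ^ 2 =
        n ^ 2 * D * ((R - v) * (2 * (x * G) + v + R) + x * (u - P)) := by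
      rw [ha0, ha1, ha2]
      have h1 : (n : ℝ) * x = m := by rw [hmn]; field_simp
      rw [← h1]
      linear_combination (-(n : ℝ) ^ 2 * D) * hrel
    rw [hval] at hlow
    have hup : |(n : ℝ) ^ 2 * D * ((R - v) * (2 * (x * G) + v + R) + x * (u - P))| ≤ W * D * η := by
      rw [abs_mul, abs_of_pos (show (0 : ℝ) < n ^ 2 * D by positivity)]
      have h1 : |(R - v) * (2 * (x * G) + v + R) + x * (u - P)| ≤ (2 * (x * |G|) + 2 * |v| + 1 + x) * η := by
        refine (abs_add_le _ _).trans ?_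
        rw [abs_mul, abs_mul, abs_of_pos hx', abs_sub_comm R v]
        have h2 : |2 * (x * G) + v + R| ≤ 2 * (x * |G|) + 2 * |v| + 1 := by
          refine (abs_add_three _ _ _).trans ?_
          rw [abs_mul, abs_mul, abs_of_pos hx', abs_of_pos (show (0 : ℝ) < 2 by norm_num)]
          linarith
        calc |v - R| * |2 * (x * G) + v + R| + x * |u - P|
            ≤ η * (2 * (x * |G|) + 2 * |v| + 1) + x * η := by gcongr
          _ = _ := by ring
      calc (n : ℝ) ^ 2 * D * |(R - v) * (2 * (x * G) + v + R) + x * (u - P)|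
          ≤ n ^ 2 * D * ((2 * (x * |G|) + 2 * |v| + 1 + x) * η) := by gcongr
        _ = _ := by rw [hW]; ring
    have hfin := fin_bound hK0 hW0 hqs0 (hlow.trans hup)
    refine le_trans ?_ hfin
    rw [show (2 + ε + 1 : ℝ) = 3 + ε by ring]
    exact mul_le_mul_of_nonneg_right (min_le_right _ _) hpw0.le

/-- symmetric form -/
lemma pair_of {u v : ℝ} {a b : ℕ} {κ : ℝ} (h : ∃ C : ℝ, 0 < C ∧ ∀ (p r : ℤ) (q s : ℕ), 0 < q → 0 < s →
    C * ((q : ℝ) ^ a * (s : ℝ) ^ b) ^ (-κ) ≤ max |u - p / q| |v - r / s|) :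
    ∃ C : ℝ, 0 < C ∧ ∀ (p r : ℤ) (q s : ℕ), 0 < q → 0 < s →
      C * ((q : ℝ) ^ b * (s : ℝ) ^ a) ^ (-κ) ≤ max |v - p / q| |u - r / s| := by
  obtain ⟨C, hC, h⟩ := h
  refine ⟨C, hC, fun p r q s hq hs => ?_⟩
  have := h r p s q hs hq
  rwa [mul_comm ((s : ℝ) ^ a), max_comm] at this

/-- the dichotomy for a pair -/
theorem dichotomy_pair (u v : ℝ) (a b : ℕ) (ha : 1 ≤ a) (hb : 1 ≤ b) (κ : ℝ) (hκ : 1 ≤ κ)
    (h : ∀ ε : ℝ, 0 < ε → ∃ C : ℝ, 0 < C ∧ ∀ (p r : ℤ) (q s : ℕ), 0 < q → 0 < s →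
      C * ((q : ℝ) ^ a * (s : ℝ) ^ b) ^ (-(κ + ε)) ≤ max |u - p / q| |v - r / s|)
    (θ M : ℝ) (hθ : 0 < θ) (hM1 : 1 < M) (hM : κ * θ * (M + 1) < 1) :
    Dichotomy (fun i => IsRat ((![u, v] : Fin 2 → ℝ) i))
      (fun X i => RatNear (θ / ((![a, b] : Fin 2 → ℕ) i : ℕ)) X ((![u, v] : Fin 2 → ℝ) i)) M := by
  refine dichotomy_ratw ![u, v] ![a, b] (fun i => by fin_cases i <;> assumption) κ hκ (fun i j hij ε hε => ?_) θ M hθ
    hM1 hM
  fin_cases i <;> fin_cases j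
  · exact absurd rfl hij
  · exact h ε hε
  · exact pair_of (h ε hε)
  · exact absurd rfl hij

end Pool.Agent.N743.SS
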