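import Pool.Agent.N743.SS.Gomp
import Pool.Agent.N743.Rat

/-!
# Rational approximations: three numbers
-/

set_option autoImplicit false

open PowerSeries

namespace Pool.Agent.N743.SS

open Pool.Agent.R352.E Pool.Agent.Y113
open Pool.Agent.R356 (RatR)

/-- linear forms in `1`, `e^(-x)`, `E_1(x)` -/
theorem meas3 (x : ℚ) (hx : 0 < x) (ε : ℝ) (hε : 0 < ε) : ∃ c : ℝ, 0 < c ∧ ∀ a : Fin 3 → ℤ, a ≠ 0 → ∀ A : ℝ,
    (∀ i, |(a i : ℝ)| ≤ A) →
    c * A ^ (-(2 + ε)) ≤ |a 0 + a 1 * Real.exp (-x) + a 2 * EE 1 x| := by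
  obtain ⟨m, hm⟩ : ∃ m, m = x.num.toNat := ⟨_, rfl⟩
  obtain ⟨q, hq⟩ : ∃ q, q = x.den := ⟨_, rfl⟩
  obtain ⟨hxe, hm1, hq1⟩ := rat_eq x hx
  rw [← hm, ← hq] at hxe
  rw [← hm] at hm1
  rw [← hq] at hq1
  have hq0 : (q : ℝ) ≠ 0 := by positivity
  have R := real_tw 1 1 (fun _ => m) (fun _ _ _ => Subsingleton.elim _ _) (fun _ => hm1) hq1
  obtain ⟨t, ht⟩ : ∃ t, t = tw 1 1 (fun _ => m) (fun _ _ _ => Subsingleton.elim _ _) (fun _ => hm1) := ⟨_, rfl⟩
  obtain ⟨f, hf⟩ : ∃ f, f = fT 1 1 (fun _ => m) q := ⟨_, rfl⟩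
  have hfw : f t.w = wS q := by rw [ht, hf]; rfl
  obtain ⟨v, hv⟩ : ∃ v : Sg 1 1, v = toLex (Sum.inl (toLex (0, 0))) := ⟨_, rfl⟩
  have hfv : f v = ES 1 ((m : ℚ) / q) := by rw [hf, hv]; rfl
  have hvw : v ≠ t.w := by
    rw [hv, ht]
    intro h
    exact Sum.inl_ne_inr (toLex.injective h)
  have hvz : v ≠ t.z := by
    rw [hv, ht]
    intro h
    exact Sum.inl_ne_inr (toLex.injective h)
  rw [← ht, ← hf] at R
  have hwz : t.w ≠ t.z := ne_of_lt t.hwz
  have hvlt : v < t.w := lt_of_le_of_ne (t.htop v hvz) hvw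
  have hVsum : ∀ s : Sg 1 1 →₀ ℕ, ∑ v' ∈ t.V, s v' = s v := by
    intro s
    refine Finset.sum_eq_single_of_mem v (t.mem_V.2 hvlt) fun b hb hbv => ?_
    exfalso
    apply hbv
    have hb' := t.mem_V.1 hb
    rw [ht] at hb'
    obtain ⟨c, hc⟩ := (lt_w_iff 1 1 b).1 hb'
    rw [hc, hv]
    congr 2
    exact ofLex.injective (Subsingleton.elim _ _)
  haveI : Finite (Idx t m m) := Idx_finite t hm1
  letI : Fintype (Idx t m m) := Fintype.ofFinite _
  -- the three functions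
  have i1 : Finsupp.single t.w m t.z = 0 ∧ Finsupp.single t.w m t.w + m * ∑ v' ∈ t.V, Finsupp.single t.w m v' ≤ m := by
    rw [hVsum, Finsupp.single_eq_same, Finsupp.single_eq_of_ne hwz.symm, Finsupp.single_eq_of_ne hvw]
    omega
  have i2 : Finsupp.single v 1 t.z = 0 ∧ Finsupp.single v 1 t.w + m * ∑ v' ∈ t.V, Finsupp.single v 1 v' ≤ m := by
    rw [hVsum, Finsupp.single_eq_same, Finsupp.single_eq_of_ne hvz.symm, Finsupp.single_eq_of_ne hvw.symm]
    omega
  let g : Fin 3 → Idx t m m := ![⟨0, by simp⟩, ⟨Finsupp.single t.w m, i1⟩, ⟨Finsupp.single v 1, i2⟩]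
  have hg : Function.Injective g := by
    have h01 : (0 : Sg 1 1 →₀ ℕ) ≠ Finsupp.single t.w m := by
      intro h
      have := DFunLike.congr_fun h t.w
      simp at this
      omega
    have h02 : (0 : Sg 1 1 →₀ ℕ) ≠ Finsupp.single v 1 := by
      intro h
      have := DFunLike.congr_fun h v
      simp at this
    have h12 : (Finsupp.single t.w m : Sg 1 1 →₀ ℕ) ≠ Finsupp.single v 1 := by
      intro h
      have := DFunLike.congr_fun h v
      rw [Finsupp.single_eq_of_ne hvw, Finsupp.single_eq_same] at this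
      omega
    intro a b hab
    have hab' := congrArg Subtype.val hab
    fin_cases a <;> fin_cases b <;> first | rfl | skip
    · exact absurd hab' h01
    · exact absurd hab' h02
    · exact absurd hab'.symm h01
    · exact absurd hab' h12
    · exact absurd hab'.symm h02
    · exact absurd hab'.symm h12
  have hLI := (mon_LI R (M := m) (J₀ := m)).comp g hg
  obtain ⟨y, hy⟩ : ∃ y : Fin 3 → ℚ⟦X⟧, y = ![1, wS q ^ m, ES 1 ((m : ℚ) / q)] := ⟨_, rfl⟩
  have hyg : ((fun s : Idx t m m => mon f s.1) ∘ g) = y := by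
    funext i
    rw [hy]
    fin_cases i
    · show mon f 0 = 1
      rw [mon_eq]; simp
    · show mon f (Finsupp.single t.w m) = wS q ^ m
      rw [mon_single, hfw]
    · show mon f (Finsupp.single v 1) = ES 1 ((m : ℚ) / q)
      rw [mon_single, hfv, pow_one]
  rw [hyg] at hLI
  have hEFy : ∀ i, EF (y i) := by
    intro i
    rw [hy]
    fin_cases i
    · exact EF.one
    · exact (EF_wS q hq1).pow _
    · exact EF_ES _ _ _ hq1
  obtain ⟨C, hC, h1, h2⟩ := EF.common (y := y) hEFy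
  have hSys : ESys q C y :=
    { one_le := hC
      hq := hq1
      size := h1
      den := h2
      der := by
        refine ⟨fun i j => (![![0, 0, 0], ![0, -(m : Polynomial ℤ) * Polynomial.X, 0],
          ![(q : Polynomial ℤ), -(q : Polynomial ℤ), 0]] : Fin 3 → Fin 3 → Polynomial ℤ) i j, fun i => ?_⟩
        rw [Fin.sum_univ_three, hy]
        have hps : ∀ n : ℕ, ps (n : Polynomial ℤ) = (n : ℚ⟦X⟧) := fun n => by
          rw [ps, Polynomial.map_natCast]
          exact map_natCast (Polynomial.coeToPowerSeries.ringHom (R := ℚ)) n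
        have hpsn : ∀ P : Polynomial ℤ, ps (-P) = - ps P := fun P => by simp [ps]
        fin_cases i
        · simp [ps_zero]
        · show (TQ q : ℚ⟦X⟧) * d⁄dX ℚ (wS q ^ m) = ps 0 * 1 + ps (-(m : Polynomial ℤ) * Polynomial.X) * wS q ^ m +
            ps 0 * _
          rw [ps_zero, ps_mul, hpsn, hps, ps_X, zero_mul, zero_mul, zero_add, add_zero, Derivation.leibniz_pow]
          obtain ⟨m', rfl⟩ : ∃ m', m = m' + 1 := ⟨m - 1, by omega⟩
          have h3 := deriv_wS hq1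
          simp only [Nat.add_sub_cancel, smul_eq_mul, nsmul_eq_mul]
          calc (TQ q : ℚ⟦X⟧) * (((m' + 1 : ℕ) : ℚ⟦X⟧) * (wS q ^ m' * d⁄dX ℚ (wS q)))
              = ((m' + 1 : ℕ) : ℚ⟦X⟧) * wS q ^ m' * ((TQ q : ℚ⟦X⟧) * d⁄dX ℚ (wS q)) := by ring
            _ = _ := by rw [h3, pow_succ]; ring
        · show (TQ q : ℚ⟦X⟧) * d⁄dX ℚ (ES 1 ((m : ℚ) / q)) = ps (q : Polynomial ℤ) * 1 +
            ps (-(q : Polynomial ℤ)) * wS q ^ m + ps 0 * _
          rw [ps_zero, hpsn, hps, deriv_ES 0, ES_zero]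
          ring }
  obtain ⟨c, hc, h3⟩ := E_meas hSys 0 (by rw [hy]; rfl) hLI ε hε
  refine ⟨c, hc, fun a ha A hA => ?_⟩
  have h4 := h3 a ha A hA
  have e1 : -(((3 : ℕ) : ℝ) - 1 + ε) = -(2 + ε) := by push_cast; ring
  rw [e1] at h4
  refine h4.trans (le_of_eq ?_)
  congr 1
  rw [Fin.sum_univ_three, hy]
  have v0 : ev 1 (1 : ℚ⟦X⟧) = 1 := ev_one
  have v1 : ev 1 (wS q ^ m) = Real.exp (-x) := by
    rw [(EF_wS q hq1).cv.ev_pow one_pos, ev_wS, ← Real.exp_nat_mul, ← hxe]
    congr 1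
    field_simp
  have v2 : ev 1 (ES 1 ((m : ℚ) / q)) = EE 1 x := by rw [ev_ES 1 m q hq1, hxe]
  show (a 0 : ℝ) * ev 1 (1 : ℚ⟦X⟧) + a 1 * ev 1 (wS q ^ m) + a 2 * ev 1 (ES 1 ((m : ℚ) / q)) = _
  rw [v0, v1, v2]
  ring

/-- rational approximations of two numbers in a linear relation -/
theorem ratR_of_lin (x : ℚ) (hx : 0 < x) (u v : ℝ) (P Q R : Fin 3 → ℤ)
    (hrel : (P 0 + Q 0 * u + R 0 * v) + (P 1 + Q 1 * u + R 1 * v) * Real.exp (-x) +
      (P 2 + Q 2 * u + R 2 * v) * EE 1 x = 0)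
    (hne : ∃ c₀ : ℝ, 0 < c₀ ∧ ∀ (p r : ℤ) (q s : ℕ), 0 < q → 0 < s →
      (∀ i, P i * (q * s) + Q i * (p * s) + R i * (q * r) = 0) → c₀ ≤ max |u - p / q| |v - r / s|) : RatR u v := by
  intro ε hε
  obtain ⟨c, hc, hmeas⟩ := meas3 x hx ε hε
  obtain ⟨c₀, hc₀, hne⟩ := hne
  obtain ⟨w, hw⟩ : ∃ w : ℝ, w = Real.exp (-x) := ⟨_, rfl⟩
  obtain ⟨E, hE⟩ : ∃ E : ℝ, E = EE 1 x := ⟨_, rfl⟩
  rw [← hw, ← hE] at hrel
  rw [← hw, ← hE] at hmeas
  obtain ⟨B, hB⟩ : ∃ B : ℝ, B = ∑ i, (|(P i : ℝ)| + |(Q i : ℝ)| + |(R i : ℝ)|) := ⟨_, rfl⟩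
  have hBi : ∀ i, |(P i : ℝ)| + |(Q i : ℝ)| + |(R i : ℝ)| ≤ B := by
    intro i
    rw [hB]
    exact Finset.single_le_sum (f := fun i => |(P i : ℝ)| + |(Q i : ℝ)| + |(R i : ℝ)|) (fun _ _ => by positivity)
      (Finset.mem_univ i)
  have hB0 : 0 ≤ B := le_trans (by positivity) (hBi 0)
  obtain ⟨K, hK⟩ : ∃ K : ℝ, K = (B + 1) * (|u| + |v| + 2) := ⟨_, rfl⟩
  have hK1 : 1 ≤ K := by
    rw [hK]
    have := abs_nonneg u
    have := abs_nonneg v
    nlinarith
  obtain ⟨W, hW⟩ : ∃ W : ℝ, W = (B + 1) * (1 + |w| + |E|) := ⟨_, rfl⟩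
  have hW1 : 1 ≤ W := by
    rw [hW]
    have := abs_nonneg w
    have := abs_nonneg E
    nlinarith
  refine ⟨min (min 1 c₀) (c * K ^ (-(2 + ε)) / W), by positivity, ?_⟩
  intro p r q s hq hs
  have hq1 : (1 : ℝ) ≤ q := by exact_mod_cast hq
  have hs1 : (1 : ℝ) ≤ s := by exact_mod_cast hs
  have hqs : (1 : ℝ) ≤ (q : ℝ) * s := by nlinarith
  have hqs0 : (0 : ℝ) < (q : ℝ) * s := by linarith
  have hpw : ((q : ℝ) * s) ^ (-(3 + ε)) ≤ 1 := Real.rpow_le_one_of_one_le_of_nonpos hqs (by linarith)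
  have hpw0 : 0 < ((q : ℝ) * s) ^ (-(3 + ε)) := by positivity
  obtain ⟨η, hη⟩ : ∃ η : ℝ, η = max |u - p / q| |v - r / s| := ⟨_, rfl⟩
  have hη1 : |u - p / q| ≤ η := by rw [hη]; exact le_max_left _ _
  have hη2 : |v - r / s| ≤ η := by rw [hη]; exact le_max_right _ _
  have hη0 : 0 ≤ η := (abs_nonneg _).trans hη1
  rw [← hη]
  by_cases hbig : min 1 c₀ ≤ η
  · refine le_trans ?_ hbig
    have h1 : min (min 1 c₀) (c * K ^ (-(2 + ε)) / W) ≤ min 1 c₀ := min_le_left _ _
    have h2 : 0 ≤ min (min 1 c₀) (c * K ^ (-(2 + ε)) / W) := by positivity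
    have h3 : 0 ≤ min 1 c₀ := by positivity
    nlinarith
  · push Not at hbig
    have hη_1 : η < 1 := hbig.trans_le (min_le_left _ _)
    have hη_c : η < c₀ := hbig.trans_le (min_le_right _ _)
    obtain ⟨a, ha⟩ : ∃ a : Fin 3 → ℤ, a = fun i => P i * (q * s) + Q i * (p * s) + R i * (q * r) := ⟨_, rfl⟩
    have ha0 : a ≠ 0 := by
      intro h0
      have h1 := hne p r q s hq hs (fun i => by
        have := congrFun h0 i
        rw [ha] at this
        exact this)
      rw [← hη] at h1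
      linarith
    -- numerators
    have hp : |(p : ℝ)| ≤ (|u| + 1) * q := by
      have h1 : (p : ℝ) = (u - (u - p / q)) * q := by field_simp; ring
      rw [h1, abs_mul, abs_of_pos (show (0 : ℝ) < q by linarith)]
      refine mul_le_mul_of_nonneg_right ?_ (by linarith)
      exact (abs_sub _ _).trans (by linarith)
    have hr : |(r : ℝ)| ≤ (|v| + 1) * s := by
      have h1 : (r : ℝ) = (v - (v - r / s)) * s := by field_simp; ring
      rw [h1, abs_mul, abs_of_pos (show (0 : ℝ) < s by linarith)]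
      refine mul_le_mul_of_nonneg_right ?_ (by linarith)
      exact (abs_sub _ _).trans (by linarith)
    have haA : ∀ i, |(a i : ℝ)| ≤ K * ((q : ℝ) * s) := by
      intro i
      rw [ha]
      push_cast
      have e1 : |(P i : ℝ) * (q * s) + Q i * (p * s) + R i * (q * r)| ≤
          |(P i : ℝ)| * (q * s) + |(Q i : ℝ)| * (|(p : ℝ)| * s) + |(R i : ℝ)| * (q * |(r : ℝ)|) := by
        refine (abs_add_three _ _ _).trans (le_of_eq ?_)
        rw [abs_mul, abs_mul, abs_mul, abs_mul, abs_mul, abs_mul, abs_of_pos (show (0 : ℝ) < q by linarith),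
          abs_of_pos (show (0 : ℝ) < s by linarith)]
      have e2 : |(p : ℝ)| * s ≤ (|u| + 1) * (q * s) := by nlinarith
      have e3 : (q : ℝ) * |(r : ℝ)| ≤ (|v| + 1) * (q * s) := by nlinarith
      have hu0 := abs_nonneg u
      have hv0 := abs_nonneg v
      have hP0 := abs_nonneg (P i : ℝ)
      have hQ0 := abs_nonneg (Q i : ℝ)
      have hR0 := abs_nonneg (R i : ℝ)
      calc _ ≤ |(P i : ℝ)| * (q * s) + |(Q i : ℝ)| * (|(p : ℝ)| * s) + |(R i : ℝ)| * (q * |(r : ℝ)|) := e1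
        _ ≤ |(P i : ℝ)| * ((|u| + |v| + 2) * (q * s)) + |(Q i : ℝ)| * ((|u| + |v| + 2) * (q * s)) +
            |(R i : ℝ)| * ((|u| + |v| + 2) * (q * s)) := by
          have f1 : (q : ℝ) * s ≤ (|u| + |v| + 2) * (q * s) := by nlinarith
          have f2 : |(p : ℝ)| * s ≤ (|u| + |v| + 2) * (q * s) := by nlinarith
          have f3 : (q : ℝ) * |(r : ℝ)| ≤ (|u| + |v| + 2) * (q * s) := by nlinarith
          gcongr
        _ = (|(P i : ℝ)| + |(Q i : ℝ)| + |(R i : ℝ)|) * ((|u| + |v| + 2) * (q * s)) := by ring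
        _ ≤ (B + 1) * ((|u| + |v| + 2) * (q * s)) := by
          refine mul_le_mul_of_nonneg_right ?_ (by positivity)
          linarith [hBi i]
        _ = _ := by rw [hK]; ring
    have hlow := hmeas a ha0 _ haA
    -- the value of the form
    have hval : (a 0 : ℝ) + a 1 * w + a 2 * E = -((q : ℝ) * s) * ((Q 0 * (u - p / q) + R 0 * (v - r / s)) +
        (Q 1 * (u - p / q) + R 1 * (v - r / s)) * w + (Q 2 * (u - p / q) + R 2 * (v - r / s)) * E) := by
      have h1 : (a 0 : ℝ) + a 1 * w + a 2 * E = ((q : ℝ) * s) * ((P 0 + Q 0 * (p / q) + R 0 * (r / s)) +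
          (P 1 + Q 1 * (p / q) + R 1 * (r / s)) * w + (P 2 + Q 2 * (p / q) + R 2 * (r / s)) * E) := by
        rw [ha]
        push_cast
        field_simp
      rw [h1]
      linear_combination ((q : ℝ) * s) * hrel
    have hup : |(a 0 : ℝ) + a 1 * w + a 2 * E| ≤ W * ((q : ℝ) * s) * η := by
      rw [hval, abs_mul, abs_neg, abs_of_pos hqs0]
      have e1 : ∀ i, |(Q i : ℝ) * (u - p / q) + R i * (v - r / s)| ≤ (B + 1) * η := by
        intro i
        refine (abs_add_le _ _).trans ?_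
        rw [abs_mul, abs_mul]
        calc |(Q i : ℝ)| * |u - p / q| + |(R i : ℝ)| * |v - r / s|
            ≤ |(Q i : ℝ)| * η + |(R i : ℝ)| * η := by gcongr
          _ = (|(Q i : ℝ)| + |(R i : ℝ)|) * η := by ring
          _ ≤ (B + 1) * η := by
            refine mul_le_mul_of_nonneg_right ?_ hη0
            linarith [hBi i, abs_nonneg (P i : ℝ)]
      have e2 : |(Q 0 * (u - p / q) + R 0 * (v - r / s)) +
          (Q 1 * (u - p / q) + R 1 * (v - r / s)) * w + (Q 2 * (u - p / q) + R 2 * (v - r / s)) * E| ≤ W * η := by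
        refine (abs_add_three _ _ _).trans ?_
        rw [abs_mul, abs_mul]
        calc _ ≤ (B + 1) * η + (B + 1) * η * |w| + (B + 1) * η * |E| := by
              have f0 := e1 0
              have f1 := e1 1
              have f2 := e1 2
              gcongr
          _ = W * η := by rw [hW]; ring
      calc (q : ℝ) * s * |_| ≤ (q : ℝ) * s * (W * η) := mul_le_mul_of_nonneg_left e2 hqs0.le
        _ = _ := by ring
    have hfin : c * (K * ((q : ℝ) * s)) ^ (-(2 + ε)) ≤ W * ((q : ℝ) * s) * η := hlow.trans hup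
    have e3 : (K * ((q : ℝ) * s)) ^ (-(2 + ε)) = K ^ (-(2 + ε)) * (((q : ℝ) * s) * ((q : ℝ) * s) ^ (-(3 + ε))) := by
      rw [Real.mul_rpow (by linarith) hqs0.le]
      congr 1
      conv_rhs => rw [← Real.rpow_one ((q : ℝ) * s), ← Real.rpow_mul hqs0.le, ← Real.rpow_add hqs0]
      congr 1
      ring
    rw [e3] at hfin
    have e4 : c * K ^ (-(2 + ε)) / W * ((q : ℝ) * s) ^ (-(3 + ε)) ≤ η := by
      have h8 : 0 < W * ((q : ℝ) * s) := by positivity
      have h9 : (W * ((q : ℝ) * s)) * (c * K ^ (-(2 + ε)) / W * ((q : ℝ) * s) ^ (-(3 + ε))) ≤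
          (W * ((q : ℝ) * s)) * η := by
        calc _ = c * (K ^ (-(2 + ε)) * (((q : ℝ) * s) * ((q : ℝ) * s) ^ (-(3 + ε)))) := by field_simp
          _ ≤ _ := hfin
      exact le_of_mul_le_mul_left h9 h8
    refine le_trans ?_ e4
    exact mul_le_mul_of_nonneg_right (min_le_right _ _) hpw0.le

/-- `γ + log x`, `e^(-x) δ_1(x)`, `δ_1(x)` -/
noncomputable def three (x : ℝ) : Fin 3 → ℝ := ![mom 1 x, Real.exp (-x) * gom 1 x, gom 1 x]

theorem ratR_three (x : ℚ) (hx : 0 < x) (i j : Fin 3) (hij : i ≠ j) : RatR (three x i) (three x j) := by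
  have hx' : (0 : ℝ) < x := by exact_mod_cast hx
  have hrel := rel 1 hx'
  simp only [Nat.factorial_one, Nat.cast_one, one_mul, pow_one] at hrel
  have h01 : RatR (three x 0) (three x 1) := by
    refine ratR_of_lin x hx _ _ ![0, 0, 1] ![-1, 0, 0] ![-1, 0, 0] ?_ ⟨1, one_pos, fun p r q s hq hs h => ?_⟩
    · simp only [three, Matrix.cons_val_zero, Matrix.cons_val_one, Matrix.cons_val]
      push_cast
      linear_combination (-1 : ℝ) * hrel
    · have h2 := h 2
      simp only [Matrix.cons_val] at h2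
      exfalso
      have : (0 : ℤ) < q * s := by positivity
      omega
  have h02 : RatR (three x 0) (three x 2) := by
    refine ratR_of_lin x hx _ _ ![0, 0, 1] ![-1, 0, 0] ![0, -1, 0] ?_ ⟨1, one_pos, fun p r q s hq hs h => ?_⟩
    · simp only [three, Matrix.cons_val_zero, Matrix.cons_val_one, Matrix.cons_val]
      push_cast
      linear_combination (-1 : ℝ) * hrel
    · have h2 := h 2
      simp only [Matrix.cons_val] at h2
      exfalso
      have : (0 : ℤ) < q * s := by positivity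
      omega
  have h12 : RatR (three x 1) (three x 2) := by
    have hg := gom_pos 1 hx'
    refine ratR_of_lin x hx _ _ ![0, 0, 0] ![1, 0, 0] ![0, -1, 0] ?_ ⟨gom 1 x, hg, fun p r q s hq hs h => ?_⟩
    · simp only [three, Matrix.cons_val_zero, Matrix.cons_val_one, Matrix.cons_val]
      push_cast
      ring
    · have h1 := h 1
      simp only [Matrix.cons_val_one, Matrix.cons_val_zero] at h1
      have hr : r = 0 := by
        have hq0 : (q : ℤ) ≠ 0 := by positivity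
        have : (q : ℤ) * r = 0 := by linarith
        exact (mul_eq_zero.1 this).resolve_left hq0
      refine le_trans ?_ (le_max_right _ _)
      rw [hr]
      simp only [three, Matrix.cons_val, Int.cast_zero, zero_div, sub_zero]
      exact le_abs_self _
  fin_cases i <;> fin_cases j <;> first | (exact absurd rfl hij) | skip
  · exact h01
  · exact h02
  · exact h01.symm
  · exact h12
  · exact h02.symm
  · exact h12.symm

end Pool.Agent.N743.SS
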