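import Pool.Agent.N743.SS.PiK
import Pool.Agent.Y928.PN.Pairs

/-!
# Three numbers, two of which differ by `(4/3) π²`
-/

set_option autoImplicit false

namespace Pool.Agent.N743.SS

/-- the pair with difference `(4/3) π²` -/
theorem pi_diff : ∃ κ : ℝ, 0 ≤ κ ∧ ∀ x y : ℝ, x - y = 4 / 3 * Real.pi ^ 2 → ∃ C : ℝ, 0 < C ∧
    ∀ (a b : ℤ) (q s : ℕ), 0 < q → 0 < s →
      C * ((q : ℝ) * (s : ℝ)) ^ (-(κ + 1)) ≤ max |x - a / q| |y - b / s| := by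
  obtain ⟨κ, c, hκ, hc, h⟩ := Pool.Agent.Y928.PN.pi_pair
  refine ⟨κ, hκ, fun x y hxy => ⟨c, hc, fun a b q s hq hs => ?_⟩⟩
  have hq0 : (0 : ℝ) < q := by exact_mod_cast hq
  have hs0 : (0 : ℝ) < s := by exact_mod_cast hs
  have h1 := h x y hxy (q * s) (Nat.mul_pos hq hs) (a * s) (b * q)
  have e1 : |((q * s : ℕ) : ℝ) * x - ((a * s : ℤ) : ℝ)| = (q * s : ℝ) * |x - a / q| := by
    have e : ((q * s : ℕ) : ℝ) * x - ((a * s : ℤ) : ℝ) = (q * s : ℝ) * (x - a / q) := by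
      push_cast
      field_simp
    rw [e, abs_mul, abs_of_pos (by positivity : (0 : ℝ) < q * s)]
  have e2 : |((q * s : ℕ) : ℝ) * y - ((b * q : ℤ) : ℝ)| = (q * s : ℝ) * |y - b / s| := by
    have e : ((q * s : ℕ) : ℝ) * y - ((b * q : ℤ) : ℝ) = (q * s : ℝ) * (y - b / s) := by
      push_cast
      field_simp
    rw [e, abs_mul, abs_of_pos (by positivity : (0 : ℝ) < q * s)]
  rw [e1, e2, ← mul_max_of_nonneg _ _ (by positivity)] at h1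
  push_cast at h1
  rw [Real.rpow_neg (by positivity), Real.rpow_add (by positivity), Real.rpow_one, ← div_eq_mul_inv,
    div_le_iff₀ (by positivity)]
  linarith

/-- **Three numbers, two of which differ by `(4/3) π²`.** -/
theorem three_pi (κ₀ : ℝ) (hκ₀ : 1 ≤ κ₀) : ∃ κ : ℝ, κ₀ ≤ κ ∧ ∀ x : Fin 3 → ℝ, x 1 - x 2 = 4 / 3 * Real.pi ^ 2 →
    (∃ C : ℝ, 0 < C ∧ ∀ (a b : ℤ) (q s : ℕ), 0 < q → 0 < s →
      C * ((q : ℝ) * (s : ℝ)) ^ (-κ₀) ≤ max |x 0 - a / q| |x 1 - b / s|) →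
    (∃ C : ℝ, 0 < C ∧ ∀ (a b : ℤ) (q s : ℕ), 0 < q → 0 < s →
      C * ((q : ℝ) * (s : ℝ)) ^ (-κ₀) ≤ max |x 0 - a / q| |x 2 - b / s|) →
    ∀ θ M : ℝ, 0 < θ → 1 < M → κ * θ * (M + 1) < 1 →
      Dichotomy (fun i => IsRat (x i)) (fun X i => RatNear θ X (x i)) M := by
  obtain ⟨κ₁, hκ₁, h12⟩ := pi_diff
  refine ⟨max κ₀ (κ₁ + 1), le_max_left _ _, fun x hx h01 h02 θ M hθ hM1 hM => ?_⟩
  -- weaker exponents
  have weak : ∀ (u v κ' : ℝ), κ' ≤ max κ₀ (κ₁ + 1) → (∃ C : ℝ, 0 < C ∧ ∀ (a b : ℤ) (q s : ℕ), 0 < q → 0 < s →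
      C * ((q : ℝ) * (s : ℝ)) ^ (-κ') ≤ max |u - a / q| |v - b / s|) → ∀ ε : ℝ, 0 < ε →
      ∃ C : ℝ, 0 < C ∧ ∀ (a b : ℤ) (q s : ℕ), 0 < q → 0 < s →
      C * ((q : ℝ) ^ 1 * (s : ℝ) ^ 1) ^ (-(max κ₀ (κ₁ + 1) + ε)) ≤ max |u - a / q| |v - b / s| := by
    rintro u v κ' hκ' ⟨C, hC, h⟩ ε hε
    refine ⟨C, hC, fun a b q s hq hs => le_trans ?_ (h a b q s hq hs)⟩
    have hq1 : (1 : ℝ) ≤ q := by exact_mod_cast hq
    have hs1 : (1 : ℝ) ≤ s := by exact_mod_cast hs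
    rw [pow_one, pow_one]
    refine mul_le_mul_of_nonneg_left ?_ hC.le
    exact Real.rpow_le_rpow_of_exponent_le (by nlinarith) (by linarith)
  have swap : ∀ (u v : ℝ) (κ' : ℝ), (∀ ε : ℝ, 0 < ε → ∃ C : ℝ, 0 < C ∧ ∀ (a b : ℤ) (q s : ℕ), 0 < q → 0 < s →
      C * ((q : ℝ) ^ 1 * (s : ℝ) ^ 1) ^ (-(κ' + ε)) ≤ max |u - a / q| |v - b / s|) → ∀ ε : ℝ, 0 < ε →
      ∃ C : ℝ, 0 < C ∧ ∀ (a b : ℤ) (q s : ℕ), 0 < q → 0 < s →
      C * ((q : ℝ) ^ 1 * (s : ℝ) ^ 1) ^ (-(κ' + ε)) ≤ max |v - a / q| |u - b / s| := by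
    intro u v κ' h ε hε
    obtain ⟨C, hC, h1⟩ := h ε hε
    refine ⟨C, hC, fun a b q s hq hs => ?_⟩
    have h2 := h1 b a s q hs hq
    rw [mul_comm ((s : ℝ) ^ 1), max_comm] at h2
    exact h2
  have k01 := weak (x 0) (x 1) κ₀ (le_max_left _ _) h01
  have k02 := weak (x 0) (x 2) κ₀ (le_max_left _ _) h02
  have k12 := weak (x 1) (x 2) (κ₁ + 1) (le_max_right _ _) (h12 _ _ hx)
  have main := dichotomy_ratw x (fun _ => 1) (fun _ => le_rfl) (max κ₀ (κ₁ + 1)) (le_max_of_le_left hκ₀)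
    (fun i j hij => ?_) θ M hθ hM1 hM
  · simpa using main
  · fin_cases i <;> fin_cases j
    · exact absurd rfl hij
    · exact k01
    · exact k02
    · exact swap _ _ _ k01
    · exact absurd rfl hij
    · exact k12
    · exact swap _ _ _ k02
    · exact swap _ _ _ k12
    · exact absurd rfl hij

end Pool.Agent.N743.SS
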