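import Pool.Agent.N743.SS.Meas
import Pool.Agent.R352.E.Sys
import Pool.Agent.R352.E.Val

/-!
# The E-functions `e^(-x) ∑ H_n^(k) x^n / n!`: a measure of linear independence
-/

set_option autoImplicit false

open PowerSeries

namespace Pool.Agent.N743.SS.Zt

open Pool.Agent.R352.E Pool.Agent.Y113

/-- order at `0` -/
lemma ord_lem (P Q : Polynomial ℚ) (c : ℚ)
    (h : P ^ 2 + Polynomial.X * (P * Polynomial.derivative Q - Polynomial.derivative P * Q) +
      Polynomial.C c * Polynomial.X * P * Q = 0) : P = 0 := by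
  by_contra hP
  by_cases hQ : Q = 0
  · rw [hQ] at h
    simp only [Polynomial.derivative_zero, mul_zero, sub_zero, add_zero] at h
    exact hP (pow_eq_zero_iff (two_ne_zero) |>.1 h)
  obtain ⟨P1, hP1, hP1n⟩ := Polynomial.exists_eq_pow_rootMultiplicity_mul_and_not_dvd P hP 0
  obtain ⟨Q1, hQ1, hQ1n⟩ := Polynomial.exists_eq_pow_rootMultiplicity_mul_and_not_dvd Q hQ 0
  obtain ⟨a, ha⟩ : ∃ a, a = P.rootMultiplicity 0 := ⟨_, rfl⟩
  obtain ⟨b, hb⟩ : ∃ b, b = Q.rootMultiplicity 0 := ⟨_, rfl⟩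
  rw [Polynomial.C_0, sub_zero] at hP1 hQ1 hP1n hQ1n
  rw [← ha] at hP1
  rw [← hb] at hQ1
  rw [Polynomial.X_dvd_iff] at hP1n hQ1n
  have hXa : ∀ (n : ℕ) (F : Polynomial ℚ), Polynomial.X * Polynomial.derivative (Polynomial.X ^ n * F) =
      Polynomial.X ^ n * ((n : Polynomial ℚ) * F + Polynomial.X * Polynomial.derivative F) := by
    intro n F
    rw [Polynomial.derivative_mul, Polynomial.derivative_X_pow]
    rcases n with _ | n
    · simp
    · simp only [Nat.add_sub_cancel]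
      rw [pow_succ]
      push_cast
      simp only [map_add, map_natCast, map_one]
      ring
  obtain ⟨B, hB⟩ : ∃ B : Polynomial ℚ, B = P1 * ((b : Polynomial ℚ) * Q1 + Polynomial.X * Polynomial.derivative Q1) -
      ((a : Polynomial ℚ) * P1 + Polynomial.X * Polynomial.derivative P1) * Q1 +
      Polynomial.C c * Polynomial.X * P1 * Q1 := ⟨_, rfl⟩
  have hid : Polynomial.X ^ (2 * a) * P1 ^ 2 + Polynomial.X ^ (a + b) * B = 0 := by
    have e1 : Polynomial.X * (P * Polynomial.derivative Q - Polynomial.derivative P * Q) =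
        P * (Polynomial.X * Polynomial.derivative Q) - (Polynomial.X * Polynomial.derivative P) * Q := by ring
    rw [e1, hP1, hQ1, hXa, hXa] at h
    rw [hB, ← h, two_mul, pow_add, pow_add]
    ring
  have hB0 : B.coeff 0 = ((b : ℚ) - a) * (P1.coeff 0 * Q1.coeff 0) := by
    rw [hB]
    simp only [Polynomial.coeff_add, Polynomial.coeff_sub, Polynomial.mul_coeff_zero, Polynomial.coeff_X_zero,
      Polynomial.coeff_natCast_ite, if_true, zero_mul, mul_zero, add_zero]
    ring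
  have hX : ∀ n : ℕ, (Polynomial.X ^ n : Polynomial ℚ) ≠ 0 := fun n => pow_ne_zero _ Polynomial.X_ne_zero
  rcases le_or_gt a b with hab | hab
  · obtain ⟨d, rfl⟩ : ∃ d, b = a + d := ⟨b - a, by omega⟩
    have h1 : P1 ^ 2 + Polynomial.X ^ d * B = 0 := by
      apply mul_left_cancel₀ (hX (2 * a))
      rw [mul_zero, ← hid, two_mul]
      ring
    have h2 := congrArg (fun F : Polynomial ℚ => F.coeff 0) h1
    simp only [Polynomial.coeff_add, Polynomial.mul_coeff_zero, Polynomial.coeff_zero, pow_two,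
      Polynomial.coeff_X_pow, hB0] at h2
    have h3 : (if 0 = d then (1 : ℚ) else 0) * ((((a + d : ℕ) : ℚ) - a) * (P1.coeff 0 * Q1.coeff 0)) = 0 := by
      by_cases hd : d = 0
      · subst hd; simp
      · rw [if_neg (Ne.symm hd), zero_mul]
    rw [h3, add_zero] at h2
    exact hP1n (mul_self_eq_zero.1 h2)
  · obtain ⟨d, rfl⟩ : ∃ d, a = b + d := ⟨a - b, by omega⟩
    have h1 : Polynomial.X ^ d * P1 ^ 2 + B = 0 := by
      apply mul_left_cancel₀ (hX (2 * b + d))
      rw [mul_zero, ← hid]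
      ring
    have h2 := congrArg (fun F : Polynomial ℚ => F.coeff 0) h1
    simp only [Polynomial.coeff_add, Polynomial.mul_coeff_zero, Polynomial.coeff_zero, Polynomial.coeff_X_pow,
      hB0] at h2
    rw [if_neg (by omega), zero_mul, zero_add] at h2
    have h3 : ((b : ℚ) - ((b + d : ℕ) : ℚ)) ≠ 0 := by
      push_cast
      have : (d : ℚ) ≠ 0 := by exact_mod_cast (by omega : d ≠ 0)
      intro h4
      apply this
      linarith
    exact (mul_ne_zero h3 (mul_ne_zero hP1n hQ1n)) h2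

lemma smul_eq (P : Polynomial ℚ) (F : ℚ⟦X⟧) : P • F = (P : ℚ⟦X⟧) * F := by
  rw [Algebra.smul_def]
  rfl

lemma X_smul (F : ℚ⟦X⟧) : (Polynomial.X : Polynomial ℚ) • F = X * F := by
  rw [smul_eq, Polynomial.coe_X]

/-- the operator `X d/dX` -/
noncomputable def th (F : ℚ⟦X⟧) : ℚ⟦X⟧ := X * d⁄dX ℚ F

lemma th_add (F G : ℚ⟦X⟧) : th (F + G) = th F + th G := by rw [th, th, th, map_add, mul_add]

lemma th_smul (P : Polynomial ℚ) (F : ℚ⟦X⟧) :
    th (P • F) = (Polynomial.X * Polynomial.derivative P) • F + P • th F := by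
  rw [th, th, smul_eq, smul_eq, smul_eq, Derivation.leibniz, PowerSeries.derivative_coe, Polynomial.coe_mul,
    Polynomial.coe_X]
  simp only [smul_eq_mul]
  ring

lemma th_closed (S : Set ℚ⟦X⟧) (h : ∀ F ∈ S, th F ∈ Submodule.span (Polynomial ℚ) S) (F : ℚ⟦X⟧)
    (hF : F ∈ Submodule.span (Polynomial ℚ) S) : th F ∈ Submodule.span (Polynomial ℚ) S := by
  induction hF using Submodule.span_induction with
  | mem x hx => exact h x hx
  | zero =>
    have : th (0 : ℚ⟦X⟧) = 0 := by rw [th, map_zero, mul_zero]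
    rw [this]; exact Submodule.zero_mem _
  | add x y _ _ hx hy => rw [th_add]; exact Submodule.add_mem _ hx hy
  | smul a x hx1 hx => rw [th_smul]; exact Submodule.add_mem _ (Submodule.smul_mem _ _ hx1) (Submodule.smul_mem _ _ hx)

/-- adding an integral -/
lemma step (U : Submodule (Polynomial ℚ) ℚ⟦X⟧) (hU : ∀ u ∈ U, th u ∈ U) (y z : ℚ⟦X⟧) (l m : ℚ)
    (hz : th z + (Polynomial.C l * Polynomial.X) • z ∈ U) (hy : th y = -((Polynomial.C m * Polynomial.X) • y) + z)
    (hzU : ∀ Q : Polynomial ℚ, Q • z ∈ U → Q = 0) (P Q : Polynomial ℚ) (h : P • y + Q • z ∈ U) : P = 0 := by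
  have h1 := hU _ h
  rw [th_add, th_smul, th_smul, hy] at h1
  -- the coefficients
  have h2 : ((Polynomial.X * Polynomial.derivative P - Polynomial.C m * Polynomial.X * P) • y +
      (P + Polynomial.X * Polynomial.derivative Q - Polynomial.C l * Polynomial.X * Q) • z) ∈ U := by
    have h3 := Submodule.sub_mem _ h1 (Submodule.smul_mem _ Q hz)
    convert h3 using 1
    simp only [smul_eq, Polynomial.coe_mul, Polynomial.coe_sub, Polynomial.coe_add, Polynomial.coe_X]
    ring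
  have h3 : (P ^ 2 + Polynomial.X * (P * Polynomial.derivative Q - Polynomial.derivative P * Q) +
      Polynomial.C (m - l) * Polynomial.X * P * Q) • z ∈ U := by
    have h4 := Submodule.sub_mem _ (Submodule.smul_mem _ P h2) (Submodule.smul_mem _
      (Polynomial.X * Polynomial.derivative P - Polynomial.C m * Polynomial.X * P) h)
    convert h4 using 1
    simp only [smul_eq, Polynomial.coe_mul, Polynomial.coe_sub, Polynomial.coe_add, Polynomial.coe_X,
      Polynomial.coe_pow, Polynomial.coe_C, map_sub]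
    ring
  exact ord_lem P Q (m - l) (hzU _ h3)

/-- linear independence from steps -/
lemma LI_of_steps (f : ℕ → ℚ⟦X⟧) (N : ℕ)
    (h : ∀ n < N, ∀ P : Polynomial ℚ, P • f n ∈ Submodule.span (Polynomial ℚ) (f '' Set.Iio n) → P = 0) :
    LinearIndependent (Polynomial ℚ) (fun i : Fin N => f i) := by
  rw [Fintype.linearIndependent_iff]
  intro g hg
  by_contra hcon
  push Not at hcon
  obtain ⟨i, hi⟩ := hcon
  obtain ⟨s, hs⟩ : ∃ s : Finset (Fin N), s = Finset.univ.filter (fun i => g i ≠ 0) := ⟨_, rfl⟩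
  have hne : s.Nonempty := ⟨i, by rw [hs]; simp [hi]⟩
  obtain ⟨j, hj⟩ : ∃ j, j = s.max' hne := ⟨_, rfl⟩
  have hjs : g j ≠ 0 := by
    have := Finset.max'_mem s hne
    rw [← hj, hs] at this
    simpa using this
  have hmax : ∀ k, j < k → g k = 0 := by
    intro k hk
    by_contra hk0
    have h1 : k ∈ s := by rw [hs]; simp [hk0]
    have h2 := Finset.le_max' s k h1
    rw [← hj] at h2
    exact absurd hk (not_lt.2 h2)
  apply hjs
  apply h j j.2
  have h1 : g j • f j = - ∑ k ∈ Finset.univ.erase j, g k • f k := by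
    rw [← Finset.add_sum_erase _ _ (Finset.mem_univ j)] at hg
    exact eq_neg_of_add_eq_zero_left hg
  rw [h1]
  refine Submodule.neg_mem _ (Submodule.sum_mem _ fun k hk => ?_)
  rcases lt_or_gt_of_ne (Finset.ne_of_mem_erase hk) with h2 | h2
  · exact Submodule.smul_mem _ _ (Submodule.subset_span ⟨k, h2, rfl⟩)
  · rw [hmax k h2, zero_smul]
    exact Submodule.zero_mem _

/-! ### the functions -/

/-- `∑_{n ≥ 1} x^n / (n! n^s) X^n` -/
noncomputable def B (x : ℚ) (s : ℕ) : ℚ⟦X⟧ :=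
  PowerSeries.mk fun n => if n = 0 then 0 else x ^ n / (n.factorial * (n : ℚ) ^ s)

/-- `∑ H_n^(k) x^n / n! X^n` -/
noncomputable def A (x : ℚ) (k : ℕ) : ℚ⟦X⟧ :=
  PowerSeries.mk fun n => (∑ j ∈ Finset.range n, 1 / ((j : ℚ) + 1) ^ k) * x ^ n / n.factorial

lemma th_B (x : ℚ) (s : ℕ) : th (B x (s + 1)) = B x s := by
  ext n
  rw [th]
  rcases n with _ | n
  · simp [B]
  · rw [coeff_succ_X_mul, coeff_derivative, B, B, coeff_mk, coeff_mk, if_neg (Nat.succ_ne_zero n),
      if_neg (Nat.succ_ne_zero n)]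
    have h1 : ((n : ℚ) + 1) ≠ 0 := by positivity
    push_cast
    field_simp
    ring

lemma th_A (x : ℚ) (k : ℕ) : th (A x (k + 1)) = (Polynomial.C x * Polynomial.X) • A x (k + 1) + B x k := by
  rw [smul_eq, Polynomial.coe_mul, Polynomial.coe_C, Polynomial.coe_X, mul_assoc]
  ext n
  rw [th, map_add, coeff_C_mul]
  rcases n with _ | n
  · simp [B]
  · rw [coeff_succ_X_mul, coeff_succ_X_mul, coeff_derivative, B, A, coeff_mk, coeff_mk, coeff_mk,
      if_neg (Nat.succ_ne_zero n), Finset.sum_range_succ, Nat.factorial_succ]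
    have h1 : ((n : ℚ) + 1) ≠ 0 := by positivity
    have h2 : (n.factorial : ℚ) ≠ 0 := by positivity
    push_cast
    field_simp
    ring

variable {m q : ℕ}

lemma th_W (hq : 1 ≤ q) : th (wS q ^ m) = -((Polynomial.C ((m : ℚ) / q) * Polynomial.X) • wS q ^ m) := by
  have hq0 : (q : ℚ) ≠ 0 := by exact_mod_cast (by omega : q ≠ 0)
  rw [smul_eq, Polynomial.coe_mul, Polynomial.coe_C, Polynomial.coe_X]
  ext n
  rw [th, map_neg, mul_assoc, coeff_C_mul]
  rcases n with _ | n
  · simp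
  · rw [coeff_succ_X_mul, coeff_succ_X_mul, coeff_derivative, coeff_wS_pow, coeff_wS_pow, Nat.factorial_succ]
    have h1 : ((n : ℚ) + 1) ≠ 0 := by positivity
    have h2 : (n.factorial : ℚ) ≠ 0 := by positivity
    push_cast
    rw [pow_succ]
    field_simp

lemma th_mul (F G : ℚ⟦X⟧) : th (F * G) = th F * G + F * th G := by
  rw [th, th, th, Derivation.leibniz]
  simp only [smul_eq_mul]
  ring

lemma W_B0 (_hq : 1 ≤ q) : wS q ^ m * B ((m : ℚ) / q) 0 = 1 - wS q ^ m := by
  have h1 : B ((m : ℚ) / q) 0 = rescale ((m : ℚ) / q) (PowerSeries.exp ℚ) - 1 := by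
    ext n
    rw [B, coeff_mk, map_sub, coeff_rescale, coeff_exp, coeff_one]
    rcases n with _ | n
    · simp
    · rw [if_neg (Nat.succ_ne_zero n), if_neg (Nat.succ_ne_zero n), pow_zero, mul_one, sub_zero]
      simp [div_eq_mul_inv]
  rw [h1, mul_sub, mul_one, wS_pow]
  have h2 : rescale (-(m : ℚ) / q) (PowerSeries.exp ℚ) * rescale ((m : ℚ) / q) (PowerSeries.exp ℚ) = 1 := by
    rw [exp_mul_exp_eq_exp_add]
    have : -(m : ℚ) / q + m / q = 0 := by ring
    rw [this, rescale_zero]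
    simp
  rw [h2]

/-- the functions `1, 1 - e^(-x), …` -/
noncomputable def fn (m q k : ℕ) (n : ℕ) : ℚ⟦X⟧ :=
  if n = 0 then 1 else if n ≤ k then wS q ^ m * B ((m : ℚ) / q) (n - 1) else wS q ^ m * A ((m : ℚ) / q) k

lemma fn_zero (k : ℕ) : fn m q k 0 = 1 := by simp [fn]

lemma fn_mid (k s : ℕ) (hs : s < k) : fn m q k (s + 1) = wS q ^ m * B ((m : ℚ) / q) s := by
  rw [fn, if_neg (Nat.succ_ne_zero s), if_pos (show s + 1 ≤ k from hs), Nat.add_sub_cancel]

lemma fn_last (k : ℕ) : fn m q k (k + 1) = wS q ^ m * A ((m : ℚ) / q) k := by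
  rw [fn, if_neg (Nat.succ_ne_zero k), if_neg (by omega)]

lemma th_fn_one (hq : 1 ≤ q) (k : ℕ) (hk : 1 ≤ k) : th (fn m q k 1) =
    -((Polynomial.C ((m : ℚ) / q) * Polynomial.X) • fn m q k 1) +
      (Polynomial.C ((m : ℚ) / q) * Polynomial.X) • fn m q k 0 := by
  rw [fn_mid k 0 hk, W_B0 hq, fn_zero]
  have h1 : th (1 - wS q ^ m : ℚ⟦X⟧) = - th (wS q ^ m) := by
    rw [th, th, map_sub]
    have : d⁄dX ℚ (1 : ℚ⟦X⟧) = 0 := Derivation.map_one_eq_zero _
    rw [this]
    ring
  rw [h1, th_W hq, smul_sub]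
  ring

lemma th_fn_mid (hq : 1 ≤ q) (k s : ℕ) (hs : s + 1 < k) : th (fn m q k (s + 2)) =
    -((Polynomial.C ((m : ℚ) / q) * Polynomial.X) • fn m q k (s + 2)) + fn m q k (s + 1) := by
  rw [fn_mid k (s + 1) hs, fn_mid k s (by omega), th_mul, th_W hq, th_B]
  simp only [smul_eq]
  ring

lemma th_fn_last (hq : 1 ≤ q) (k : ℕ) : th (fn m q (k + 1) (k + 2)) = fn m q (k + 1) (k + 1) := by
  rw [fn_last (k + 1), fn_mid (k + 1) k (by omega), th_mul, th_W hq, th_A]
  simp only [smul_eq]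
  ring

/-- the exponential function is not rational -/
lemma exp_lem (hm : 1 ≤ m) (hq : 1 ≤ q) (P R : Polynomial ℚ) (h : P • wS q ^ m = (R : ℚ⟦X⟧)) : P = 0 := by
  by_contra hP
  have hm0 : (m : ℚ) ≠ 0 := by exact_mod_cast (by omega : m ≠ 0)
  have hq0 : (q : ℚ) ≠ 0 := by exact_mod_cast (by omega : q ≠ 0)
  have h1 := congrArg th h
  rw [th_smul, th_W hq] at h1
  have h2 : th ((R : ℚ⟦X⟧)) = ((Polynomial.X * Polynomial.derivative R : Polynomial ℚ) : ℚ⟦X⟧) := by
    rw [th, PowerSeries.derivative_coe, Polynomial.coe_mul, Polynomial.coe_X]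
  rw [h2] at h1
  -- multiply by `P`
  have h3 : ((Polynomial.X * (Polynomial.derivative P * R - P * Polynomial.derivative R) -
      Polynomial.C ((m : ℚ) / q) * Polynomial.X * P * R : Polynomial ℚ) : ℚ⟦X⟧) = 0 := by
    simp only [smul_eq, Polynomial.coe_mul, Polynomial.coe_sub, Polynomial.coe_X, Polynomial.coe_C] at h h1 ⊢
    linear_combination (P : ℚ⟦X⟧) * h1 - (X * (Polynomial.derivative P : ℚ⟦X⟧) - C ((m : ℚ) / q) * X * (P : ℚ⟦X⟧)) * h
  have h4 : Polynomial.X * (Polynomial.derivative P * R - P * Polynomial.derivative R) -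
      Polynomial.C ((m : ℚ) / q) * Polynomial.X * P * R = 0 := by
    apply Polynomial.coe_injective
    rw [h3, Polynomial.coe_zero]
  have hR : R ≠ 0 := by
    intro hR
    rw [hR, Polynomial.coe_zero, smul_eq] at h
    rcases mul_eq_zero.1 h with h5 | h5
    · exact hP (Polynomial.coe_injective ℚ (by rw [h5, Polynomial.coe_zero]))
    · exact pow_ne_zero _ (wS_ne q) h5
  have h5 : Polynomial.derivative P * R - P * Polynomial.derivative R = Polynomial.C ((m : ℚ) / q) * (P * R) := by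
    apply mul_left_cancel₀ Polynomial.X_ne_zero
    linear_combination h4
  have h6 := congrArg Polynomial.degree h5
  rw [Polynomial.degree_C_mul (div_ne_zero hm0 hq0), Polynomial.degree_mul] at h6
  have h7 : (Polynomial.derivative P * R - P * Polynomial.derivative R).degree < P.degree + R.degree := by
    refine (Polynomial.degree_sub_le _ _).trans_lt (max_lt ?_ ?_)
    · rw [Polynomial.degree_mul]
      exact WithBot.add_lt_add_right (by rwa [Ne, Polynomial.degree_eq_bot]) (Polynomial.degree_derivative_lt hP)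
    · rw [Polynomial.degree_mul]
      exact WithBot.add_lt_add_left (by rwa [Ne, Polynomial.degree_eq_bot]) (Polynomial.degree_derivative_lt hR)
  rw [h6] at h7
  exact lt_irrefl _ h7

lemma steps (hm : 1 ≤ m) (hq : 1 ≤ q) (k : ℕ) (hk : 1 ≤ k) : ∀ n < k + 2, ∀ P : Polynomial ℚ,
    P • fn m q k n ∈ Submodule.span (Polynomial ℚ) (fn m q k '' Set.Iio n) → P = 0 := by
  intro n
  induction n with
  | zero =>
    intro _ P hP
    rw [fn_zero, show Set.Iio 0 = (∅ : Set ℕ) by ext i; simp, Set.image_empty, Submodule.span_empty,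
      Submodule.mem_bot, smul_eq, mul_one] at hP
    exact Polynomial.coe_injective ℚ (by rw [hP, Polynomial.coe_zero])
  | succ n ih =>
    intro hn P hP
    have hprev := ih (by omega)
    have hset : Set.Iio (n + 1) = insert n (Set.Iio n) := by
      ext i
      simp only [Set.mem_Iio, Set.mem_insert_iff]
      omega
    rcases n with _ | n
    · -- the function `1 - e^(-x)`
      have h1 : Set.Iio (0 + 1) = ({0} : Set ℕ) := by ext i; simp
      rw [h1, Set.image_singleton, Submodule.mem_span_singleton, fn_zero] at hP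
      obtain ⟨Q, hQ⟩ := hP
      rw [zero_add, fn_mid k 0 hk, W_B0 hq] at hQ
      refine exp_lem hm hq P (P - Q) ?_
      rw [smul_eq] at hQ ⊢
      rw [smul_eq, mul_one] at hQ
      rw [Polynomial.coe_sub]
      linear_combination hQ
    · rw [hset, Set.image_insert_eq, Submodule.mem_span_insert] at hP
      obtain ⟨Q, u, hu, hQ⟩ := hP
      obtain ⟨U, hU⟩ : ∃ U, U = Submodule.span (Polynomial ℚ) (fn m q k '' Set.Iio (n + 1)) := ⟨_, rfl⟩
      rw [← hU] at hu hprev
      have hmem : ∀ i, i < n + 1 → fn m q k i ∈ U := by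
        intro i hi
        rw [hU]
        exact Submodule.subset_span ⟨i, hi, rfl⟩
      have hcl : ∀ u ∈ U, th u ∈ U := by
        rw [hU]
        refine th_closed _ ?_
        rw [← hU]
        rintro F ⟨i, hi, rfl⟩
        have hi' : i < n + 1 := hi
        rcases i with _ | i
        · rw [fn_zero]
          have : th (1 : ℚ⟦X⟧) = 0 := by rw [th, Derivation.map_one_eq_zero, mul_zero]
          rw [this]; exact Submodule.zero_mem _
        · rcases i with _ | i
          · rw [th_fn_one hq k hk]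
            exact Submodule.add_mem _ (Submodule.neg_mem _ (Submodule.smul_mem _ _ (hmem 1 (by omega))))
              (Submodule.smul_mem _ _ (hmem 0 (by omega)))
          · rw [th_fn_mid hq k i (by omega)]
            exact Submodule.add_mem _ (Submodule.neg_mem _ (Submodule.smul_mem _ _ (hmem _ (by omega))))
              (hmem _ (by omega))
      -- the derivative of the previous function
      have hz : th (fn m q k (n + 1)) + (Polynomial.C ((m : ℚ) / q) * Polynomial.X) • fn m q k (n + 1) ∈ U := by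
        rcases n with _ | n
        · rw [th_fn_one hq k hk]
          have : -((Polynomial.C ((m : ℚ) / q) * Polynomial.X) • fn m q k 1) +
              (Polynomial.C ((m : ℚ) / q) * Polynomial.X) • fn m q k 0 +
              (Polynomial.C ((m : ℚ) / q) * Polynomial.X) • fn m q k 1 =
              (Polynomial.C ((m : ℚ) / q) * Polynomial.X) • fn m q k 0 := by ring
          rw [zero_add, this]
          exact Submodule.smul_mem _ _ (hmem 0 (by omega))
        · rw [th_fn_mid hq k n (by omega)]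
          have : -((Polynomial.C ((m : ℚ) / q) * Polynomial.X) • fn m q k (n + 2)) + fn m q k (n + 1) +
              (Polynomial.C ((m : ℚ) / q) * Polynomial.X) • fn m q k (n + 2) = fn m q k (n + 1) := by ring
          rw [this]
          exact hmem _ (by omega)
      have hy : ∃ μ : ℚ, th (fn m q k (n + 1 + 1)) =
          -((Polynomial.C μ * Polynomial.X) • fn m q k (n + 1 + 1)) + fn m q k (n + 1) := by
        by_cases hlt : n + 1 < k
        · exact ⟨(m : ℚ) / q, th_fn_mid hq k n hlt⟩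
        · obtain rfl : k = n + 1 := by omega
          refine ⟨0, ?_⟩
          rw [th_fn_last hq n, Polynomial.C_0, zero_mul, zero_smul, neg_zero, zero_add]
      obtain ⟨μ, hy⟩ := hy
      refine step U hcl (fn m q k (n + 1 + 1)) (fn m q k (n + 1)) ((m : ℚ) / q) μ hz hy hprev P (-Q) ?_
      rw [hQ, neg_smul]
      have : Q • fn m q k (n + 1) + u + -(Q • fn m q k (n + 1)) = u := by ring
      rw [this]
      exact hu

/-! ### arithmetic conditions and values -/

lemma EF_B (x s q : ℕ) (hq : 1 ≤ q) : EF (B ((x : ℚ) / q) s) := by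
  have hq1 : (1 : ℝ) ≤ q := by exact_mod_cast hq
  have hq0 : (q : ℚ) ≠ 0 := by exact_mod_cast (by omega : q ≠ 0)
  have hcf : ∀ n, cf n (B ((x : ℚ) / q) s) = if n = 0 then 0 else ((x : ℚ) / q) ^ n / (n : ℚ) ^ s := by
    intro n
    rw [cf, B, coeff_mk]
    have : (n.factorial : ℚ) ≠ 0 := by exact_mod_cast n.factorial_ne_zero
    split_ifs
    · rw [mul_zero]
    · field_simp
  set C : ℝ := (x + 1) * q * (2 ^ 8) ^ s with hC
  have hb1 : (1 : ℝ) ≤ (2 ^ 8 : ℝ) ^ s := one_le_pow₀ (by norm_num)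
  have ha1 : (1 : ℝ) ≤ (x : ℝ) + 1 := by linarith [show (0 : ℝ) ≤ x by positivity]
  have haq : (1 : ℝ) ≤ (x + 1) * q := one_le_mul_of_one_le_of_one_le ha1 hq1
  have hC1 : 1 ≤ C := one_le_mul_of_one_le_of_one_le haq hb1
  refine ⟨C, hC1, fun n => ?_, fun n => ⟨q ^ n * Nat.lcmUpto n ^ s, ?_, ?_, fun j hj => ?_⟩⟩
  · rw [hcf]
    split_ifs with h
    · simp only [Rat.cast_zero, abs_zero]; positivity
    · push_cast
      rw [abs_div, abs_pow, abs_div, Nat.abs_cast, Nat.abs_cast, abs_pow, Nat.abs_cast]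
      have hm1 : (1 : ℝ) ≤ (n : ℝ) ^ s := one_le_pow₀ (by exact_mod_cast Nat.pos_of_ne_zero h)
      refine (div_le_self (by positivity) hm1).trans ?_
      have h2 : (x : ℝ) / q ≤ C := by
        calc (x : ℝ) / q ≤ x := div_le_self (by positivity) hq1
          _ ≤ (x + 1) * q := by nlinarith
          _ ≤ C := le_mul_of_one_le_right (by positivity) hb1
      calc ((x : ℝ) / q) ^ n ≤ C ^ n := pow_le_pow_left₀ (by positivity) h2 n
        _ ≤ C ^ (n + 1) := pow_le_pow_right₀ hC1 (by omega)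
  · exact Nat.mul_pos (by positivity) (pow_pos (Nat.lcmUpto_pos n) _)
  · push_cast
    have h2 : (Nat.lcmUpto n : ℝ) ^ s ≤ ((2 ^ 8 : ℝ) ^ s) ^ n := by
      rw [← pow_mul, mul_comm s n, pow_mul]
      exact pow_le_pow_left₀ (by positivity) (lcm_bound n) s
    calc (q : ℝ) ^ n * (Nat.lcmUpto n : ℝ) ^ s ≤ ((x + 1) * q) ^ n * ((2 ^ 8 : ℝ) ^ s) ^ n := by
          refine mul_le_mul ?_ h2 (by positivity) (by positivity)
          exact pow_le_pow_left₀ (by positivity) (le_mul_of_one_le_left (by positivity) ha1) n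
      _ = C ^ n := by rw [hC, mul_pow (((x : ℝ) + 1) * q)]
      _ ≤ C ^ (n + 1) := pow_le_pow_right₀ hC1 (by omega)
  · rw [hcf]
    split_ifs with h
    · exact ⟨0, by simp⟩
    · have hd : j ∣ Nat.lcmUpto n := Finset.dvd_lcm (f := id) (Finset.mem_Icc.2 ⟨by omega, hj⟩)
      obtain ⟨c, hc⟩ := hd
      refine ⟨(x : ℤ) ^ j * (q : ℤ) ^ (n - j) * (c : ℤ) ^ s, ?_⟩
      have hj0 : (j : ℚ) ≠ 0 := by exact_mod_cast h
      have h3 : (q : ℚ) ^ n = q ^ (n - j) * q ^ j := by rw [← pow_add]; congr 1; omega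
      push_cast
      rw [hc]
      push_cast
      rw [h3, mul_pow, div_pow]
      field_simp

lemma EF_A (x k q : ℕ) (hq : 1 ≤ q) : EF (A ((x : ℚ) / q) k) := by
  have hq1 : (1 : ℝ) ≤ q := by exact_mod_cast hq
  have hq0 : (q : ℚ) ≠ 0 := by exact_mod_cast (by omega : q ≠ 0)
  have hcf : ∀ n, cf n (A ((x : ℚ) / q) k) = (∑ j ∈ Finset.range n, 1 / ((j : ℚ) + 1) ^ k) * ((x : ℚ) / q) ^ n := by
    intro n
    rw [cf, A, coeff_mk]
    have : (n.factorial : ℚ) ≠ 0 := by exact_mod_cast n.factorial_ne_zero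
    field_simp
  set C : ℝ := 2 * ((x + 1) * q) * (2 ^ 8) ^ k with hC
  have hb1 : (1 : ℝ) ≤ (2 ^ 8 : ℝ) ^ k := one_le_pow₀ (by norm_num)
  have ha1 : (1 : ℝ) ≤ (x : ℝ) + 1 := by linarith [show (0 : ℝ) ≤ x by positivity]
  have haq : (1 : ℝ) ≤ (x + 1) * q := one_le_mul_of_one_le_of_one_le ha1 hq1
  have haq2 : (1 : ℝ) ≤ 2 * ((x + 1) * q) := by linarith
  have hC1 : 1 ≤ C := one_le_mul_of_one_le_of_one_le haq2 hb1
  refine ⟨C, hC1, fun n => ?_, fun n => ⟨q ^ n * Nat.lcmUpto n ^ k, ?_, ?_, fun j hj => ?_⟩⟩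
  · rw [hcf]
    push_cast
    rw [abs_mul, abs_pow, abs_div, Nat.abs_cast, Nat.abs_cast]
    have h1 : |∑ j ∈ Finset.range n, 1 / ((j : ℝ) + 1) ^ k| ≤ 2 ^ n := by
      refine (Finset.abs_sum_le_sum_abs _ _).trans ?_
      have h2 : ∀ j ∈ Finset.range n, |1 / ((j : ℝ) + 1) ^ k| ≤ 1 := by
        intro j _
        rw [abs_of_pos (by positivity), div_le_one (by positivity)]
        exact one_le_pow₀ (by linarith [show (0 : ℝ) ≤ j by positivity])
      refine (Finset.sum_le_sum h2).trans ?_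
      rw [Finset.sum_const, Finset.card_range, nsmul_eq_mul, mul_one]
      exact_mod_cast (Nat.lt_two_pow_self (n := n)).le
    have h2 : (x : ℝ) / q ≤ (x + 1) * q := by
      calc (x : ℝ) / q ≤ x := div_le_self (by positivity) hq1
        _ ≤ (x + 1) * q := by nlinarith
    calc |∑ j ∈ Finset.range n, 1 / ((j : ℝ) + 1) ^ k| * ((x : ℝ) / q) ^ n ≤ 2 ^ n * ((x + 1) * q) ^ n := by
          refine mul_le_mul h1 (pow_le_pow_left₀ (by positivity) h2 n) (by positivity) (by positivity)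
      _ = (2 * ((x + 1) * q)) ^ n := (mul_pow _ _ _).symm
      _ ≤ C ^ n := pow_le_pow_left₀ (by positivity) (le_mul_of_one_le_right (by positivity) hb1) n
      _ ≤ C ^ (n + 1) := pow_le_pow_right₀ hC1 (by omega)
  · exact Nat.mul_pos (by positivity) (pow_pos (Nat.lcmUpto_pos n) _)
  · push_cast
    have h2 : (Nat.lcmUpto n : ℝ) ^ k ≤ ((2 ^ 8 : ℝ) ^ k) ^ n := by
      rw [← pow_mul, mul_comm k n, pow_mul]
      exact pow_le_pow_left₀ (by positivity) (lcm_bound n) k
    calc (q : ℝ) ^ n * (Nat.lcmUpto n : ℝ) ^ k ≤ (2 * ((x + 1) * q)) ^ n * ((2 ^ 8 : ℝ) ^ k) ^ n := by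
          refine mul_le_mul ?_ h2 (by positivity) (by positivity)
          refine pow_le_pow_left₀ (by positivity) ?_ n
          nlinarith
      _ = C ^ n := by rw [hC, mul_pow (2 * (((x : ℝ) + 1) * q))]
      _ ≤ C ^ (n + 1) := pow_le_pow_right₀ hC1 (by omega)
  · rw [hcf]
    have hint : ∀ i ∈ Finset.range j, ∃ c : ℤ, ((Nat.lcmUpto n : ℚ)) ^ k * (1 / ((i : ℚ) + 1) ^ k) = c := by
      intro i hi
      rw [Finset.mem_range] at hi
      have hd : i + 1 ∣ Nat.lcmUpto n := Finset.dvd_lcm (f := id) (Finset.mem_Icc.2 ⟨by omega, by omega⟩)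
      obtain ⟨c, hc⟩ := hd
      refine ⟨(c : ℤ) ^ k, ?_⟩
      have hi0 : ((i : ℚ) + 1) ≠ 0 := by positivity
      rw [hc]
      push_cast
      rw [mul_pow]
      field_simp
    choose! c hc using hint
    refine ⟨(∑ i ∈ Finset.range j, c i) * ((x : ℤ) ^ j * (q : ℤ) ^ (n - j)), ?_⟩
    have h3 : (q : ℚ) ^ n = q ^ (n - j) * q ^ j := by rw [← pow_add]; congr 1; omega
    have h4 : ((∑ i ∈ Finset.range j, c i : ℤ) : ℚ) = (Nat.lcmUpto n : ℚ) ^ k *
        ∑ i ∈ Finset.range j, 1 / ((i : ℚ) + 1) ^ k := by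
      rw [Finset.mul_sum]
      push_cast
      exact Finset.sum_congr rfl fun i hi => (hc i hi).symm
    push_cast at h4 ⊢
    rw [h4, h3, div_pow]
    field_simp

/-- `e^(-x) ∑ H_n^(k) x^n / n!` -/
noncomputable def Sv (k : ℕ) (x : ℝ) : ℝ :=
  Real.exp (-x) * ∑' n : ℕ, (∑ j ∈ Finset.range n, 1 / ((j : ℝ) + 1) ^ k) * x ^ n / n.factorial

lemma ev_last (k : ℕ) (hq : 1 ≤ q) : ev 1 (fn m q k (k + 1)) = Sv k ((m : ℝ) / q) := by
  rw [fn_last, Cv.ev_mul one_pos ((EF_wS q hq).pow m).cv (EF_A m k q hq).cv, (EF_wS q hq).cv.ev_pow one_pos, ev_wS,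
    ← Real.exp_nat_mul, Sv]
  congr 1
  · congr 1
    have : (q : ℝ) ≠ 0 := by positivity
    field_simp
  · rw [ev]
    refine tsum_congr fun n => ?_
    rw [A, coeff_mk]
    push_cast
    simp

/-- **The measure.** -/
theorem measZ (k : ℕ) (hk : 1 ≤ k) (hm : 1 ≤ m) (hq : 1 ≤ q) (ε : ℝ) (hε : 0 < ε) : ∃ c : ℝ, 0 < c ∧
    ∀ a b : ℤ, (a ≠ 0 ∨ b ≠ 0) → ∀ H : ℝ, |(a : ℝ)| ≤ H → |(b : ℝ)| ≤ H →
      c * H ^ (-((k : ℝ) + 1 + ε)) ≤ |a + b * Sv k ((m : ℝ) / q)| := by
  obtain ⟨y, hy⟩ : ∃ y : Fin (k + 2) → ℚ⟦X⟧, y = fun i : Fin (k + 2) => fn m q k (i : ℕ) := ⟨_, rfl⟩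
  have hEFy : ∀ i, EF (y i) := by
    intro i
    rw [hy]
    show EF (fn m q k i)
    rw [fn]
    split_ifs
    · exact EF.one
    · exact ((EF_wS q hq).pow _).mul (EF_B _ _ _ hq)
    · exact ((EF_wS q hq).pow _).mul (EF_A _ _ _ hq)
  obtain ⟨C₁, hC, h1, h2⟩ := EF.common (y := y) hEFy
  have hq0 : (q : ℚ) ≠ 0 := by exact_mod_cast (by omega : q ≠ 0)
  -- the system
  have hTQ : ∀ F : ℚ⟦X⟧, (TQ q : ℚ⟦X⟧) * d⁄dX ℚ F = (q : ℚ⟦X⟧) * th F := by
    intro F
    rw [TQ_eq, th]
    ring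
  have hqC : ∀ F : ℚ⟦X⟧, (q : ℚ⟦X⟧) * ((Polynomial.C ((m : ℚ) / q) * Polynomial.X) • F) = ps ((m : Polynomial ℤ) * Polynomial.X) * F := by
    intro F
    have e1 : ps ((m : Polynomial ℤ) * Polynomial.X) = (m : ℚ⟦X⟧) * X := by
      rw [ps_mul, ps_X]
      congr 1
      rw [ps, Polynomial.map_natCast]
      exact map_natCast (Polynomial.coeToPowerSeries.ringHom (R := ℚ)) m
    have e2 : (q : ℚ⟦X⟧) * C ((m : ℚ) / q) = (m : ℚ⟦X⟧) := by
      have h3 : (q : ℚ⟦X⟧) = C (q : ℚ) := by simp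
      have h4 : (m : ℚ⟦X⟧) = C (m : ℚ) := by simp
      rw [h3, h4, ← map_mul]
      congr 1
      field_simp
    rw [smul_eq, Polynomial.coe_mul, Polynomial.coe_C, Polynomial.coe_X, e1]
    calc (q : ℚ⟦X⟧) * (C ((m : ℚ) / q) * X * F) = ((q : ℚ⟦X⟧) * C ((m : ℚ) / q)) * X * F := by ring
      _ = _ := by rw [e2]
  have hpsq : ps (q : Polynomial ℤ) = (q : ℚ⟦X⟧) := by
    rw [ps, Polynomial.map_natCast]
    exact map_natCast (Polynomial.coeToPowerSeries.ringHom (R := ℚ)) q
  have hpsn : ∀ P : Polynomial ℤ, ps (-P) = - ps P := fun P => by simp [ps]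
  have hder : ∀ i : Fin (k + 2), ∃ b : Fin (k + 2) → Polynomial ℤ,
      (TQ q : ℚ⟦X⟧) * d⁄dX ℚ (y i) = ∑ j, ps (b j) * y j := by
    intro i
    have hone : ∀ (j₁ : Fin (k + 2)) (P : Polynomial ℤ), ∃ b : Fin (k + 2) → Polynomial ℤ,
        ps P * y j₁ = ∑ j, ps (b j) * y j := by
      intro j₁ P
      refine ⟨fun j => if j = j₁ then P else 0, ?_⟩
      rw [Finset.sum_eq_single_of_mem j₁ (Finset.mem_univ _)]
      · beta_reduce; rw [if_pos rfl]
      · intro j _ hj; beta_reduce; rw [if_neg hj, ps_zero, zero_mul]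
    have htwo : ∀ (j₁ j₂ : Fin (k + 2)) (P Q : Polynomial ℤ), ∃ b : Fin (k + 2) → Polynomial ℤ,
        ps P * y j₁ + ps Q * y j₂ = ∑ j, ps (b j) * y j := by
      intro j₁ j₂ P Q
      obtain ⟨b, hb⟩ := hone j₁ P
      obtain ⟨b', hb'⟩ := hone j₂ Q
      refine ⟨fun j => b j + b' j, ?_⟩
      rw [hb, hb', ← Finset.sum_add_distrib]
      refine Finset.sum_congr rfl fun j _ => ?_
      rw [ps_add]; ring
    rw [hTQ]
    obtain ⟨n, hn⟩ := i
    rcases n with _ | n
    · refine ⟨fun _ => 0, ?_⟩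
      have h3 : y ⟨0, hn⟩ = 1 := by rw [hy]; exact fn_zero k
      have h4 : th (1 : ℚ⟦X⟧) = 0 := by rw [th, Derivation.map_one_eq_zero, mul_zero]
      rw [h3, h4, mul_zero]
      simp [ps_zero]
    · rcases n with _ | n
      · have h3 : (q : ℚ⟦X⟧) * th (y ⟨1, hn⟩) = ps (-((m : Polynomial ℤ) * Polynomial.X)) * y ⟨1, hn⟩ +
            ps ((m : Polynomial ℤ) * Polynomial.X) * y ⟨0, by omega⟩ := by
          rw [hy]
          show (q : ℚ⟦X⟧) * th (fn m q k 1) = _
          rw [th_fn_one hq k hk, mul_add, mul_neg, hqC, hqC, hpsn]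
          ring
        rw [h3]
        exact htwo _ _ _ _
      · by_cases hlt : n + 1 < k
        · have h3 : (q : ℚ⟦X⟧) * th (y ⟨n + 2, hn⟩) = ps (-((m : Polynomial ℤ) * Polynomial.X)) * y ⟨n + 2, hn⟩ +
              ps (q : Polynomial ℤ) * y ⟨n + 1, by omega⟩ := by
            rw [hy]
            show (q : ℚ⟦X⟧) * th (fn m q k (n + 2)) = _
            rw [th_fn_mid hq k n hlt, mul_add, mul_neg, hqC, hpsn, hpsq]
            ring
          rw [h3]
          exact htwo _ _ _ _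
        · obtain rfl : k = n + 1 := by omega
          have h3 : (q : ℚ⟦X⟧) * th (y ⟨n + 2, hn⟩) = ps (q : Polynomial ℤ) * y ⟨n + 1, by omega⟩ := by
            rw [hy]
            show (q : ℚ⟦X⟧) * th (fn m q (n + 1) (n + 2)) = _
            rw [th_fn_last hq n, hpsq]
          rw [h3]
          exact hone _ _
  choose b hb using hder
  have hSys : ESys q C₁ y := { one_le := hC, hq := hq, size := h1, den := h2, der := ⟨b, hb⟩ }
  have hLI : LinearIndependent (Polynomial ℚ) y := by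
    rw [hy]
    exact LI_of_steps (fn m q k) (k + 2) (steps hm hq k hk)
  obtain ⟨c, hc, h3⟩ := E_meas hSys 0 (by rw [hy]; exact fn_zero k) hLI ε hε
  refine ⟨c, hc, fun a b' hab H hH1 hH2 => ?_⟩
  have hH0 : 0 ≤ H := (abs_nonneg _).trans hH1
  have hlast : (⟨k + 1, by omega⟩ : Fin (k + 2)) ≠ 0 := by
    intro h
    have := congrArg Fin.val h
    simp at this
  have h4 := h3 (fun i => if i = 0 then a else if i = ⟨k + 1, by omega⟩ then b' else 0) (fun h => by
    have h5 := congrFun h 0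
    have h6 := congrFun h ⟨k + 1, by omega⟩
    simp only [if_true, Pi.zero_apply] at h5
    rw [if_neg hlast, if_pos rfl, Pi.zero_apply] at h6
    rcases hab with hab | hab
    · exact hab h5
    · exact hab h6) H (fun i => by
      beta_reduce
      split_ifs
      · exact hH1
      · exact hH2
      · simpa using hH0)
  have e1 : -(((k + 2 : ℕ) : ℝ) - 1 + ε) = -((k : ℝ) + 1 + ε) := by push_cast; ring
  rw [e1] at h4
  refine h4.trans (le_of_eq ?_)
  congr 1
  rw [← Finset.add_sum_erase _ _ (Finset.mem_univ (0 : Fin (k + 2))), if_pos rfl,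
    Finset.sum_eq_single_of_mem ⟨k + 1, by omega⟩ (Finset.mem_erase.2 ⟨hlast, Finset.mem_univ _⟩)]
  · rw [if_neg hlast, if_pos rfl, hy]
    show (a : ℝ) * ev 1 (fn m q k 0) + b' * ev 1 (fn m q k (k + 1)) = _
    rw [fn_zero, ev_one, mul_one, ev_last k hq]
  · intro j hj hj2
    rw [if_neg (Finset.ne_of_mem_erase hj), if_neg hj2, Int.cast_zero, zero_mul]

end Pool.Agent.N743.SS.Zt
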