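import Pool.Agent.N743.SS.Zt
import Pool.Agent.N743.SS.PiK
import Pool.Agent.N902.EW.Bo

/-!
# `ζ(k)` and the Poisson means of its tails
-/

set_option autoImplicit false

open MeasureTheory Set

namespace Pool.Agent.N743.SS.Zt

/-- `ζ(k)` -/
noncomputable def zt (k : ℕ) : ℝ := ∑' n : ℕ, 1 / ((n : ℝ) + 1) ^ k

/-- the integral `T_k(x)` -/
noncomputable def Tv (k : ℕ) (x : ℝ) : ℝ :=
  1 / ((k - 1).factorial : ℝ) * ∫ t in Ioi (0 : ℝ), t ^ (k - 1) / (Real.exp t - 1) * Real.exp (-(x * (1 - Real.exp (-t))))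

lemma zt_cast {k : ℕ} (hk : 2 ≤ k) : ((zt k : ℝ) : ℂ) = riemannZeta k := by
  rw [zeta_eq_tsum_one_div_nat_add_one_cpow (by simp; omega), zt, Complex.ofReal_tsum]
  refine tsum_congr fun n => ?_
  rw [Complex.cpow_natCast]
  push_cast
  rfl

lemma Tv_cast (m : ℕ) (hm : 1 ≤ m) (x : ℝ) : ((Tv (m + 1) x : ℝ) : ℂ) = Pool.Agent.N902.EW.PT (m + 1) x := by
  rw [Pool.Agent.N902.EW.PT_eq_integral hm, Tv, Nat.add_sub_cancel, Complex.ofReal_mul]
  congr 1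
  · push_cast; rfl
  · rw [← integral_complex_ofReal]
    refine setIntegral_congr_fun measurableSet_Ioi fun t _ => ?_
    push_cast
    congr 2
    ring

lemma Sv_cast (k : ℕ) (x : ℝ) : ((Sv k x : ℝ) : ℂ) = Pool.Agent.N902.EW.PS k x := by
  rw [Sv, Pool.Agent.N902.EW.PS, Complex.ofReal_mul, Complex.ofReal_tsum]
  congr 1
  · push_cast; rfl
  · refine tsum_congr fun n => ?_
    push_cast
    ring

theorem split {k : ℕ} (hk : 2 ≤ k) (x : ℝ) : zt k = Sv k x + Tv k x := by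
  obtain ⟨m, rfl⟩ : ∃ m, k = m + 1 := ⟨k - 1, by omega⟩
  have h := Pool.Agent.N902.EW.zeta_split hk (x : ℂ)
  rw [← zt_cast hk, ← Sv_cast, ← Tv_cast m (by omega)] at h
  exact_mod_cast h

/-- the Poisson means -/
theorem Tv_eq {k : ℕ} (hk : 2 ≤ k) (x : ℝ) :
    Tv k x = Real.exp (-x) * ∑' j : ℕ, x ^ j / j.factorial * ∑' i : ℕ, 1 / ((i : ℝ) + j + 1) ^ k := by
  obtain ⟨m, rfl⟩ : ∃ m, k = m + 1 := ⟨k - 1, by omega⟩
  have h : ((Tv (m + 1) x : ℝ) : ℂ) = ((Real.exp (-x) * ∑' j : ℕ, x ^ j / j.factorial *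
      ∑' i : ℕ, 1 / ((i : ℝ) + j + 1) ^ (m + 1) : ℝ) : ℂ) := by
    rw [Tv_cast m (by omega), Pool.Agent.N902.EW.PT, Complex.ofReal_mul, Complex.ofReal_tsum]
    congr 1
    · push_cast; rfl
    · refine tsum_congr fun n => ?_
      rw [Complex.ofReal_mul, Complex.ofReal_tsum]
      congr 1
      · push_cast; rfl
      · refine tsum_congr fun i => ?_
        push_cast
        rfl
  exact_mod_cast h

/-- `ζ(k)` and `T_k(x)` -/
theorem pair_zeta {k : ℕ} (hk : 2 ≤ k) (x : ℚ) (hx : 0 < x) (ε : ℝ) (hε : 0 < ε) : ∃ C : ℝ, 0 < C ∧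
    ∀ (p r : ℤ) (q s : ℕ), 0 < q → 0 < s →
      C * ((q : ℝ) * s) ^ (-((k : ℝ) + 2 + ε)) ≤ max |zt k - p / q| |Tv k x - r / s| := by
  obtain ⟨m, n, hm, hn, hmn⟩ := num_den x hx
  obtain ⟨c, hc, hmeas⟩ := measZ (m := m) (q := n) k (by omega) hm hn ε hε
  rw [← hmn] at hmeas
  have hrel := split hk (x : ℝ)
  obtain ⟨S, hS⟩ : ∃ S : ℝ, S = Sv k x := ⟨_, rfl⟩
  obtain ⟨u, hu⟩ : ∃ u : ℝ, u = zt k := ⟨_, rfl⟩
  obtain ⟨v, hv⟩ : ∃ v : ℝ, v = Tv k x := ⟨_, rfl⟩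
  rw [← hu, ← hv, ← hS] at hrel
  rw [← hS] at hmeas
  rw [← hu, ← hv]
  have hu0 := abs_nonneg u
  have hv0 := abs_nonneg v
  obtain ⟨K, hK⟩ : ∃ K : ℝ, K = |u| + |v| + 2 := ⟨_, rfl⟩
  have hK0 : 0 < K := by rw [hK]; positivity
  refine ⟨min 1 (c * K ^ (-((k : ℝ) + 1 + ε)) / 2), by positivity, fun p r q s hq hs => ?_⟩
  have hk0 : (0 : ℝ) ≤ k := Nat.cast_nonneg k
  have hq1 : (1 : ℝ) ≤ q := by exact_mod_cast hq
  have hs1 : (1 : ℝ) ≤ s := by exact_mod_cast hs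
  have hq0 : (0 : ℝ) < q := by linarith
  have hs0 : (0 : ℝ) < s := by linarith
  have hqs : (1 : ℝ) ≤ (q : ℝ) * s := by nlinarith
  have hqs0 : (0 : ℝ) < (q : ℝ) * s := by linarith
  have hpw : ((q : ℝ) * s) ^ (-((k : ℝ) + 2 + ε)) ≤ 1 := Real.rpow_le_one_of_one_le_of_nonpos hqs (by linarith)
  have hpw0 : 0 < ((q : ℝ) * s) ^ (-((k : ℝ) + 2 + ε)) := by positivity
  obtain ⟨η, hη⟩ : ∃ η : ℝ, η = max |u - p / q| |v - r / s| := ⟨_, rfl⟩
  have hη1 : |u - p / q| ≤ η := by rw [hη]; exact le_max_left _ _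
  have hη2 : |v - r / s| ≤ η := by rw [hη]; exact le_max_right _ _
  rw [← hη]
  by_cases hbig : 1 ≤ η
  · refine le_trans ?_ hbig
    have h1 : min 1 (c * K ^ (-((k : ℝ) + 1 + ε)) / 2) ≤ 1 := min_le_left _ _
    have h2 : 0 ≤ min 1 (c * K ^ (-((k : ℝ) + 1 + ε)) / 2) := by positivity
    nlinarith
  push Not at hbig
  have hpq : |(p : ℝ) / q| ≤ |u| + 1 := by
    have h1 : (p : ℝ) / q = u - (u - p / q) := by ring
    rw [h1]
    exact (abs_sub _ _).trans (by linarith)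
  have hrs : |(r : ℝ) / s| ≤ |v| + 1 := by
    have h1 : (r : ℝ) / s = v - (v - r / s) := by ring
    rw [h1]
    exact (abs_sub _ _).trans (by linarith)
  have e0 : ((r * q - p * s : ℤ) : ℝ) = (q * s) * (r / s - p / q) := by
    push_cast
    field_simp
  have e1 : (((q * s : ℕ) : ℤ) : ℝ) = q * s := by push_cast; ring
  have hlow := hmeas (r * q - p * s) ((q * s : ℕ) : ℤ) (Or.inr (by positivity)) (K * (q * s)) (by
      rw [e0, abs_mul, abs_of_pos hqs0]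
      have h1 : |(r : ℝ) / s - p / q| ≤ K := by
        rw [hK]
        exact (abs_sub _ _).trans (by linarith)
      calc (q * s : ℝ) * |(r : ℝ) / s - p / q| ≤ (q * s) * K := by gcongr
        _ = _ := by ring) (by
      rw [e1, abs_of_pos hqs0]
      have h1 : 1 ≤ K := by rw [hK]; linarith
      nlinarith)
  have hval : ((r * q - p * s : ℤ) : ℝ) + (((q * s : ℕ) : ℤ) : ℝ) * S = (q * s) * ((u - p / q) - (v - r / s)) := by
    rw [e0, e1, hrel]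
    ring
  rw [hval] at hlow
  have hup : |(q * s : ℝ) * ((u - p / q) - (v - r / s))| ≤ 2 * (q * s) * η := by
    rw [abs_mul, abs_of_pos hqs0]
    have h1 : |(u - p / q) - (v - r / s)| ≤ 2 * η := (abs_sub _ _).trans (by linarith)
    calc (q * s : ℝ) * |(u - p / q) - (v - r / s)| ≤ (q * s) * (2 * η) := by gcongr
      _ = _ := by ring
  have hfin := fin_bound hK0 (show (0 : ℝ) < 2 by norm_num) hqs0 (hlow.trans hup)
  refine le_trans ?_ hfin
  rw [show ((k : ℝ) + 1 + ε + 1 : ℝ) = k + 2 + ε by ring]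
  exact mul_le_mul_of_nonneg_right (min_le_right _ _) hpw0.le

end Pool.Agent.N743.SS.Zt
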